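import Mathlib

/-!
Linear recurrences with constant coefficients: closure under sums and products.
-/

set_option autoImplicit false

namespace Pool.Agent.Q183.AR

open Polynomial

variable {R : Type} [CommRing R]

/-- linear recurrence sequences -/
def Rec (f : ℕ → R) : Prop := ∃ E : LinearRecurrence R, E.IsSolution f

/-- the shift -/
def shR (R : Type) [CommRing R] : (ℕ → R) →ₐ[R] (ℕ → R) where
  toFun f := fun t => f (t + 1)
  map_one' := rfl
  map_mul' _ _ := rfl
  map_zero' := rfl
  map_add' _ _ := rfl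
  commutes' _ := rfl

theorem shR_pow (n : ℕ) (f : ℕ → R) (t : ℕ) :
    (((shR R).toLinearMap : Module.End R (ℕ → R)) ^ n) f t = f (t + n) := by
  induction n generalizing f t with
  | zero => rfl
  | succ n ih =>
    rw [pow_succ', Module.End.mul_apply]
    change (((shR R).toLinearMap : Module.End R (ℕ → R)) ^ n) f (t + 1) = _
    rw [ih]
    congr 1
    omega

theorem rec_iff {f : ℕ → R} : Rec f ↔ ∃ N : Submodule R (ℕ → R), N.FG ∧
    (∀ w ∈ N, shR R w ∈ N) ∧ f ∈ N := by
  classical
  constructor
  · rintro ⟨E, hE⟩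
    let T : Module.End R (ℕ → R) := (shR R).toLinearMap
    let N : Submodule R (ℕ → R) := Submodule.span R (Set.range fun i : Fin (E.order + 1) =>
      (T ^ (i : ℕ)) f)
    refine ⟨N, Submodule.fg_span (Set.finite_range _), fun w hw => ?_, ?_⟩
    · refine Submodule.span_induction (p := fun w _ => shR R w ∈ N) ?_ ?_ ?_ ?_ hw
      · rintro _ ⟨i, rfl⟩
        have h1 : shR R ((T ^ (i : ℕ)) f) = (T ^ ((i : ℕ) + 1)) f := by
          rw [pow_succ', Module.End.mul_apply]
          rfl
        change shR R ((T ^ (i : ℕ)) f) ∈ N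
        rw [h1]
        rcases Nat.lt_or_ge (i : ℕ) E.order with h | h
        · exact Submodule.subset_span ⟨⟨i + 1, by omega⟩, rfl⟩
        · have h2 : (i : ℕ) = E.order := by have := i.2; omega
          have h3 : (T ^ ((i : ℕ) + 1)) f = ∑ k : Fin E.order, E.coeffs k • (T ^ ((k : ℕ) + 1)) f := by
            funext t
            rw [Finset.sum_apply, shR_pow, h2, show t + (E.order + 1) = (t + 1) + E.order by ring,
              hE (t + 1)]
            refine Finset.sum_congr rfl fun k _ => ?_
            rw [Pi.smul_apply, shR_pow, smul_eq_mul]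
            congr 2
            ring
          rw [h3]
          refine Submodule.sum_mem _ fun k _ => Submodule.smul_mem _ _
            (Submodule.subset_span ⟨⟨k + 1, by have := k.2; omega⟩, rfl⟩)
      · rw [map_zero]
        exact zero_mem _
      · intro a b _ _ ha hb
        rw [map_add]
        exact add_mem ha hb
      · intro c a _ ha
        rw [map_smul]
        exact Submodule.smul_mem _ _ ha
    · refine Submodule.subset_span ⟨⟨0, by omega⟩, ?_⟩
      simp
  · rintro ⟨N, hN, hs, hf⟩
    have : Module.Finite R N := Module.Finite.iff_fg.2 hN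
    let T : N →ₗ[R] N := (shR R).toLinearMap.restrict hs
    obtain ⟨p, hp, hp0⟩ := LinearMap.exists_monic_and_aeval_eq_zero R T
    have hT : ∀ (k t : ℕ), (((T ^ k) ⟨f, hf⟩ : N) : ℕ → R) t = f (t + k) := by
      intro k
      induction k with
      | zero => intro t; rfl
      | succ k ih =>
        intro t
        rw [pow_succ', Module.End.mul_apply]
        change (((T ^ k) ⟨f, hf⟩ : N) : ℕ → R) (t + 1) = _
        rw [ih]
        congr 1
        omega
    refine ⟨⟨p.natDegree, fun i => -p.coeff i⟩, fun t => ?_⟩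
    have h1 := hp0
    rw [aeval_eq_sum_range] at h1
    have h2 := congrArg (fun z : N →ₗ[R] N => ((z ⟨f, hf⟩ : N) : ℕ → R) t) h1
    simp only [LinearMap.sum_apply, LinearMap.smul_apply, LinearMap.zero_apply] at h2
    have h3 : ∀ (s : Finset ℕ) (g : ℕ → N), ((∑ k ∈ s, g k : N) : ℕ → R) t =
        ∑ k ∈ s, ((g k : N) : ℕ → R) t := by
      intro s g
      rw [Submodule.coe_sum, Finset.sum_apply]
    rw [h3, Finset.sum_range_succ] at h2
    simp only [Submodule.coe_smul, Pi.smul_apply, hT, smul_eq_mul] at h2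
    rw [show p.coeff p.natDegree = 1 from hp, one_mul] at h2
    have h4 : ((0 : N) : ℕ → R) t = 0 := rfl
    rw [h4, Finset.sum_range] at h2
    rw [eq_neg_of_add_eq_zero_right h2, ← Finset.sum_neg_distrib]
    exact Finset.sum_congr rfl fun i _ => (neg_mul _ _).symm

theorem Rec.add {f g : ℕ → R} (hf : Rec f) (hg : Rec g) : Rec fun t => f t + g t := by
  obtain ⟨N, h1, h2, h3⟩ := rec_iff.1 hf
  obtain ⟨N', h1', h2', h3'⟩ := rec_iff.1 hg
  refine rec_iff.2 ⟨N ⊔ N', h1.sup h1', fun w hw => ?_,
    Submodule.add_mem_sup h3 h3'⟩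
  obtain ⟨a, ha, b, hb, rfl⟩ := Submodule.mem_sup.1 hw
  rw [map_add]
  exact Submodule.add_mem_sup (h2 a ha) (h2' b hb)

theorem Rec.mul {f g : ℕ → R} (hf : Rec f) (hg : Rec g) : Rec fun t => f t * g t := by
  obtain ⟨N, h1, h2, h3⟩ := rec_iff.1 hf
  obtain ⟨N', h1', h2', h3'⟩ := rec_iff.1 hg
  refine rec_iff.2 ⟨N * N', h1.mul h1', fun w hw => ?_, Submodule.mul_mem_mul h3 h3'⟩
  refine Submodule.mul_induction_on hw ?_ ?_
  · intro a ha b hb
    rw [map_mul]
    exact Submodule.mul_mem_mul (h2 a ha) (h2' b hb)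
  · intro a b ha hb
    rw [map_add]
    exact add_mem ha hb

theorem Rec.const (c : R) : Rec fun _ => c := ⟨⟨1, fun _ => 1⟩, fun n => by simp⟩

theorem Rec.neg {f : ℕ → R} (hf : Rec f) : Rec fun t => -f t := by
  have := (Rec.const (-1 : R)).mul hf
  simpa using this

theorem Rec.sub {f g : ℕ → R} (hf : Rec f) (hg : Rec g) : Rec fun t => f t - g t := by
  simpa only [sub_eq_add_neg] using hf.add hg.neg

theorem Rec.geom (c : R) : Rec fun t => c ^ t :=
  ⟨⟨1, fun _ => c⟩, fun n => by simp [pow_succ, mul_comm]⟩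

theorem Rec.pow {f : ℕ → R} (hf : Rec f) (n : ℕ) : Rec fun t => f t ^ n := by
  induction n with
  | zero => simpa using Rec.const (1 : R)
  | succ n ih => simpa only [pow_succ] using ih.mul hf

theorem Rec.prod {ι : Type} (s : Finset ι) {f : ι → ℕ → R} (hf : ∀ i ∈ s, Rec (f i)) :
    Rec fun t => ∏ i ∈ s, f i t := by
  classical
  induction s using Finset.induction_on with
  | empty => simpa using Rec.const (1 : R)
  | insert i s hi ih =>
    simp only [Finset.prod_insert hi]
    exact (hf i (Finset.mem_insert_self _ _)).mul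
      (ih fun j hj => hf j (Finset.mem_insert_of_mem hj))

theorem Rec.sum {ι : Type} (s : Finset ι) {f : ι → ℕ → R} (hf : ∀ i ∈ s, Rec (f i)) :
    Rec fun t => ∑ i ∈ s, f i t := by
  classical
  induction s using Finset.induction_on with
  | empty => simpa using Rec.const (0 : R)
  | insert i s hi ih =>
    simp only [Finset.sum_insert hi]
    exact (hf i (Finset.mem_insert_self _ _)).add
      (ih fun j hj => hf j (Finset.mem_insert_of_mem hj))

end Pool.Agent.Q183.AR
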