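import Pool.Agent.Q183.AR.MainK

/-!
Integer linear recurrences.
-/

set_option autoImplicit false

namespace Pool.Agent.Q183.AR

theorem prod_emb_int {K : Type} [Field K] [NumberField K] (hK : Module.finrank ℚ K = 1) (n : ℤ) :
    ∏ σ : K →ₐ[ℚ] ℂ, ‖σ (algebraMap ℤ K n)‖ = |(n : ℝ)| := by
  have h1 : ∀ σ : K →ₐ[ℚ] ℂ, ‖σ (algebraMap ℤ K n)‖ = |(n : ℝ)| := by
    intro σ
    have h2 : algebraMap ℤ K n = (n : K) := by simp
    rw [h2, map_intCast, Complex.norm_intCast]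
  rw [Finset.prod_congr rfl fun σ _ => h1 σ, Finset.prod_const, Finset.card_univ,
    AlgHom.card ℚ K ℂ, hK, pow_one]

theorem finrank_rat : @Module.finrank ℚ ℚ _ _ (@Algebra.toModule ℚ ℚ _ _ DivisionRing.toRatAlgebra) = 1 := by
  rw [Subsingleton.elim (DivisionRing.toRatAlgebra : Algebra ℚ ℚ) (Algebra.id ℚ)]
  exact Module.finrank_self ℚ

theorem clear {n : ℕ} (c : Fin n → ℚ) (hc : c ≠ 0) :
    ∃ (c' : Fin n → ℤ) (d : ℤ), d ≠ 0 ∧ c' ≠ 0 ∧ ∀ i, (c' i : ℚ) = d * c i := by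
  obtain ⟨b, hb⟩ := IsLocalization.exist_integer_multiples_of_finite (nonZeroDivisors ℤ) c
  choose c' hc' using hb
  have hb0 : (b : ℤ) ≠ 0 := nonZeroDivisors.coe_ne_zero b
  have h1 : ∀ i, (c' i : ℚ) = (b : ℤ) * c i := by
    intro i
    have h2 := hc' i
    rw [zsmul_eq_mul] at h2
    simpa using h2
  refine ⟨c', b, hb0, ?_, h1⟩
  intro h0
  apply hc
  funext i
  have h2 := h1 i
  rw [h0] at h2
  simp only [Pi.zero_apply, Int.cast_zero] at h2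
  exact (mul_eq_zero.1 h2.symm).resolve_left (by exact_mod_cast hb0)

/-- **Integer linear recurrences.** -/
theorem intZ {N : ℕ} (hN : 0 < N) {J : Type} [Fintype J] (g : J → ℕ → ℤ)
    (hg : ∀ j, ∃ E : LinearRecurrence ℤ, E.IsSolution (g j))
    (κ μ : Fin (N + 1) → ℤ) (hμ : ∀ i, μ i ≠ 0)
    (e : Fin (N + 1) → J → ℕ) (x : J → ℕ) (I0 : Set (Fin (N + 1)))
    (hx : ∀ i0 ∈ I0, ∀ j, ∀ σ : Equiv.Perm (Fin N),
      ∑ k : Fin N, min (e (i0.succAbove (σ k)) j) k ≤ x j)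
    (hx0 : ∀ j, x j ≠ 0 → ∃ i, e i j ≠ 0)
    (hsum : ∀ t, ∑ i, κ i * μ i ^ t * ∏ j, g j t ^ e i j = 0) :
    ∃ M : ℕ, 0 < M ∧ ∀ ρ : ℕ,
      (∃ (c : Fin (N + 1) → ℤ) (z : ℕ), c (Fin.last N) = 0 ∧ c ≠ 0 ∧ ∀ t, z ≤ t → t ≡ ρ [MOD M] →
        ∑ i, c i * (κ i * μ i ^ t * ∏ j, g j t ^ e i j) = 0) ∨
      ∃ (C : ℝ) (T t0 : ℕ), 0 < C ∧ ∀ t, t0 ≤ t → ∃ s, t ≤ s ∧ s < t + T ∧ s ≡ ρ [MOD M] ∧
        (∀ i, κ i * μ i ^ s * ∏ j, g j s ^ e i j ≠ 0) ∧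
        ∀ v : Fin (N + 1) → ℤ, (∀ i, i ∉ I0 → v i = 0) →
          ∑ i, v i * (κ i * μ i ^ s * ∏ j, g j s ^ e i j) ≠ 0 →
          ∀ i, |((κ i * μ i ^ s * ∏ j, g j s ^ e i j : ℤ) : ℝ)| ≤
              C * |((∑ i, v i * (κ i * μ i ^ s * ∏ j, g j s ^ e i j) : ℤ) : ℝ)| *
                ∏ j, |(g j s : ℝ)| ^ x j := by
  classical
  have hinj : Function.Injective (algebraMap ℤ ℚ) := (algebraMap ℤ ℚ).injective_int
  obtain ⟨M, hM, h⟩ := mainK (R := ℤ) (K := ℚ) hN g hg κ μ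
    (fun i h0 => hμ i (hinj (h0.trans (map_zero _).symm))) e x I0 hx hx0
    (fun t => by rw [hsum t, map_zero])
  refine ⟨M, hM, fun ρ => ?_⟩
  rcases h ρ with ⟨c, z, hc0, hc1, hc2⟩ | ⟨C, T, t0, hC, h1⟩
  · left
    obtain ⟨c', d, hd, hc'0, hc'⟩ := clear c hc1
    refine ⟨c', z, ?_, hc'0, fun t ht htm => ?_⟩
    · have h3 := hc' (Fin.last N)
      rw [hc0, mul_zero] at h3
      exact_mod_cast h3
    · have h3 := hc2 t ht htm
      have h4 : ((∑ i, c' i * (κ i * μ i ^ t * ∏ j, g j t ^ e i j) : ℤ) : ℚ) =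
          d * ∑ i, c i * algebraMap ℤ ℚ (κ i * μ i ^ t * ∏ j, g j t ^ e i j) := by
        rw [Finset.mul_sum, Int.cast_sum]
        refine Finset.sum_congr rfl fun i _ => ?_
        rw [Int.cast_mul, hc' i, mul_assoc]
        rfl
      rw [h3, mul_zero] at h4
      exact_mod_cast h4
  · right
    refine ⟨C, T, t0, hC, fun t ht => ?_⟩
    obtain ⟨s, h2, h3, h4, h5, h6⟩ := h1 t ht
    refine ⟨s, h2, h3, h4, fun i h0 => h5 i (by rw [h0, map_zero]), fun v hv hδ i => ?_⟩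
    have h7 := h6 v hv (fun h0 => hδ (hinj (h0.trans (map_zero _).symm))) (fun _ => i)
    have P := fun n => prod_emb_int (K := ℚ) finrank_rat n
    simp only [P] at h7
    exact h7

end Pool.Agent.Q183.AR
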