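import Pool.Agent.Q183.AR.GMain
import Pool.Agent.Q183.AR.Clo
import Pool.Agent.Q183.AR.IntZ

/-!
Corollaries of the inequality: maxima of the terms, linear forms.
-/

set_option autoImplicit false

namespace Pool.Agent.Q183.AR

/-- the terms as linear forms in the first `N` terms -/
def row (N : ℕ) (i : Fin (N + 1)) (k : Fin N) : ℂ :=
  if i = Fin.last N then -1 else if i = k.castSucc then 1 else 0

theorem row_sum {N : ℕ} (v : Fin (N + 1) → ℂ) (hv : ∑ i, v i = 0) (i : Fin (N + 1)) :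
    ∑ k : Fin N, row N i k * v k.castSucc = v i := by
  rw [Fin.sum_univ_castSucc] at hv
  unfold row
  rcases eq_or_ne i (Fin.last N) with rfl | hi
  · simp only [if_true, neg_mul, one_mul, Finset.sum_neg_distrib]
    linear_combination -hv
  · obtain ⟨k0, rfl⟩ := Fin.exists_castSucc_eq.2 hi
    rw [Finset.sum_eq_single k0]
    · rw [if_neg hi, if_pos rfl, one_mul]
    · intro k _ hk
      rw [if_neg hi, if_neg (fun h => hk (Fin.castSucc_injective N h).symm), zero_mul]
    · intro h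
      exact absurd (Finset.mem_univ k0) h

theorem row_det {N : ℕ} (i0 : Fin (N + 1)) :
    (Matrix.of fun (j k : Fin N) => row N (i0.succAbove j) k).det ≠ 0 := by
  intro h0
  obtain ⟨v, hv0, hv⟩ := Matrix.exists_mulVec_eq_zero_iff.2 h0
  apply hv0
  let w : Fin (N + 1) → ℂ := Fin.snoc v (-∑ k, v k)
  have hw : ∑ i, w i = 0 := by
    rw [Fin.sum_univ_castSucc]
    simp only [w, Fin.snoc_castSucc, Fin.snoc_last]
    ring
  have hw1 : ∀ k : Fin N, w k.castSucc = v k := fun k => by simp only [w, Fin.snoc_castSucc]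
  have h1 : ∀ j : Fin N, w (i0.succAbove j) = 0 := by
    intro j
    rw [← row_sum w hw]
    have h2 := congrFun hv j
    simp only [Matrix.mulVec, dotProduct, Matrix.of_apply, Pi.zero_apply] at h2
    simp only [hw1]
    exact h2
  have h2 : w i0 = 0 := by
    rw [Fin.sum_univ_succAbove _ i0] at hw
    simpa [h1] using hw
  funext k
  rw [← hw1 k, Pi.zero_apply]
  rcases eq_or_ne k.castSucc i0 with h | h
  · rw [h, h2]
  · obtain ⟨j, hj⟩ := Fin.exists_succAbove_eq h
    rw [← hj, h1]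

/-- **The abc type inequality for linear recurrences**, for almost all arguments. -/
theorem gabc {R K : Type} [CommRing R] [Algebra.IsIntegral ℤ R] [Field K] [NumberField K]
    [Algebra R K] {N : ℕ} (hN : 0 < N) {J : Type} [Fintype J] (g : J → ℕ → R)
    (hg : ∀ j, ∃ E : LinearRecurrence R, E.IsSolution (g j))
    (κ μ : Fin (N + 1) → R) (hμ : ∀ i, algebraMap R K (μ i) ≠ 0)
    (e : Fin (N + 1) → J → ℕ) (m x : J → ℕ) (hm : ∀ i j, m j ≤ e i j) (I0 : Set (Fin (N + 1)))
    (hx : ∀ i0 ∈ I0, ∀ j, ∀ σ : Equiv.Perm (Fin N),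
      ∑ k : Fin N, min (e (i0.succAbove (σ k)) j - m j) k ≤ x j)
    (hx0 : ∀ j, x j ≠ 0 → ∃ i, e i j ≠ m j)
    (hsum : ∀ t, algebraMap R K (∑ i, κ i * μ i ^ t * ∏ j, g j t ^ e i j) = 0) :
    ∃ M : ℕ, 0 < M ∧ ∀ ρ : ℕ,
      (∃ (c : Fin (N + 1) → K) (z : ℕ), c (Fin.last N) = 0 ∧ c ≠ 0 ∧ ∀ t, z ≤ t → t ≡ ρ [MOD M] →
        ∑ i, c i * algebraMap R K (κ i * μ i ^ t * ∏ j, g j t ^ e i j) = 0) ∨
      AA fun C s => s ≡ ρ [MOD M] →
        (∀ i, algebraMap R K (κ i * μ i ^ s * ∏ j, g j s ^ e i j) ≠ 0) ∧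
        ∀ v : Fin (N + 1) → R, (∀ i, i ∉ I0 → v i = 0) →
          algebraMap R K (∑ i, v i * (κ i * μ i ^ s * ∏ j, g j s ^ e i j)) ≠ 0 →
          ∀ η : (K →ₐ[ℚ] ℂ) → Fin (N + 1),
            ∏ σ : K →ₐ[ℚ] ℂ, ‖σ (algebraMap R K (κ (η σ) * μ (η σ) ^ s * ∏ j, g j s ^ e (η σ) j))‖ ≤
              C * (∏ σ : K →ₐ[ℚ] ℂ,
                ‖σ (algebraMap R K (∑ i, v i * (κ i * μ i ^ s * ∏ j, g j s ^ e i j)))‖) *
                ∏ j, (∏ σ : K →ₐ[ℚ] ℂ, ‖σ (algebraMap R K (g j s))‖) ^ x j := by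
  classical
  obtain ⟨M, hM, h⟩ := gmain (K := K) hN g hg κ μ hμ e m x hm I0 hx hx0 hsum
  refine ⟨M, hM, fun ρ => ?_⟩
  rcases h ρ with h1 | h1
  · exact Or.inl h1
  right
  have h2 := AA.all (fun η : (K →ₐ[ℚ] ℂ) → Fin (N + 1) =>
    h1 (fun σ => Matrix.of fun (j k : Fin N) => row N ((η σ).succAbove j) k)
      (fun σ => row_det (η σ))) (fun η C C' s hCC h hs => ⟨(h hs).1, fun v h3 h4 =>
        ((h hs).2 v h3 h4).trans (mul_le_mul_of_nonneg_right (mul_le_mul_of_nonneg_right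
          (mul_le_mul_of_nonneg_right hCC (Finset.prod_nonneg fun _ _ => norm_nonneg _))
          (Finset.prod_nonneg fun _ _ => pow_nonneg (Finset.prod_nonneg fun _ _ => norm_nonneg _) _))
          (Finset.prod_nonneg fun _ _ => Finset.prod_nonneg fun _ _ => norm_nonneg _))⟩)
  refine h2.imp (fun C => C) 0 (fun C hC => hC) fun C s hC _ h3 hs => ?_
  refine ⟨(h3 (fun _ => 0) hs).1, fun v hv hδ η => ?_⟩
  obtain ⟨h4, h5⟩ := h3 η hs
  have h6 := h5 v hv hδ
  set a : Fin (N + 1) → K := fun i => algebraMap R K (κ i * μ i ^ s * ∏ j, g j s ^ e i j) with ha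
  have hasum : ∀ σ : K →ₐ[ℚ] ℂ, ∑ i, σ (a i) = 0 := by
    intro σ
    rw [← map_sum]
    simp only [ha]
    rw [← map_sum, hsum s, map_zero]
  have h7 : ∏ σ : K →ₐ[ℚ] ℂ, ∏ j : Fin N, ‖∑ k : Fin N,
      (Matrix.of fun (j k : Fin N) => row N ((η σ).succAbove j) k) j k * σ (a k.castSucc)‖ =
      ∏ σ : K →ₐ[ℚ] ℂ, ∏ j : Fin N, ‖σ (a ((η σ).succAbove j))‖ := by
    refine Finset.prod_congr rfl fun σ _ => Finset.prod_congr rfl fun j _ => ?_
    simp only [Matrix.of_apply]
    rw [row_sum (fun i => σ (a i)) (hasum σ)]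
  rw [h7, Finset.prod_comm, Finset.prod_congr rfl fun σ _ => Fin.prod_univ_succAbove
    (fun i => ‖σ (a i)‖) (η σ), Finset.prod_mul_distrib] at h6
  set Z := ∏ σ : K →ₐ[ℚ] ℂ, ∏ j : Fin N, ‖σ (a ((η σ).succAbove j))‖ with hZ
  have hZ0 : 0 < Z := Finset.prod_pos fun σ _ => Finset.prod_pos fun j _ => norm_pos_iff.2 (by
    rw [map_ne_zero]
    exact h4 _)
  exact le_of_mul_le_mul_right h6 hZ0

/-- **Linear forms at linear recurrences**, for almost all arguments: a subspace theorem without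
epsilon. -/
theorem gforms {R K : Type} [CommRing R] [Algebra.IsIntegral ℤ R] [Field K] [NumberField K]
    [Algebra R K] {N : ℕ} (hN : 0 < N) (u : Fin N → ℕ → R) (hu : ∀ k, Rec (u k)) :
    ∃ M : ℕ, 0 < M ∧ ∀ ρ : ℕ,
      (∃ (c : Fin N → K) (z : ℕ), c ≠ 0 ∧ ∀ t, z ≤ t → t ≡ ρ [MOD M] →
        ∑ k, c k * algebraMap R K (u k t) = 0) ∨
      ∀ Λ : (K →ₐ[ℚ] ℂ) → Matrix (Fin N) (Fin N) ℂ, (∀ σ, (Λ σ).det ≠ 0) →
      AA fun C s => s ≡ ρ [MOD M] → (∀ k, algebraMap R K (u k s) ≠ 0) ∧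
        1 ≤ C * ∏ σ : K →ₐ[ℚ] ℂ, ∏ j : Fin N, ‖∑ k : Fin N, Λ σ j k * σ (algebraMap R K (u k s))‖ := by
  classical
  let g : Fin (N + 1) → ℕ → R := Fin.snoc u fun t => ∑ k, u k t
  have hg1 : ∀ k : Fin N, g k.castSucc = u k := fun k => by simp only [g, Fin.snoc_castSucc]
  have hg2 : g (Fin.last N) = fun t => ∑ k, u k t := by simp only [g, Fin.snoc_last]
  let κ : Fin (N + 1) → R := Fin.snoc (fun _ => 1) (-1)
  have hκ1 : ∀ k : Fin N, κ k.castSucc = 1 := fun k => by simp only [κ, Fin.snoc_castSucc]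
  have hκ2 : κ (Fin.last N) = -1 := by simp only [κ, Fin.snoc_last]
  let e : Fin (N + 1) → Fin (N + 1) → ℕ := fun i j => if i = j then 1 else 0
  let x : Fin (N + 1) → ℕ := fun j => if j = Fin.last N then 0 else 1
  have hA : ∀ i t, κ i * (1 : R) ^ t * ∏ j, g j t ^ e i j = κ i * g i t := by
    intro i t
    rw [Finset.prod_eq_single i]
    · simp only [e, if_true, pow_one, one_pow, mul_one]
    · intro j _ hj
      simp only [e, if_neg hj.symm, pow_zero]
    · intro h
      exact absurd (Finset.mem_univ i) h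
  obtain ⟨M, hM, h⟩ := gmain (R := R) (K := K) hN g (by
      intro j
      refine Fin.lastCases ?_ (fun k => ?_) j
      · rw [hg2]
        exact Rec.sum Finset.univ fun k _ => hu k
      · rw [hg1]
        exact hu k) κ (fun _ => 1) (fun i => by rw [map_one]; exact one_ne_zero) e (fun _ => 0) x
      (fun i j => Nat.zero_le _) {Fin.last N} (by
      rintro i0 hi0 j σ
      rw [Set.mem_singleton_iff] at hi0
      subst hi0
      simp only [Fin.succAbove_last, Nat.sub_zero, e, x]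
      rcases eq_or_ne j (Fin.last N) with rfl | hj
      · rw [if_pos rfl]
        refine le_of_eq (Finset.sum_eq_zero fun k _ => ?_)
        rw [if_neg (Fin.castSucc_lt_last _).ne, Nat.zero_min]
      · rw [if_neg hj]
        calc ∑ k : Fin N, min (if (σ k).castSucc = j then 1 else 0) (k : ℕ) ≤
            ∑ k : Fin N, (if (σ k).castSucc = j then 1 else 0) :=
              Finset.sum_le_sum fun k _ => min_le_left _ _
          _ ≤ 1 := by
            rw [Finset.sum_boole]
            have : (Finset.univ.filter fun k : Fin N => (σ k).castSucc = j).card ≤ 1 := by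
              rw [Finset.card_le_one]
              intro a ha b hb
              have h1 := (Finset.mem_filter.1 ha).2
              have h2 := (Finset.mem_filter.1 hb).2
              exact σ.injective (Fin.castSucc_injective N (h1.trans h2.symm))
            exact_mod_cast this) (fun j hj => ⟨j, by simp [e]⟩) (fun t => by
        simp only [hA]
        rw [Fin.sum_univ_castSucc]
        simp only [hκ1, hκ2, hg1, hg2, one_mul, neg_mul, add_neg_cancel, map_zero])
  refine ⟨M, hM, fun ρ => ?_⟩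
  rcases h ρ with ⟨c, z, hc0, hc1, hc2⟩ | h1
  · left
    refine ⟨fun k => c k.castSucc, z, ?_, fun t ht htm => ?_⟩
    · intro h0
      apply hc1
      funext i
      refine Fin.lastCases ?_ (fun k => ?_) i
      · exact hc0
      · exact congrFun h0 k
    · have h3 := hc2 t ht htm
      simp only [hA] at h3
      rw [Fin.sum_univ_castSucc, hc0, zero_mul, add_zero] at h3
      simpa only [hκ1, hg1, one_mul] using h3
  · right
    intro Λ hΛ
    refine (h1 Λ hΛ).imp (fun C => C) 0 (fun C hC => hC) fun C s hC _ h2 hs => ?_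
    obtain ⟨h3, h4⟩ := h2 hs
    simp only [hA] at h3 h4
    have hk : ∀ k, algebraMap R K (u k s) ≠ 0 := by
      intro k
      have := h3 k.castSucc
      rwa [hκ1, hg1, one_mul] at this
    refine ⟨hk, ?_⟩
    have h5 := h4 (Pi.single (Fin.last N) 1) (fun i hi => by
      rw [Pi.single_eq_of_ne (fun h => hi (Set.mem_singleton_iff.2 h))])
    have h6 : ∑ i, (Pi.single (Fin.last N) 1 : Fin (N + 1) → R) i * (κ i * g i s) =
        κ (Fin.last N) * g (Fin.last N) s := by
      rw [Finset.sum_eq_single (Fin.last N)]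
      · rw [Pi.single_eq_same, one_mul]
      · intro i _ hi
        rw [Pi.single_eq_of_ne hi, zero_mul]
      · intro h
        exact absurd (Finset.mem_univ _) h
    rw [h6] at h5
    have h7 := h5 (h3 _)
    set B := ∏ σ : K →ₐ[ℚ] ℂ, ‖σ (algebraMap R K (κ (Fin.last N) * g (Fin.last N) s))‖ with hB
    have hB0 : 0 < B := Finset.prod_pos fun σ _ => norm_pos_iff.2 (by
      rw [map_ne_zero]
      exact h3 _)
    set D := ∏ k : Fin N, ∏ σ : K →ₐ[ℚ] ℂ, ‖σ (algebraMap R K (u k s))‖ with hD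
    have hD0 : 0 < D := Finset.prod_pos fun k _ => Finset.prod_pos fun σ _ => norm_pos_iff.2 (by
      rw [map_ne_zero]
      exact hk k)
    have h8 : ∏ j, (∏ σ : K →ₐ[ℚ] ℂ, ‖σ (algebraMap R K (g j s))‖) ^ x j = D := by
      rw [Fin.prod_univ_castSucc]
      simp only [x, if_true, pow_zero, mul_one]
      rw [hD]
      refine Finset.prod_congr rfl fun k _ => ?_
      rw [if_neg (Fin.castSucc_lt_last k).ne, pow_one, hg1]
    have h9 : ∏ i, ∏ σ : K →ₐ[ℚ] ℂ, ‖σ (algebraMap R K (κ i * g i s))‖ = D * B := by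
      rw [Fin.prod_univ_castSucc, hD]
      congr 1
      refine Finset.prod_congr rfl fun k _ => ?_
      rw [hκ1, hg1, one_mul]
    rw [h8, h9] at h7
    simp only [hκ1, hg1, one_mul] at h7
    set Y := ∏ σ : K →ₐ[ℚ] ℂ, ∏ j : Fin N,
      ‖∑ k : Fin N, Λ σ j k * σ (algebraMap R K (u k s))‖ with hY
    have h10 : D * B * 1 ≤ D * B * (C * Y) := by
      calc D * B * 1 = D * B := mul_one _
        _ ≤ C * B * D * Y := h7
        _ = _ := by ring
    exact le_of_mul_le_mul_left h10 (mul_pos hD0 hB0)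

end Pool.Agent.Q183.AR
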