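import Pool.Agent.Q183.AR.GCor

/-!
Number fields: heights of integral points, elements of small norm in ideals, squarefree ideals.
-/

set_option autoImplicit false

namespace Pool.Agent.Q183.AR

open NumberField Height IsDedekindDomain

variable {K : Type} [Field K] [NumberField K]

/-- every ideal contains an element of norm at most a constant times the norm of the ideal -/
theorem mink (K : Type) [Field K] [NumberField K] : ∃ B : ℝ, 0 < B ∧ ∀ I : Ideal (𝓞 K), I ≠ ⊥ →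
    ∃ a ∈ I, a ≠ 0 ∧ |((Algebra.norm ℚ (a : K) : ℚ) : ℝ)| ≤ B * Ideal.absNorm I := by
  set B : ℝ := (4 / Real.pi) ^ InfinitePlace.nrComplexPlaces K *
    (Module.finrank ℚ K).factorial / (Module.finrank ℚ K) ^ (Module.finrank ℚ K) *
      Real.sqrt |discr K| with hB
  refine ⟨max B 1, lt_max_of_lt_right one_pos, fun I hI => ?_⟩
  have hI' : I ∈ nonZeroDivisors (Ideal (𝓞 K)) := mem_nonZeroDivisors_iff_ne_zero.mpr hI
  obtain ⟨_, ⟨a, ha, rfl⟩, h_nz, h_nm⟩ :=
    exists_ne_zero_mem_ideal_of_norm_le_mul_sqrt_discr K (FractionalIdeal.mk0 K ⟨I, hI'⟩)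
  refine ⟨a, ha, ?_, ?_⟩
  · rintro rfl
    apply h_nz
    rw [Algebra.linearMap_apply, map_zero]
  · have h1 : (FractionalIdeal.absNorm (FractionalIdeal.mk0 K ⟨I, hI'⟩ : FractionalIdeal
        (nonZeroDivisors (𝓞 K)) K) : ℝ) = Ideal.absNorm I := by
      rw [FractionalIdeal.coe_mk0, FractionalIdeal.coeIdeal_absNorm, Rat.cast_natCast]
    rw [h1, Rat.cast_abs] at h_nm
    calc |((Algebra.norm ℚ (a : K) : ℚ) : ℝ)| ≤ Ideal.absNorm I * B := by
          refine h_nm.trans (le_of_eq ?_)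
          rw [hB]
          ring
      _ ≤ max B 1 * Ideal.absNorm I := by
          rw [mul_comm]
          exact mul_le_mul_of_nonneg_right (le_max_left _ _) (Nat.cast_nonneg _)

theorem prod_mult (g : InfinitePlace K → ℝ) :
    ∏ w : InfinitePlace K, g w ^ w.mult = ∏ φ : K →ₐ[ℚ] ℂ, g (InfinitePlace.mk (φ : K →+* ℂ)) := by
  classical
  have h1 : ∏ w : InfinitePlace K, g w ^ w.mult = ∏ φ : K →+* ℂ, g (InfinitePlace.mk φ) := by
    rw [← Finset.prod_fiberwise Finset.univ (fun φ : K →+* ℂ => InfinitePlace.mk φ)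
      (fun φ => g (InfinitePlace.mk φ))]
    refine Finset.prod_congr rfl fun w _ => ?_
    have : ∀ φ ∈ Finset.univ.filter (fun φ : K →+* ℂ => InfinitePlace.mk φ = w),
        g (InfinitePlace.mk φ) = g w := by
      intro φ hφ
      rw [(Finset.mem_filter.mp hφ).2]
    rw [Finset.prod_congr rfl this, Finset.prod_const, InfinitePlace.card_filter_mk_eq]
  rw [h1]
  exact Fintype.prod_equiv (RingHom.equivRatAlgHom K ℂ) _ _ fun φ => rfl

/-- the height of a point with integral coordinates -/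
theorem height_eq {ι : Type} [Finite ι] [Nonempty ι] (x : ι → 𝓞 K) (hx : x ≠ 0) :
    mulHeight (fun i => (x i : K)) * Ideal.absNorm (Ideal.span (Set.range x)) =
      ∏ σ : K →ₐ[ℚ] ℂ, ⨆ i, ‖σ (x i : K)‖ := by
  have hxK : (fun i => (x i : K)) ≠ 0 := by
    intro h
    apply hx
    funext i
    have := congrFun h i
    simpa using this
  have h1 := absNorm_mul_finprod_finitePlace_eq_one hx
  rw [NumberField.mulHeight_eq hxK, prod_mult (fun v => ⨆ i, v (x i : K))]
  have h2 : ∀ σ : K →ₐ[ℚ] ℂ, ⨆ i, (InfinitePlace.mk (σ : K →+* ℂ)) (x i : K) =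
      ⨆ i, ‖σ (x i : K)‖ := fun σ => rfl
  simp only [h2]
  calc _ = (∏ σ : K →ₐ[ℚ] ℂ, ⨆ i, ‖σ (x i : K)‖) * ((Ideal.span (Set.range x)).absNorm *
        ∏ᶠ v : FinitePlace K, ⨆ i, v (x i)) := by ring
    _ = _ := by rw [h1, mul_one]

theorem height_le {ι : Type} [Finite ι] [Nonempty ι] (x : ι → 𝓞 K) (hx : x ≠ 0) {B : ℝ}
    (h : ∀ η : (K →ₐ[ℚ] ℂ) → ι, ∏ σ : K →ₐ[ℚ] ℂ, ‖σ (x (η σ) : K)‖ ≤
      B * Ideal.absNorm (Ideal.span (Set.range x))) : mulHeight (fun i => (x i : K)) ≤ B := by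
  have h1 : ∀ σ : K →ₐ[ℚ] ℂ, ∃ i, ⨆ i, ‖σ (x i : K)‖ = ‖σ (x i : K)‖ := by
    intro σ
    obtain ⟨i, hi⟩ := exists_eq_ciSup_of_finite (f := fun i => ‖σ (x i : K)‖)
    exact ⟨i, hi.symm⟩
  choose η hη using h1
  have h2 := height_eq x hx
  simp only [hη] at h2
  have h3 : Ideal.span (Set.range x) ≠ ⊥ := by
    intro h0
    apply hx
    funext i
    have h4 : x i ∈ Ideal.span (Set.range x) := Ideal.subset_span ⟨i, rfl⟩
    rw [h0] at h4
    exact h4
  have h4 : (0 : ℝ) < Ideal.absNorm (Ideal.span (Set.range x)) := by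
    exact_mod_cast Nat.pos_of_ne_zero (fun h0 => h3 (Ideal.absNorm_eq_zero_iff.1 h0))
  have h5 := h η
  rw [← h2] at h5
  exact le_of_mul_le_mul_right h5 h4

/-- squarefree ideals -/
theorem sqf_norm {I : Ideal (𝓞 K)} (hI : Squarefree I) (F : Finset (HeightOneSpectrum (𝓞 K)))
    (hF : ∀ v : HeightOneSpectrum (𝓞 K), v.asIdeal ∣ I → v ∈ F) :
    Ideal.absNorm I ≤ ∏ v ∈ F, Ideal.absNorm v.asIdeal := by
  classical
  have hI0 : I ≠ 0 := hI.ne_zero
  set y : Ideal (𝓞 K) := ∏ v ∈ F, v.asIdeal with hy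
  have hy0 : y ≠ 0 := Finset.prod_ne_zero_iff.2 fun v _ => v.ne_bot
  have h1 : ∀ p ∈ UniqueFactorizationMonoid.normalizedFactors I, p ∣ y := by
    intro p hp
    have h2 := UniqueFactorizationMonoid.prime_of_normalized_factor p hp
    have h3 := UniqueFactorizationMonoid.dvd_of_mem_normalizedFactors hp
    let v : HeightOneSpectrum (𝓞 K) := ⟨p, Ideal.isPrime_of_prime h2, h2.ne_zero⟩
    exact Finset.dvd_prod_of_mem (fun v : HeightOneSpectrum (𝓞 K) => v.asIdeal) (hF v h3)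
  have h2 : ∀ ms : Multiset (Ideal (𝓞 K)), (∀ p ∈ ms, p ∣ y) → ms.prod ∣ y ^ ms.card := by
    intro ms
    induction ms using Multiset.induction_on with
    | empty => intro _; simp
    | cons p ms ih =>
      intro h
      rw [Multiset.prod_cons, Multiset.card_cons, pow_succ, mul_comm p]
      exact mul_dvd_mul (ih fun q hq => h q (Multiset.mem_cons_of_mem hq))
        (h p (Multiset.mem_cons_self p ms))
  have h3 : I ∣ y ^ (UniqueFactorizationMonoid.normalizedFactors I).card := by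
    have h4 := h2 _ h1
    rwa [Ideal.prod_normalizedFactors_eq_self hI0] at h4
  have h4 : I ∣ y := hI.isRadical _ _ h3
  have h5 : Ideal.absNorm I ∣ Ideal.absNorm y := map_dvd Ideal.absNorm h4
  have h6 : Ideal.absNorm y = ∏ v ∈ F, Ideal.absNorm v.asIdeal := by
    rw [hy, map_prod]
  rw [← h6]
  exact Nat.le_of_dvd (Nat.pos_of_ne_zero fun h0 => hy0 (Ideal.absNorm_eq_zero_iff.1 h0)) h5

theorem finite_dvd {x : 𝓞 K} (hx : x ≠ 0) :
    {v : HeightOneSpectrum (𝓞 K) | x ∈ v.asIdeal}.Finite := by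
  have h1 : {v : HeightOneSpectrum (𝓞 K) | v.asIdeal ∣ Ideal.span {x}}.Finite :=
    Ideal.finite_factors (by
      intro h
      exact hx (Ideal.span_singleton_eq_bot.1 h))
  refine h1.subset fun v hv => ?_
  exact Ideal.dvd_iff_le.2 ((Ideal.span_singleton_le_iff_mem _).2 hv)

theorem norm_span (x : 𝓞 K) : |((Algebra.norm ℚ (x : K) : ℚ) : ℝ)| = Ideal.absNorm (Ideal.span {x}) := by
  rw [Ideal.absNorm_span_singleton, Nat.cast_natAbs]
  have h1 : (Algebra.norm ℚ (x : K) : ℚ) = ((Algebra.norm ℤ x : ℤ) : ℚ) :=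
    (Algebra.coe_norm_int x).symm
  rw [h1]
  push_cast
  rfl

end Pool.Agent.Q183.AR
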