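import Pool.Agent.Q183.AR.DichU
import Pool.Agent.Q103.SDV.JCount

/-!
Invariants of elliptic curves given by products of powers of linear recurrences: the primes of bad
reduction.
-/

set_option autoImplicit false

namespace Pool.Agent.Q183.AR

open NumberField Height IsDedekindDomain
open Pool.Agent.W223.CV (cc)
open Pool.Agent.Q103.SDV (Bad IsJ scount scount_eq AddP rad_le_J log_mob_le log_rat bad_finite)

variable {K : Type} [Field K] [NumberField K] {J : Type} [Fintype J]

/-- a lower bound of the sum over the bad primes -/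
theorem cc_lower {P : Fin 3 → 𝓞 K} (hP : ∀ i, P i ≠ 0) (F : Finset (HeightOneSpectrum (𝓞 K)))
    (hF : ∀ v ∈ F, Bad P v) :
    ∑ v ∈ F, Real.log (Ideal.absNorm v.asIdeal) ≤ cc ∅ (Bad P) := by
  classical
  rw [← scount_eq]
  unfold scount
  have hfin := bad_finite P hP
  rw [finsum_eq_sum_of_support_subset (s := hfin.toFinset) _ (by
    intro v hv
    rw [Function.mem_support] at hv
    rw [Finset.mem_coe, Set.Finite.mem_toFinset]
    by_contra hcon
    exact hv (if_neg hcon))]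
  calc ∑ v ∈ F, Real.log (Ideal.absNorm v.asIdeal) =
        ∑ v ∈ F, (if Bad P v then Real.log (Ideal.absNorm v.asIdeal) else 0) :=
        Finset.sum_congr rfl fun v hv => (if_pos (hF v hv)).symm
    _ ≤ _ := Finset.sum_le_sum_of_subset_of_nonneg (fun v hv => hfin.mem_toFinset.2 (hF v hv))
      fun v _ _ => by split_ifs; exacts [Real.log_natCast_nonneg _, le_refl _]

/-- products of bases which are nearly squarefree -/
theorem near_rad (κ μ : Fin 3 → 𝓞 K) (hμ : ∀ i, μ i ≠ 0) (g : J → ℕ → 𝓞 K) (e : Fin 3 → J → ℕ) :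
    ∃ B : ℝ, 0 ≤ B ∧ ∀ s, (∀ i, term κ μ g e i s ≠ 0) → ∀ 𝔞 𝔟 : Ideal (𝓞 K),
      Ideal.span {∏ j ∈ unequal e, g j s} = 𝔞 * 𝔟 → Squarefree 𝔞 → IsCoprime 𝔞 𝔟 →
      Real.log (∏ j ∈ unequal e, |((Algebra.norm ℚ (g j s : K) : ℚ) : ℝ)|) ≤
        cc ∅ (Bad fun i => term κ μ g e i s) + Real.log (Ideal.absNorm 𝔟) + B := by
  classical
  by_cases hκ : ∀ i, κ i ≠ 0
  swap
  · push Not at hκ
    obtain ⟨i, hi⟩ := hκ
    refine ⟨0, le_refl 0, fun s hs => absurd ?_ (hs i)⟩
    unfold term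
    rw [hi, zero_mul, zero_mul]
  have hS : (∏ i, (κ i * μ i)) ≠ 0 := Finset.prod_ne_zero_iff.2 fun i _ => mul_ne_zero (hκ i) (hμ i)
  set S := (finite_dvd hS).toFinset with hSdef
  refine ⟨∑ v ∈ S, Real.log (Ideal.absNorm v.asIdeal),
    Finset.sum_nonneg fun v _ => Real.log_natCast_nonneg _,
    fun s hs 𝔞 𝔟 hab hsq hcop => ?_⟩
  set X : 𝓞 K := ∏ j ∈ unequal e, g j s with hX
  have hg0 : ∀ i j, e i j ≠ 0 → g j s ≠ 0 := by
    intro i j hij h0
    apply hs i
    unfold term
    rw [Finset.prod_eq_zero (Finset.mem_univ j) (by rw [h0, zero_pow hij]), mul_zero]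
  have hgD : ∀ j ∈ unequal e, g j s ≠ 0 := by
    intro j hj
    have h1 := (Finset.mem_filter.1 hj).2
    by_cases h2 : e 0 j = 0
    · by_cases h3 : e 1 j = 0
      · by_cases h4 : e 2 j = 0
        · exact absurd ⟨h2.trans h3.symm, h3.trans h4.symm⟩ h1
        · exact hg0 2 j h4
      · exact hg0 1 j h3
    · exact hg0 0 j h2
  have hX0 : X ≠ 0 := Finset.prod_ne_zero_iff.2 hgD
  have hspan : Ideal.span {X} ≠ ⊥ := fun h => hX0 (Ideal.span_singleton_eq_bot.1 h)
  have ha0 : 𝔞 ≠ ⊥ := by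
    rintro rfl
    apply hspan
    rw [hab, Ideal.bot_mul]
  have hb0 : 𝔟 ≠ ⊥ := by
    rintro rfl
    apply hspan
    rw [hab, Ideal.mul_bot]
  have hFfin : {v : HeightOneSpectrum (𝓞 K) | v.asIdeal ∣ 𝔞}.Finite := Ideal.finite_factors ha0
  set F := hFfin.toFinset with hF
  have hnorm : ∏ j ∈ unequal e, |((Algebra.norm ℚ (g j s : K) : ℚ) : ℝ)| =
      Ideal.absNorm 𝔞 * Ideal.absNorm 𝔟 := by
    rw [← Nat.cast_mul, ← map_mul, ← hab, ← norm_span, hX, ← Finset.abs_prod]
    congr 1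
    have h1 : ((∏ j ∈ unequal e, g j s : 𝓞 K) : K) = ∏ j ∈ unequal e, (g j s : K) := by
      push_cast
      rfl
    rw [h1, map_prod]
    push_cast
    rfl
  have h1 := sqf_norm hsq F (fun v hv => hFfin.mem_toFinset.2 hv)
  have hpos : ∀ v : HeightOneSpectrum (𝓞 K), (0 : ℝ) < Ideal.absNorm v.asIdeal := by
    intro v
    exact_mod_cast Nat.pos_of_ne_zero fun h0 => v.ne_bot (Ideal.absNorm_eq_zero_iff.1 h0)
  have ha1 : (0 : ℝ) < Ideal.absNorm 𝔞 := by
    exact_mod_cast Nat.pos_of_ne_zero fun h0 => ha0 (Ideal.absNorm_eq_zero_iff.1 h0)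
  have hb1 : (0 : ℝ) < Ideal.absNorm 𝔟 := by
    exact_mod_cast Nat.pos_of_ne_zero fun h0 => hb0 (Ideal.absNorm_eq_zero_iff.1 h0)
  have h2 : Real.log (Ideal.absNorm 𝔞) ≤ ∑ v ∈ F, Real.log (Ideal.absNorm v.asIdeal) := by
    rw [← Real.log_prod fun v _ => (hpos v).ne']
    exact Real.log_le_log ha1 (by exact_mod_cast h1)
  have h3 : ∑ v ∈ F, Real.log (Ideal.absNorm v.asIdeal) ≤
      ∑ v ∈ F \ S, Real.log (Ideal.absNorm v.asIdeal) +
        ∑ v ∈ S, Real.log (Ideal.absNorm v.asIdeal) := by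
    rw [← Finset.sum_union Finset.sdiff_disjoint]
    refine Finset.sum_le_sum_of_subset_of_nonneg (fun v hv => ?_) fun v _ _ => Real.log_natCast_nonneg _
    by_cases h4 : v ∈ S
    · exact Finset.mem_union_right _ h4
    · exact Finset.mem_union_left _ (Finset.mem_sdiff.2 ⟨hv, h4⟩)
  have h4 := cc_lower hs (F \ S) (by
    intro v hv
    obtain ⟨hvF, hvS⟩ := Finset.mem_sdiff.1 hv
    have hva : v.asIdeal ∣ 𝔞 := hFfin.mem_toFinset.1 hvF
    have hvX : X ∈ v.asIdeal := by
      rw [← Ideal.span_singleton_le_iff_mem, ← Ideal.dvd_iff_le, hab]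
      exact hva.mul_right 𝔟
    have hvS' : ∏ i, (κ i * μ i) ∉ v.asIdeal := fun h => hvS ((finite_dvd hS).mem_toFinset.2 h)
    have hval1 : ∀ y : 𝓞 K, y ∉ v.asIdeal → v.valuation K (y : K) = 1 := by
      intro y hy
      have h2 : ¬ v.valuation K (y : K) < 1 := by
        rw [HeightOneSpectrum.valuation_lt_one_iff_mem]
        exact hy
      exact le_antisymm (HeightOneSpectrum.valuation_le_one v y) (not_lt.1 h2)
    have hκμ : ∀ i, κ i ∉ v.asIdeal ∧ μ i ∉ v.asIdeal := by
      intro i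
      have h5 : κ i * μ i ∉ v.asIdeal := fun h => hvS' (by
        rw [← Finset.mul_prod_erase _ _ (Finset.mem_univ i)]
        exact Ideal.mul_mem_right _ _ h)
      exact ⟨fun h => h5 (Ideal.mul_mem_right _ _ h), fun h => h5 (Ideal.mul_mem_left _ _ h)⟩
    have hvb : ¬ v.asIdeal ∣ 𝔟 := by
      intro h
      have h5 := hcop.isUnit_of_dvd' hva h
      exact v.isPrime.ne_top (Ideal.isUnit_iff.1 h5)
    have hvp : Prime v.asIdeal := v.prime
    obtain ⟨j0, hj0, hj0v⟩ := (v.isPrime.prod_mem_iff).1 hvX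
    have hother : ∀ j ∈ unequal e, j ≠ j0 → g j s ∉ v.asIdeal := by
      intro j hj hne hjv
      have h5 : v.asIdeal ^ 2 ∣ 𝔞 * 𝔟 := by
        rw [← hab, Ideal.dvd_iff_le, Ideal.span_singleton_le_iff_mem, hX,
          ← Finset.mul_prod_erase _ _ hj0, ← Finset.mul_prod_erase _ _
            (Finset.mem_erase.2 ⟨hne, hj⟩), ← mul_assoc, pow_two]
        exact Ideal.mul_mem_right _ _ (Ideal.mul_mem_mul hj0v hjv)
      have h6 : v.asIdeal ^ 2 ∣ 𝔞 := by
        have h7 : IsCoprime (v.asIdeal ^ 2) 𝔟 := by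
          refine IsCoprime.pow_left ?_
          rw [Ideal.isCoprime_iff_sup_eq]
          by_contra hcon
          have h8 := (v.isMaximal.eq_of_le hcon le_sup_left)
          exact hvb (Ideal.dvd_iff_le.2 (h8 ▸ le_sup_right))
        exact h7.dvd_of_dvd_mul_right h5
      have h7 : v.asIdeal * v.asIdeal ∣ 𝔞 := by
        rw [← pow_two]
        exact h6
      exact v.isPrime.ne_top (Ideal.isUnit_iff.1 (hsq _ h7))
    set w := ∏ j ∈ Finset.univ \ unequal e, v.valuation K (g j s : K) ^ e 0 j with hw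
    have hvt : ∀ i, v.valuation K (term κ μ g e i s : K) =
        v.valuation K (g j0 s : K) ^ e i j0 * w := by
      intro i
      unfold term
      push_cast
      rw [map_mul, map_mul, map_pow, hval1 _ (hκμ i).1, hval1 _ (hκμ i).2, one_pow, one_mul, one_mul,
        map_prod]
      simp only [map_pow]
      rw [← Finset.prod_sdiff (Finset.subset_univ (unequal e)), mul_comm]
      congr 1
      · rw [← Finset.mul_prod_erase _ _ hj0, Finset.prod_eq_one, mul_one]
        intro j hj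
        rw [hval1 _ (hother j (Finset.mem_of_mem_erase hj) (Finset.ne_of_mem_erase hj)), one_pow]
      · rw [hw]
        refine Finset.prod_congr rfl fun j hj => ?_
        have h5 : e 0 j = e 1 j ∧ e 1 j = e 2 j := by
          by_contra h6
          exact (Finset.mem_sdiff.1 hj).2 (Finset.mem_filter.2 ⟨Finset.mem_univ _, h6⟩)
        congr 1
        fin_cases i
        · rfl
        · exact h5.1.symm
        · exact (h5.1.trans h5.2).symm
    have ha0 : v.valuation K (g j0 s : K) ≠ 0 := by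
      rw [(v.valuation K).ne_zero_iff]
      exact RingOfIntegers.coe_ne_zero_iff.2 (hgD j0 hj0)
    have ha1 : v.valuation K (g j0 s : K) < 1 := by
      rw [HeightOneSpectrum.valuation_lt_one_iff_mem]
      exact hj0v
    have hw0 : w ≠ 0 := by
      intro h0
      have h5 := hvt 0
      rw [h0, mul_zero, (v.valuation K).zero_iff] at h5
      exact RingOfIntegers.coe_ne_zero_iff.2 (hs 0) h5
    have hinj := (pow_right_strictAnti₀ (zero_lt_iff.2 ha0) ha1).injective
    have h6 : ∀ i i', v.valuation K (term κ μ g e i s : K) = v.valuation K (term κ μ g e i' s : K) →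
        e i j0 = e i' j0 := by
      intro i i' h7
      rw [hvt, hvt] at h7
      exact hinj (mul_right_cancel₀ hw0 h7)
    by_contra hcon
    have h7 : ∀ i i', v.valuation K (term κ μ g e i s : K) =
        v.valuation K (term κ μ g e i' s : K) := by
      intro i i'
      by_contra h8
      exact hcon ⟨i, i', h8⟩
    exact (Finset.mem_filter.1 hj0).2 ⟨h6 0 1 (h7 0 1), h6 1 2 (h7 1 2)⟩)
  rw [hnorm, Real.log_mul ha1.ne' hb1.ne']
  linarith

end Pool.Agent.Q183.AR
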