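import Pool.Agent.Q183.AR.IntD

/-!
Semistable elliptic curves whose invariants are products of powers of linear recurrences.
-/

set_option autoImplicit false

namespace Pool.Agent.Q183.AR

/-- from all residue classes to all numbers -/
theorem AA.ofCls {P : ℝ → ℕ → Prop} {M : ℕ} (hM : 0 < M)
    (h : ∀ ρ : ℕ, AA fun C s => s ≡ ρ [MOD M] → P C s) (hP : MonoC P) : AA P := by
  refine (AA.all (fun ρ : Fin M => h ρ) (fun ρ C C' s hCC h1 h2 => hP C C' s hCC (h1 h2))).imp
    (fun C => C) 0 (fun C hC => hC) fun C s hC _ h1 => ?_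
  exact h1 ⟨s % M, Nat.mod_lt _ hM⟩ (Nat.mod_modEq s M).symm

/-- a property which holds for all large arguments holds for almost all arguments -/
theorem AA.ofLarge {P : ℝ → ℕ → Prop} (C0 : ℝ) (z0 : ℕ) (hP : MonoC P)
    (h : ∀ s, z0 ≤ s → P C0 s) : AA P :=
  AA.true.imp (fun C => C + |C0|) z0 (fun C hC => by positivity) fun C s hC hs _ =>
    hP C0 _ s (by linarith [le_abs_self C0]) (h s hs)

theorem prod_supp_le {J : Type} [Fintype J] (p : J → Prop) [DecidablePred p] {g : J → ℤ} {e : J → ℕ}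
    (hpe : ∀ j, p j → e j ≠ 0) {k μ : ℤ} {t : ℕ} (h : k * μ ^ t * ∏ j, g j ^ e j ≠ 0) :
    ∏ j ∈ Finset.univ.filter p, |(g j : ℝ)| ≤ |((k * μ ^ t * ∏ j, g j ^ e j : ℤ) : ℝ)| := by
  classical
  have hk : k * μ ^ t ≠ 0 := left_ne_zero_of_mul h
  have hg : ∀ j, g j ^ e j ≠ 0 := fun j =>
    (Finset.prod_ne_zero_iff.1 (right_ne_zero_of_mul h)) j (Finset.mem_univ j)
  have h1 : ∀ n : ℤ, n ≠ 0 → (1 : ℝ) ≤ |(n : ℝ)| := fun n hn => by
    exact_mod_cast Int.one_le_abs hn
  rw [Int.cast_mul, abs_mul, Int.cast_prod, Finset.abs_prod, Finset.prod_filter]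
  calc ∏ j, (if p j then |(g j : ℝ)| else 1) ≤ ∏ j, |((g j ^ e j : ℤ) : ℝ)| := by
        refine Finset.prod_le_prod (fun j _ => by split_ifs <;> positivity) fun j _ => ?_
        split_ifs with hj
        · rw [Int.cast_pow, abs_pow]
          have hg0 : g j ≠ 0 := fun h0 => hg j (by rw [h0, zero_pow (hpe j hj)])
          exact le_self_pow₀ (h1 _ hg0) (hpe j hj)
        · exact h1 _ (hg j)
    _ ≤ |((k * μ ^ t : ℤ) : ℝ)| * ∏ j, |((g j ^ e j : ℤ) : ℝ)| :=
        le_mul_of_one_le_left (Finset.prod_nonneg fun _ _ => abs_nonneg _) (h1 _ hk)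

variable {J : Type} [Fintype J]

/-- **`x ^ 3 - y ^ 2 = 1728 d`** with `x, y, d` products of powers of recurrences, `x, d` coprime. -/
theorem szp (g : J → ℕ → ℤ) (hg : ∀ j, ∃ E : LinearRecurrence ℤ, E.IsSolution (g j))
    (κ μ : Fin 3 → ℤ) (hμ : ∀ i, μ i ≠ 0) (a b d : J → ℕ) (x y D : ℕ → ℤ)
    (hx : ∀ t, x t = κ 0 * μ 0 ^ t * ∏ j, g j t ^ a j)
    (hy : ∀ t, y t = κ 1 * μ 1 ^ t * ∏ j, g j t ^ b j)
    (hD : ∀ t, D t = κ 2 * μ 2 ^ t * ∏ j, g j t ^ d j)
    (h : ∀ t, 1728 * D t = x t ^ 3 - y t ^ 2) :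
    AA fun C s => D s ≠ 0 → IsCoprime (x s) (D s) →
      max (|(x s : ℝ)| ^ 3) (|(y s : ℝ)| ^ 2) ≤
        C * (∏ j ∈ Finset.univ.filter (fun j => d j ≠ 0), |(g j s : ℝ)|) ^ 6 := by
  classical
  have hmono : MonoC fun C s => D s ≠ 0 → IsCoprime (x s) (D s) →
      max (|(x s : ℝ)| ^ 3) (|(y s : ℝ)| ^ 2) ≤
        C * (∏ j ∈ Finset.univ.filter (fun j => d j ≠ 0), |(g j s : ℝ)|) ^ 6 := by
    intro C C' s hCC h1 h2 h3
    refine (h1 h2 h3).trans (mul_le_mul_of_nonneg_right hCC (pow_nonneg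
      (Finset.prod_nonneg fun _ _ => abs_nonneg _) _))
  let κ' : Fin 3 → ℤ := ![κ 0 ^ 3, -κ 1 ^ 2, -(1728 * κ 2)]
  let μ' : Fin 3 → ℤ := ![μ 0 ^ 3, μ 1 ^ 2, μ 2]
  let e : Fin 3 → J → ℕ := ![fun j => a j * 3, fun j => b j * 2, d]
  let xx : J → ℕ := fun j => if a j = 0 ∧ b j = 0 ∧ d j = 0 then 0 else 1
  have hA0 : ∀ t, κ' 0 * μ' 0 ^ t * ∏ j, g j t ^ e 0 j = x t ^ 3 := by
    intro t
    simp only [κ', μ', e, Matrix.cons_val_zero, hx, mul_pow, ← Finset.prod_pow, ← pow_mul]
    rw [mul_comm 3 t]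
  have hA1 : ∀ t, κ' 1 * μ' 1 ^ t * ∏ j, g j t ^ e 1 j = -y t ^ 2 := by
    intro t
    simp only [κ', μ', e, Matrix.cons_val_one, Matrix.cons_val_zero, hy, mul_pow,
      ← Finset.prod_pow, ← pow_mul]
    rw [mul_comm 2 t]
    ring
  have hA2 : ∀ t, κ' 2 * μ' 2 ^ t * ∏ j, g j t ^ e 2 j = -(1728 * D t) := by
    intro t
    simp only [κ', μ', e, Matrix.cons_val, hD]
    ring
  obtain ⟨M, hM, hmain⟩ := intabc (N := 2) (by norm_num) g hg κ' μ' (by
      intro i
      fin_cases i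
      · exact pow_ne_zero _ (hμ 0)
      · exact pow_ne_zero _ (hμ 1)
      · exact hμ 2) e (fun _ => 0) xx (fun _ _ => Nat.zero_le _) Set.univ (by
      intro i0 _ j σ
      rw [Fin.sum_univ_two]
      simp only [Fin.val_zero, Fin.val_one, Nat.min_zero, zero_add, xx, Nat.sub_zero]
      split_ifs with hj
      · have h1 : ∀ i, e i j = 0 := by
          intro i
          fin_cases i
          · simp [e, hj.1]
          · simp [e, hj.2.1]
          · simp [e, hj.2.2]
        rw [h1, Nat.zero_min]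
      · exact min_le_right _ _) (by
      intro j hj
      by_contra hcon
      push Not at hcon
      apply hj
      have h0 := hcon 0
      have h1 := hcon 1
      have h2 := hcon 2
      simp only [e, Matrix.cons_val_zero, Matrix.cons_val_one, Matrix.cons_val] at h0 h1 h2
      simp only [xx]
      rw [if_pos ⟨by omega, by omega, h2⟩]) (by
      intro t
      rw [Fin.sum_univ_three, hA0, hA1, hA2, h t]
      ring)
  refine AA.ofCls hM (fun ρ => ?_) hmono
  have hQ1 : ∀ s, D s ≠ 0 → 1 ≤ (∏ j ∈ Finset.univ.filter (fun j => d j ≠ 0), |(g j s : ℝ)|) := by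
    intro s hDs
    rw [← Finset.prod_const_one (s := Finset.univ.filter (fun j => d j ≠ 0)) (M := ℝ)]
    refine Finset.prod_le_prod (fun _ _ => zero_le_one) fun j hj => ?_
    have h1 := (Finset.mem_filter.1 hj).2
    have h2 : g j s ≠ 0 := by
      intro h0
      apply hDs
      rw [hD, Finset.prod_eq_zero (Finset.mem_univ j) (by rw [h0, zero_pow h1]), mul_zero]
    exact_mod_cast Int.one_le_abs h2
  rcases hmain ρ with ⟨c, z, hc0, hc1, hc2⟩ | h1
  · -- constant `j`-invariant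
    refine AA.ofLarge (1728 * |(c 1 : ℝ)| + 1728 * |(c 1 : ℝ)| + 1728 * |((c 1 - c 0 : ℤ) : ℝ)|) z
      (fun C C' s hCC h1 h2 => hmono C C' s hCC (h1 h2)) fun s hs hsρ hDs hcop => ?_
    have h2 := hc2 s hs hsρ
    rw [Fin.sum_univ_three, hA0, hA1, hA2] at h2
    have h3 : c 2 = 0 := hc0
    rw [h3, zero_mul, add_zero] at h2
    have h4 := h s
    have h5 : (c 1 - c 0) * x s ^ 3 = 1728 * c 1 * D s := by
      linear_combination -h2 - c 1 * h4
    have hc01 : c 0 ≠ 0 ∨ c 1 ≠ 0 := by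
      by_contra hcon
      push Not at hcon
      apply hc1
      funext i
      fin_cases i
      · exact hcon.1
      · exact hcon.2
      · exact h3
    have hc1' : c 1 ≠ 0 := by
      intro h0
      rw [h0, mul_zero, zero_mul, zero_sub, neg_mul, neg_eq_zero] at h5
      have hc0' : c 0 ≠ 0 := by
        rcases hc01 with h6 | h6
        · exact h6
        · exact absurd h0 h6
      have hxs : x s = 0 := by
        have := (mul_eq_zero.1 h5).resolve_left hc0'
        exact pow_eq_zero_iff (by norm_num) |>.1 this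
      rw [hxs] at hcop h4
      have hu : IsUnit (D s) := isCoprime_zero_left.1 hcop
      rcases Int.isUnit_iff.1 hu with hu | hu
      · rw [hu] at h4
        nlinarith [sq_nonneg (y s)]
      · rw [hu] at h4
        have h7 : y s ^ 2 = 1728 := by linarith
        have h8 : (y s).natAbs ^ 2 = 1728 := by
          zify
          rw [sq_abs]
          exact h7
        have h9 : (y s).natAbs < 42 := by nlinarith
        have h10 := Nat.pow_le_pow_left (Nat.lt_succ_iff.1 h9) 2
        omega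
    have hx3 : |(x s : ℝ)| ^ 3 ≤ 1728 * |(c 1 : ℝ)| := by
      have h6 : x s ^ 3 ∣ 1728 * c 1 := by
        have h7 : x s ^ 3 ∣ D s * (1728 * c 1) := ⟨c 1 - c 0, by rw [mul_comm (x s ^ 3)]; linarith⟩
        exact (IsCoprime.pow_left hcop).dvd_of_dvd_mul_left h7
      have h7 : |x s ^ 3| ≤ |1728 * c 1| := by
        rw [Int.abs_eq_natAbs, Int.abs_eq_natAbs]
        exact_mod_cast Nat.le_of_dvd (Int.natAbs_pos.2 (mul_ne_zero (by norm_num) hc1'))
          (Int.natAbs_dvd_natAbs.2 h6)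
      have h8 : |((x s ^ 3 : ℤ) : ℝ)| ≤ |((1728 * c 1 : ℤ) : ℝ)| := by exact_mod_cast h7
      rw [Int.cast_pow, abs_pow, Int.cast_mul, abs_mul] at h8
      simpa using h8
    have hy2 : |(y s : ℝ)| ^ 2 ≤ 1728 * |(c 1 : ℝ)| + 1728 * |((c 1 - c 0 : ℤ) : ℝ)| := by
      have h6 : (1 : ℝ) ≤ |(c 1 : ℝ)| := by exact_mod_cast Int.one_le_abs hc1'
      have h7 : ((c 1 - c 0 : ℤ) : ℝ) * (x s : ℝ) ^ 3 = 1728 * (c 1 : ℝ) * (D s : ℝ) := by
        exact_mod_cast h5
      have h8 : |((c 1 - c 0 : ℤ) : ℝ)| * |(x s : ℝ)| ^ 3 = 1728 * |(c 1 : ℝ)| * |(D s : ℝ)| := by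
        rw [← abs_pow, ← abs_mul, h7, abs_mul, abs_mul]
        norm_num
      have h9 : |(D s : ℝ)| ≤ |((c 1 - c 0 : ℤ) : ℝ)| := by
        have h10 : 1728 * |(c 1 : ℝ)| * |(D s : ℝ)| ≤
            1728 * |(c 1 : ℝ)| * |((c 1 - c 0 : ℤ) : ℝ)| := by
          rw [← h8, mul_comm]
          exact mul_le_mul_of_nonneg_right hx3 (abs_nonneg _)
        exact le_of_mul_le_mul_left h10 (by positivity)
      have h10 : (y s : ℝ) ^ 2 = (x s : ℝ) ^ 3 - 1728 * D s := by
        have : (1728 : ℝ) * (D s : ℝ) = (x s : ℝ) ^ 3 - (y s : ℝ) ^ 2 := by exact_mod_cast h4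
        linarith
      rw [sq_abs, h10]
      have h11 := le_abs_self ((x s : ℝ) ^ 3)
      rw [abs_pow] at h11
      have h12 := neg_abs_le (D s : ℝ)
      linarith
    have h6 := one_le_pow₀ (hQ1 s hDs) (n := 6)
    have h7 : 0 ≤ |(c 1 : ℝ)| := abs_nonneg _
    have h8 : 0 ≤ |((c 1 - c 0 : ℤ) : ℝ)| := abs_nonneg _
    calc max (|(x s : ℝ)| ^ 3) (|(y s : ℝ)| ^ 2) ≤
        1728 * |(c 1 : ℝ)| + 1728 * |(c 1 : ℝ)| + 1728 * |((c 1 - c 0 : ℤ) : ℝ)| :=
          max_le (by linarith) (by linarith)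
      _ ≤ _ := le_mul_of_one_le_right (by positivity) h6
  · refine h1.imp (fun C => (C * 1728) ^ 6) 0 (fun C hC => by positivity)
      fun C s hC _ h2 hs hDs hcop => ?_
    obtain ⟨h3, h4⟩ := h2 hs
    rw [Fin.forall_fin_succ] at h3
    have hxs3 : x s ^ 3 ≠ 0 := by
      rw [← hA0]
      exact h3.1
    have hys2 : -y s ^ 2 ≠ 0 := by
      rw [← hA1]
      exact h3.2 0
    have hxs : x s ≠ 0 := fun h0 => hxs3 (by rw [h0]; norm_num)
    have hys : y s ≠ 0 := fun h0 => hys2 (by rw [h0]; norm_num)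
    obtain ⟨p, q, hpq⟩ := (IsCoprime.pow_left (m := 3) hcop)
    let v : Fin 3 → ℤ := ![1728 * p, 0, -q]
    have hv : ∑ i, v i * (κ' i * μ' i ^ s * ∏ j, g j s ^ e i j) = 1728 := by
      rw [Fin.sum_univ_three, hA0, hA1, hA2]
      simp only [v, Matrix.cons_val_zero, Matrix.cons_val_one, Matrix.cons_val]
      linear_combination 1728 * hpq
    have h5 := h4 v (fun i hi => absurd (Set.mem_univ i) hi) (by rw [hv]; norm_num)
    rw [hv] at h5
    have h60 := h5 0
    have h61 := h5 1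
    rw [hA0] at h60
    rw [hA1] at h61
    set Q := ∏ j ∈ Finset.univ.filter (fun j => d j ≠ 0), |(g j s : ℝ)| with hQ
    have hQ0 := hQ1 s hDs
    set X := max (|(x s : ℝ)| ^ 3) (|(y s : ℝ)| ^ 2) with hX
    have hxX : |(x s : ℝ)| ^ 3 ≤ X := le_max_left _ _
    have hyX : |(y s : ℝ)| ^ 2 ≤ X := le_max_right _ _
    have hx1 : (1 : ℝ) ≤ |(x s : ℝ)| := by exact_mod_cast Int.one_le_abs hxs
    have hX1 : 1 ≤ X := (one_le_pow₀ hx1).trans hxX
    have hprod : ∏ j, |(g j s : ℝ)| ^ xx j ≤ |(x s : ℝ)| * |(y s : ℝ)| * Q := by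
      have h7 : ∏ j ∈ Finset.univ.filter (fun j => a j ≠ 0), |(g j s : ℝ)| ≤ |(x s : ℝ)| := by
        have := prod_supp_le (fun j => a j ≠ 0) (g := fun j => g j s) (fun j hj => hj)
          (k := κ 0) (μ := μ 0) (t := s) (by rw [← hx]; exact hxs)
        rwa [← hx] at this
      have h8 : ∏ j ∈ Finset.univ.filter (fun j => b j ≠ 0), |(g j s : ℝ)| ≤ |(y s : ℝ)| := by
        have := prod_supp_le (fun j => b j ≠ 0) (g := fun j => g j s) (fun j hj => hj)
          (k := κ 1) (μ := μ 1) (t := s) (by rw [← hy]; exact hys)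
        rwa [← hy] at this
      refine le_trans ?_ (mul_le_mul_of_nonneg_right (mul_le_mul h7 h8
        (Finset.prod_nonneg fun _ _ => abs_nonneg _) (abs_nonneg _)) (by linarith : (0 : ℝ) ≤ Q))
      rw [hQ, Finset.prod_filter, Finset.prod_filter, Finset.prod_filter, ← Finset.prod_mul_distrib,
        ← Finset.prod_mul_distrib]
      refine Finset.prod_le_prod (fun j _ => by positivity) fun j _ => ?_
      have hg1 : (a j ≠ 0 ∨ b j ≠ 0 ∨ d j ≠ 0) → (1 : ℝ) ≤ |(g j s : ℝ)| := by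
        intro hj
        have h9 : g j s ≠ 0 := by
          intro h0
          rcases hj with hj | hj | hj
          · apply hxs
            rw [hx, Finset.prod_eq_zero (Finset.mem_univ j) (by rw [h0, zero_pow hj]), mul_zero]
          · apply hys
            rw [hy, Finset.prod_eq_zero (Finset.mem_univ j) (by rw [h0, zero_pow hj]), mul_zero]
          · apply hDs
            rw [hD, Finset.prod_eq_zero (Finset.mem_univ j) (by rw [h0, zero_pow hj]), mul_zero]
        exact_mod_cast Int.one_le_abs h9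
      simp only [xx]
      by_cases ha : a j = 0 <;> by_cases hb : b j = 0 <;> by_cases hd : d j = 0
      · simp [ha, hb, hd]
      · simp [ha, hb, hd]
      · simp [ha, hb, hd]
      · have := hg1 (Or.inr (Or.inr hd))
        simp only [ha, hb, hd, ne_eq, not_true_eq_false, not_false_eq_true, if_false, if_true,
          false_and, and_false, pow_one, one_mul, mul_one]
        nlinarith
      · simp [ha, hb, hd]
      · have := hg1 (Or.inl ha)
        simp only [ha, hb, hd, ne_eq, not_true_eq_false, not_false_eq_true, if_false, if_true,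
          false_and, and_false, pow_one, one_mul, mul_one]
        nlinarith
      · have := hg1 (Or.inl ha)
        simp only [ha, hb, hd, ne_eq, not_true_eq_false, not_false_eq_true, if_false, if_true,
          false_and, and_false, pow_one, one_mul, mul_one]
        nlinarith
      · have := hg1 (Or.inl ha)
        simp only [ha, hb, hd, ne_eq, not_false_eq_true, if_false, if_true,
          false_and, pow_one]
        nlinarith [mul_le_mul this this zero_le_one (by linarith : (0:ℝ) ≤ |(g j s : ℝ)|)]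
    have hXle : X ≤ C * 1728 * (|(x s : ℝ)| * |(y s : ℝ)| * Q) := by
      have h7 : C * |((1728 : ℤ) : ℝ)| * ∏ j, |(g j s : ℝ)| ^ xx j ≤
          C * 1728 * (|(x s : ℝ)| * |(y s : ℝ)| * Q) := by
        have : |((1728 : ℤ) : ℝ)| = 1728 := by norm_num
        rw [this]
        exact mul_le_mul_of_nonneg_left hprod (by positivity)
      refine max_le ?_ ?_
      · rw [Int.cast_pow, abs_pow] at h60
        exact h60.trans h7
      · rw [Int.cast_neg, abs_neg, Int.cast_pow, abs_pow] at h61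
        exact h61.trans h7
    have h7 : X ^ 5 * X ≤ X ^ 5 * ((C * 1728) ^ 6 * Q ^ 6) := by
      calc X ^ 5 * X = X ^ 6 := by ring
        _ ≤ (C * 1728 * (|(x s : ℝ)| * |(y s : ℝ)| * Q)) ^ 6 :=
            pow_le_pow_left₀ (by linarith) hXle 6
        _ = (C * 1728) ^ 6 * Q ^ 6 * ((|(x s : ℝ)| ^ 3) ^ 2 * (|(y s : ℝ)| ^ 2) ^ 3) := by ring
        _ ≤ (C * 1728) ^ 6 * Q ^ 6 * (X ^ 2 * X ^ 3) := by
            refine mul_le_mul_of_nonneg_left ?_ (by positivity)
            exact mul_le_mul (pow_le_pow_left₀ (by positivity) hxX 2)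
              (pow_le_pow_left₀ (by positivity) hyX 3) (by positivity) (by positivity)
        _ = _ := by ring
    exact le_of_mul_le_mul_left h7 (by positivity)

end Pool.Agent.Q183.AR
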