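import Mathlib

/-!
Number fields: Galois extensions, products over embeddings.
-/

set_option autoImplicit false

namespace Pool.Agent.Q183.AR

open Polynomial

theorem normal_ratClosure : Normal ℚ (AlgebraicClosure ℚ) := by
  have h : @Normal ℚ (AlgebraicClosure ℚ) _ _ (AlgebraicClosure.instAlgebra ℚ) :=
    @IsAlgClosure.normal ℚ (AlgebraicClosure ℚ) _ _ (AlgebraicClosure.instAlgebra ℚ) _
  convert h
  exact Subsingleton.elim _ _

theorem exists_gal (K : Type) [Field K] [NumberField K] (P : K[X]) :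
    ∃ (L : Type) (_ : Field L) (_ : NumberField L) (_ : IsGalois ℚ L) (_ : Algebra K L),
      (P.map (algebraMap K L)).Splits := by
  let L1 := P.SplittingField
  have : CharZero L1 := charZero_of_injective_algebraMap (algebraMap K L1).injective
  have : FiniteDimensional ℚ L1 := FiniteDimensional.trans ℚ K L1
  let Ω := AlgebraicClosure ℚ
  let f : L1 →ₐ[ℚ] Ω := IsAlgClosed.lift
  let S : IntermediateField ℚ Ω := f.fieldRange
  have : FiniteDimensional ℚ S := (AlgEquiv.ofInjectiveField f).toLinearEquiv.finiteDimensional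
  have : Normal ℚ Ω := normal_ratClosure
  let L : IntermediateField ℚ Ω := IntermediateField.normalClosure ℚ S Ω
  have h1 : FiniteDimensional ℚ L := normalClosure.is_finiteDimensional ℚ S Ω
  have h2 : Normal ℚ L := normalClosure.normal ℚ S Ω
  have h3 : IsGalois ℚ L := ⟨⟩
  have h4 : NumberField L := ⟨⟩
  let g : L1 →+* L := ((IntermediateField.inclusion (IntermediateField.le_normalClosure S)).toRingHom).comp
    (AlgEquiv.ofInjectiveField f).toRingEquiv.toRingHom
  let i : K →+* L := g.comp (algebraMap K L1)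
  refine ⟨L, inferInstance, h4, h3, i.toAlgebra, ?_⟩
  have h5 : (P.map (algebraMap K L1)).Splits := SplittingField.splits P
  have h6 : P.map i = (P.map (algebraMap K L1)).map g := by rw [Polynomial.map_map]
  change (P.map i).Splits
  rw [h6]
  exact h5.map g

theorem prod_gal {L : Type} [Field L] [NumberField L] [IsGalois ℚ L] (τ0 : L →ₐ[ℚ] ℂ)
    (F : (L →ₐ[ℚ] ℂ) → ℝ) : ∏ φ : L ≃ₐ[ℚ] L, F (τ0.comp (φ : L →ₐ[ℚ] L)) = ∏ τ, F τ := by
  have h1 : Function.Bijective fun φ : L ≃ₐ[ℚ] L => τ0.comp (φ : L →ₐ[ℚ] L) := by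
    rw [Fintype.bijective_iff_injective_and_card]
    constructor
    · intro φ ψ h
      ext x
      exact τ0.toRingHom.injective (DFunLike.congr_fun h x)
    · rw [AlgHom.card, ← IsGalois.card_aut_eq_finrank, Nat.card_eq_fintype_card]
  exact Function.Bijective.prod_comp h1 F

theorem prod_restrict {K L : Type} [Field K] [NumberField K] [Field L] [NumberField L] [Algebra K L]
    (F : (K →ₐ[ℚ] ℂ) → ℝ) :
    ∏ τ : L →ₐ[ℚ] ℂ, F (τ.domRestrict K) = (∏ σ, F σ) ^ Module.finrank K L := by
  classical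
  have : FiniteDimensional K L := FiniteDimensional.right ℚ K L
  rw [Fintype.prod_equiv algHomEquivSigma (fun τ : L →ₐ[ℚ] ℂ => F (τ.domRestrict K))
    fun τ => F τ.1, ← Finset.univ_sigma_univ, Finset.prod_sigma, ← Finset.prod_pow]
  · refine Finset.prod_congr rfl fun σ _ => ?_
    let : Algebra K ℂ := σ.toRingHom.toAlgebra
    simp_rw [Finset.prod_const]
    congr
    exact AlgHom.card K L ℂ
  · intro τ
    rfl

theorem norm_emb {K : Type} [Field K] [NumberField K] (x : K) :
    ∏ σ : K →ₐ[ℚ] ℂ, ‖σ x‖ = |((Algebra.norm ℚ x : ℚ) : ℝ)| := by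
  rw [← norm_prod, ← Algebra.norm_eq_prod_embeddings ℚ ℂ x]
  have h2 : algebraMap ℚ ℂ (Algebra.norm ℚ x) = (((Algebra.norm ℚ x : ℚ) : ℝ) : ℂ) := by
    rw [eq_ratCast]
    push_cast
    rfl
  rw [h2, Complex.norm_real, Real.norm_eq_abs]

end Pool.Agent.Q183.AR
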