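import Pool.Agent.Q183.AR.Der

/-!
Wronskians of products of powers.
-/

set_option autoImplicit false

namespace Pool.Agent.Q183.AR

open AddMonoidAlgebra

variable {E : Type} [Field E] {r : ℕ}

/-- all exponents have weight at most `l` -/
def Ble (w : Ex r →+ ℝ ×ₗ ℝ) (F : EP E r) (l : ℝ ×ₗ ℝ) : Prop := ∀ m ∈ F.coeff.support, w m ≤ l

theorem Ble.mul {w : Ex r →+ ℝ ×ₗ ℝ} {F G : EP E r} {l l' : ℝ ×ₗ ℝ} (hF : Ble w F l)
    (hG : Ble w G l') : Ble w (F * G) (l + l') := by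
  classical
  intro a ha
  obtain ⟨b, hb, c, hc, rfl⟩ := Finset.mem_add.1 (support_coeff_mul_subset F G ha)
  rw [map_add]
  exact add_le_add (hF b hb) (hG c hc)

theorem Ble.one (w : Ex r →+ ℝ ×ₗ ℝ) : Ble w (1 : EP E r) 0 := (Top.one w).2

theorem Ble.prod {w : Ex r →+ ℝ ×ₗ ℝ} {ι : Type} (s : Finset ι) {F : ι → EP E r}
    {l : ι → ℝ ×ₗ ℝ} (h : ∀ i ∈ s, Ble w (F i) (l i)) :
    Ble w (∏ i ∈ s, F i) (∑ i ∈ s, l i) := by
  classical
  induction s using Finset.induction_on with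
  | empty => exact Ble.one w
  | insert i s hi ih =>
    rw [Finset.prod_insert hi, Finset.sum_insert hi]
    exact (h i (Finset.mem_insert_self _ _)).mul
      (ih fun j hj => h j (Finset.mem_insert_of_mem hj))

theorem Ble.sum {w : Ex r →+ ℝ ×ₗ ℝ} {ι : Type} (s : Finset ι) {F : ι → EP E r}
    {l : ℝ ×ₗ ℝ} (h : ∀ i ∈ s, Ble w (F i) l) : Ble w (∑ i ∈ s, F i) l := by
  classical
  intro m hm
  rw [coeff_sum] at hm
  obtain ⟨i, hi, hm'⟩ := Finset.mem_biUnion.1 (Finsupp.support_finset_sum hm)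
  exact h i hi m hm'

theorem Ble.units_smul {w : Ex r →+ ℝ ×ₗ ℝ} {F : EP E r} {l : ℝ ×ₗ ℝ} (h : Ble w F l) (s : ℤˣ) :
    Ble w (s • F) l := by
  rcases Int.units_eq_one_or s with rfl | rfl
  · rwa [one_smul]
  · rw [Units.neg_smul, one_smul]
    intro m hm
    rw [coeff_neg, Finsupp.support_neg] at hm
    exact h m hm

variable {N : ℕ}

/-- the matrix of derivatives -/
noncomputable def Mt (ℓ : Ex r →+ ℤ) (A : Fin (N + 1) → EP E r) : Matrix (Fin (N + 1)) (Fin N) (EP E r) :=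
  Matrix.of fun i k => (D ℓ)^[(k : ℕ)] (A i)

/-- the Wronskian without the function `i0` -/
noncomputable def Wi (ℓ : Ex r →+ ℤ) (A : Fin (N + 1) → EP E r) (i0 : Fin (N + 1)) : EP E r :=
  ((Mt ℓ A).submatrix i0.succAbove id).det

theorem Wi_eq (ℓ : Ex r →+ ℤ) (A : Fin (N + 1) → EP E r) (i0 : Fin (N + 1)) : Wi ℓ A i0 =
    ∑ σ : Equiv.Perm (Fin N), Equiv.Perm.sign σ •
      ∏ k : Fin N, (D ℓ)^[(k : ℕ)] (A (i0.succAbove (σ k))) := by
  unfold Wi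
  rw [Matrix.det_apply]
  rfl

theorem Wi_sign (ℓ : Ex r →+ ℤ) {A : Fin (N + 1) → EP E r} (hA : ∑ i, A i = 0)
    (i0 i1 : Fin (N + 1)) : ∃ s : ℤˣ, Wi ℓ A i0 = s • Wi ℓ A i1 := by
  refine ⟨Int.negOnePow ((i0 : ℕ) - (i1 : ℕ)), ?_⟩
  unfold Wi
  refine Matrix.submatrix_succAbove_det_eq_negOnePow_submatrix_succAbove_det _ ?_ i0 i1
  funext k
  have h1 : (∑ j, Mt ℓ A j) k = ∑ j, (fun j => (Mt ℓ A j : Fin N → EP E r)) j k :=
    Finset.sum_apply k Finset.univ (fun j => (Mt ℓ A j : Fin N → EP E r))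
  refine h1.trans ?_
  change ∑ i, (D ℓ)^[(k : ℕ)] (A i) = 0
  rw [← D_iter_sum, hA]
  ext m
  rw [coeff_D_iter]
  simp

theorem Ble.Wi {w : Ex r →+ ℝ ×ₗ ℝ} (ℓ : Ex r →+ ℤ) {A : Fin (N + 1) → EP E r}
    {l : Fin (N + 1) → ℝ ×ₗ ℝ} (h : ∀ i, Ble w (A i) (l i)) (i0 : Fin (N + 1)) :
    Ble w (Wi ℓ A i0) (∑ k, l (i0.succAbove k)) := by
  rw [Wi_eq]
  refine Ble.sum _ fun σ _ => Ble.units_smul ?_ _
  rw [← Equiv.sum_comp σ fun k => l (i0.succAbove k)]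
  exact Ble.prod _ fun k _ m hm => h _ m (supp_D_iter _ _ _ hm)

/-- **Divisibility of Wronskians.** -/
theorem Wi_dvd {γ : Fin r → Eˣ} (ℓ : Ex r →+ ℤ) {J : Type} [Fintype J] {G : J → EP E r}
    (hG : ∀ j, G j ∈ Bi γ) {U : Fin (N + 1) → EP E r}
    (hU : ∀ i, ∃ u : ℤ, D ℓ (U i) = (u : EP E r) * U i) (e : Fin (N + 1) → J → ℕ) (x : J → ℕ)
    {i0 : Fin (N + 1)}
    (hx : ∀ j, ∀ σ : Equiv.Perm (Fin N), ∑ k : Fin N, min (e (i0.succAbove (σ k)) j) k ≤ x j) :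
    ∃ H ∈ Bi γ, (∏ j, G j ^ x j) * Wi ℓ (fun i => U i * ∏ j, G j ^ e i j) i0 =
      (∏ k : Fin N, (U (i0.succAbove k) * ∏ j, G j ^ e (i0.succAbove k) j)) * H := by
  classical
  rw [Wi_eq]
  have h1 : ∀ (i : Fin (N + 1)) (k : ℕ), ∃ H ∈ Bi γ, (D ℓ)^[k] (U i * ∏ j, G j ^ e i j) =
      U i * (∏ j, G j ^ (e i j - k)) * H := fun i k => by
    obtain ⟨u, hu⟩ := hU i
    exact D_iter_prod ℓ Finset.univ (fun j _ => hG j) (e i) hu k
  choose H hH h2 using h1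
  have h3 : ∀ σ : Equiv.Perm (Fin N), ∃ Q ∈ Bi γ, (∏ j, G j ^ x j) *
      ∏ k : Fin N, (D ℓ)^[(k : ℕ)] (U (i0.succAbove (σ k)) * ∏ j, G j ^ e (i0.succAbove (σ k)) j) =
      (∏ k : Fin N, (U (i0.succAbove k) * ∏ j, G j ^ e (i0.succAbove k) j)) * Q := by
    intro σ
    refine ⟨(∏ j, G j ^ (x j - ∑ k : Fin N, min (e (i0.succAbove (σ k)) j) k)) *
      ∏ k : Fin N, H (i0.succAbove (σ k)) k, mul_mem (prod_mem fun j _ => pow_mem (hG j) _)
        (prod_mem fun k _ => hH _ _), ?_⟩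
    rw [← Equiv.prod_comp σ fun k => U (i0.succAbove k) * ∏ j, G j ^ e (i0.succAbove k) j]
    simp only [h2, Finset.prod_mul_distrib]
    have h4 : (∏ j, G j ^ x j) * ∏ k : Fin N, ∏ j, G j ^ (e (i0.succAbove (σ k)) j - (k : ℕ)) =
        (∏ k : Fin N, ∏ j, G j ^ e (i0.succAbove (σ k)) j) *
          ∏ j, G j ^ (x j - ∑ k : Fin N, min (e (i0.succAbove (σ k)) j) k) := by
      rw [Finset.prod_comm, Finset.prod_comm (s := (Finset.univ : Finset (Fin N))) (f := fun k j =>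
        G j ^ e (i0.succAbove (σ k)) j), ← Finset.prod_mul_distrib, ← Finset.prod_mul_distrib]
      refine Finset.prod_congr rfl fun j _ => ?_
      rw [Finset.prod_pow_eq_pow_sum, Finset.prod_pow_eq_pow_sum, ← pow_add, ← pow_add]
      congr 1
      have h5 : ∑ k : Fin N, e (i0.succAbove (σ k)) j =
          ∑ k : Fin N, (e (i0.succAbove (σ k)) j - (k : ℕ)) +
            ∑ k : Fin N, min (e (i0.succAbove (σ k)) j) k := by
        rw [← Finset.sum_add_distrib]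
        refine Finset.sum_congr rfl fun k _ => ?_
        omega
      have h6 := hx j σ
      omega
    calc _ = (∏ k : Fin N, U (i0.succAbove (σ k))) * ((∏ j, G j ^ x j) *
          ∏ k : Fin N, ∏ j, G j ^ (e (i0.succAbove (σ k)) j - (k : ℕ))) *
            ∏ k : Fin N, H (i0.succAbove (σ k)) k := by ring
      _ = _ := by
        rw [h4]
        ring
  choose Q hQ h4 using h3
  refine ⟨∑ σ : Equiv.Perm (Fin N), Equiv.Perm.sign σ • Q σ, sum_mem fun σ _ => ?_, ?_⟩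
  · rcases Int.units_eq_one_or (Equiv.Perm.sign σ) with h | h
    · rw [h, one_smul]
      exact hQ σ
    · rw [h, Units.neg_smul, one_smul]
      exact neg_mem (hQ σ)
  · rw [Finset.mul_sum, Finset.mul_sum]
    refine Finset.sum_congr rfl fun σ _ => ?_
    rw [mul_smul_comm, h4, mul_smul_comm]

end Pool.Agent.Q183.AR
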