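import Pool.Agent.Q183.AR.Dens
import Pool.Agent.Q183.AR.Wr
import Pool.Agent.Q183.AR.Gal

/-!
Properties of almost all natural numbers; upper bounds of Wronskians by linear forms.
-/

set_option autoImplicit false

namespace Pool.Agent.Q183.AR

open AddMonoidAlgebra Filter

/-- `P C s` holds for almost all `s`, up to the choice of the constant `C`: for every `η > 0` there
is a constant `C > 0` such that among any `n` consecutive integers, `n` large, from some point on,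
`P C s` fails for at most `η n` integers `s`. -/
def AA (P : ℝ → ℕ → Prop) : Prop :=
  ∀ η : ℝ, 0 < η → ∃ (C : ℝ) (T z : ℕ), 0 < C ∧ ∀ t n : ℕ, z ≤ t → T ≤ n →
    (({s | t ≤ s ∧ s < t + n ∧ ¬ P C s}.ncard : ℕ) : ℝ) ≤ η * n

theorem AA.imp {P Q : ℝ → ℕ → Prop} (h : AA P) (f : ℝ → ℝ) (z0 : ℕ)
    (hf : ∀ C, 0 < C → 0 < f C) (hPQ : ∀ C s, 0 < C → z0 ≤ s → P C s → Q (f C) s) : AA Q := by
  intro η hη
  obtain ⟨C, T, z, hC, h1⟩ := h η hη
  refine ⟨f C, T, max z z0, hf C hC, fun t n ht hn => ?_⟩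
  refine le_trans ?_ (h1 t n ((le_max_left _ _).trans ht) hn)
  exact_mod_cast fails_mono (P := Q (f C)) (Q := P C) fun s hs _ hP =>
    hPQ C s hC (((le_max_right _ _).trans ht).trans hs) hP

/-- monotone in the constant -/
def MonoC (P : ℝ → ℕ → Prop) : Prop := ∀ C C' s, C ≤ C' → P C s → P C' s

theorem fails_and (P Q : ℕ → Prop) (t n : ℕ) :
    fails (fun s => P s ∧ Q s) t n ≤ fails P t n + fails Q t n := by
  unfold fails
  refine le_trans (Set.ncard_le_ncard (t := {s | t ≤ s ∧ s < t + n ∧ ¬ P s} ∪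
    {s | t ≤ s ∧ s < t + n ∧ ¬ Q s}) ?_ ((fails_fin P t n).union (fails_fin Q t n)))
    (Set.ncard_union_le _ _)
  rintro s ⟨h1, h2, h3⟩
  by_cases hP : P s
  · exact Or.inr ⟨h1, h2, fun hQ => h3 ⟨hP, hQ⟩⟩
  · exact Or.inl ⟨h1, h2, hP⟩

theorem AA.and {P Q : ℝ → ℕ → Prop} (hP : AA P) (hQ : AA Q) (mP : MonoC P) (mQ : MonoC Q) :
    AA fun C s => P C s ∧ Q C s := by
  intro η hη
  obtain ⟨C1, T1, z1, hC1, h1⟩ := hP (η / 2) (by linarith)
  obtain ⟨C2, T2, z2, hC2, h2⟩ := hQ (η / 2) (by linarith)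
  refine ⟨max C1 C2, max T1 T2, max z1 z2, lt_max_of_lt_left hC1, fun t n ht hn => ?_⟩
  have h3 := h1 t n ((le_max_left _ _).trans ht) ((le_max_left _ _).trans hn)
  have h4 := h2 t n ((le_max_right _ _).trans ht) ((le_max_right _ _).trans hn)
  have h5 : fails (fun s => P (max C1 C2) s ∧ Q (max C1 C2) s) t n ≤
      fails (P C1) t n + fails (Q C2) t n :=
    (fails_and _ _ t n).trans (add_le_add
      (fails_mono fun s _ _ h => mP _ _ _ (le_max_left _ _) h)
      (fails_mono fun s _ _ h => mQ _ _ _ (le_max_right _ _) h))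
  have h6 : ((fails (fun s => P (max C1 C2) s ∧ Q (max C1 C2) s) t n : ℕ) : ℝ) ≤
      fails (P C1) t n + fails (Q C2) t n := by exact_mod_cast h5
  calc _ ≤ _ := h6
    _ ≤ η / 2 * n + η / 2 * n := add_le_add h3 h4
    _ = η * n := by ring

theorem AA.true : AA fun _ _ => True := fun η hη => ⟨1, 0, 0, one_pos, fun t n _ _ => by
  have h1 : {s | t ≤ s ∧ s < t + n ∧ ¬ True} = ∅ := by
    ext s
    simp
  rw [h1, Set.ncard_empty]
  push_cast
  positivity⟩

theorem AA.all {α : Type} [Finite α] {P : α → ℝ → ℕ → Prop} (h : ∀ a, AA (P a))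
    (m : ∀ a, MonoC (P a)) : AA fun C s => ∀ a, P a C s := by
  classical
  have := Fintype.ofFinite α
  have h1 : ∀ S : Finset α, AA fun C s => ∀ a ∈ S, P a C s := by
    intro S
    induction S using Finset.induction_on with
    | empty =>
      exact AA.true.imp (fun C => C) 0 (fun C hC => hC) fun C s _ _ _ a ha =>
        absurd ha (Finset.notMem_empty a)
    | insert a S ha ih =>
      refine ((h a).and ih (m a) (fun C C' s hCC h1 b hb => m b C C' s hCC (h1 b hb))).imp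
        (fun C => C) 0 (fun C hC => hC) fun C s _ _ hab b hb => ?_
      rcases Finset.mem_insert.1 hb with rfl | hb
      · exact hab.1
      · exact hab.2 b hb
  exact (h1 Finset.univ).imp (fun C => C) 0 (fun C hC => hC) fun C s _ _ h2 a =>
    h2 a (Finset.mem_univ a)

variable {E : Type} [Field E] {r : ℕ}

/-- sums with complex coefficients: lower bound -/
theorem aa_lower {γ : Fin r → Eˣ} (hγ : Ind γ) (τ : E →+* ℂ) (S : Finset (Ex r)) (c : Ex r → ℂ)
    {l : ℝ ×ₗ ℝ} (hl : ∀ m ∈ S, wτ γ τ m ≤ l) {m0 : Ex r} (hm0 : m0 ∈ S) (h0 : wτ γ τ m0 = l)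
    (hc : c m0 ≠ 0) :
    AA fun C s => sz l s ≤ C * ‖∑ m ∈ S, c m * ((s : ℂ) ^ m.2 * τ (pg γ m.1 : Eˣ) ^ s)‖ := by
  intro η hη
  obtain ⟨e, T, t0, he, h1⟩ := dwindow S (fun m => τ (pg γ m.1 : Eˣ))
    (fun m _ => base_ne γ τ m.1) (fun m => m.2) c
    (fun m _ n _ d hd h1 h2 => Prod.ext (by
      rw [← map_pow, ← map_pow] at h1
      have h3 : pg γ m.1 ^ d = pg γ n.1 ^ d := Units.ext (by
        rw [Units.val_pow_eq_pow_val, Units.val_pow_eq_pow_val]
        exact τ.injective h1)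
      have h4 : pg γ ((d : ℤ) • (m.1 - n.1)) = 1 := by
        have h5 : ∀ v : Fin r → ℤ, pg γ ((d : ℤ) • v) = pg γ v ^ d := by
          intro v
          unfold pg
          rw [← Finset.prod_pow]
          refine Finset.prod_congr rfl fun i _ => ?_
          rw [Pi.smul_apply, smul_eq_mul, mul_comm, zpow_mul, zpow_natCast]
        have h6 : pg γ ((d : ℤ) • (m.1 - n.1)) * pg γ ((d : ℤ) • n.1) = pg γ ((d : ℤ) • m.1) := by
          rw [← pg_add, ← smul_add, sub_add_cancel]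
        rw [h5 m.1, h3, ← h5 n.1] at h6
        exact mul_eq_right.1 h6
      have h5 := hγ _ h4
      have h6 : m.1 - n.1 = 0 := by
        rcases smul_eq_zero.1 h5 with h | h
        · omega
        · exact h
      exact sub_eq_zero.1 h6) h2)
    hl hm0 h0 hc η hη
  refine ⟨1 / e, T, t0, by positivity, fun t n ht hn => ?_⟩
  refine le_trans ?_ (h1 t n ht hn)
  have h2 : fails (fun s => sz l s ≤ 1 / e * ‖∑ m ∈ S, c m * ((s : ℂ) ^ m.2 * τ (pg γ m.1 : Eˣ) ^ s)‖)
      t n ≤ fails (fun s => e * sz l s ≤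
        ‖∑ m ∈ S, c m * ((s : ℂ) ^ m.2 * τ (pg γ m.1 : Eˣ) ^ s)‖) t n := by
    refine fails_mono fun s _ _ h => ?_
    rw [one_div, le_inv_mul_iff₀ he]
    exact h
  exact_mod_cast h2

/-- nonzero exponential polynomials have few zeros -/
theorem aa_ne {γ : Fin r → Eˣ} (hγ : Ind γ) (τ : E →+* ℂ) {F : EP E r} (hF : F ≠ 0) :
    AA fun _ s => ev γ F s ≠ 0 := by
  obtain ⟨l, ⟨m0, hm0, h0⟩, h⟩ := exists_top (wτ γ τ) hF
  refine (aa_lower hγ τ F.coeff.support (fun m => τ (F.coeff m)) h hm0 h0 (by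
    rw [map_ne_zero]
    exact Finsupp.mem_support_iff.1 hm0)).imp (fun C => C) 1 (fun C hC => hC) fun C s hC hs h1 h2 => ?_
  have h3 := map_ev γ τ F s
  rw [← h3, h2, map_zero, norm_zero, mul_zero] at h1
  exact absurd (sz_pos l hs) (not_lt.2 h1)

theorem det_bound {N : ℕ} (B : Matrix (Fin N) (Fin N) ℂ) (u : Fin N → ℝ)
    (h : ∀ j i, ‖B j i‖ ≤ u j) : ‖B.det‖ ≤ (N.factorial : ℝ) * ∏ j, u j := by
  rw [← Matrix.det_transpose, Matrix.det_apply]
  refine (norm_sum_le _ _).trans ?_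
  have h1 : ∀ σ ∈ (Finset.univ : Finset (Equiv.Perm (Fin N))),
      ‖Equiv.Perm.sign σ • ∏ i, B.transpose (σ i) i‖ ≤ ∏ j, u j := by
    intro σ _
    have h2 : ‖Equiv.Perm.sign σ • ∏ i, B.transpose (σ i) i‖ = ‖∏ i, B.transpose (σ i) i‖ := by
      rcases Int.units_eq_one_or (Equiv.Perm.sign σ) with h | h
      · rw [h, one_smul]
      · rw [h, Units.neg_smul, one_smul, norm_neg]
    rw [h2, norm_prod]
    exact Finset.prod_le_prod (fun _ _ => norm_nonneg _) fun i _ => h _ _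
  refine (Finset.sum_le_card_nsmul _ _ _ h1).trans (le_of_eq ?_)
  rw [Finset.card_univ, Fintype.card_perm, Fintype.card_fin, nsmul_eq_mul]

/-- **Upper bounds of Wronskians by linear forms.** -/
theorem wub {γ : Fin r → Eˣ} (hγ : Ind γ) (τ : E →+* ℂ) {N : ℕ} (x : Fin N → EP E r)
    (ℓ : Ex r →+ ℤ) (Λ : Matrix (Fin N) (Fin N) ℂ) (hΛ : Λ.det ≠ 0) :
    AA fun C s => ‖τ (ev γ (Matrix.of fun (i k : Fin N) => (D ℓ)^[(k : ℕ)] (x i)).det s)‖ ≤
      C * ∏ j, ‖∑ k, Λ j k * τ (ev γ (x k) s)‖ := by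
  classical
  set S : Finset (Ex r) := Finset.univ.biUnion fun k => (x k).coeff.support with hS
  set c : Fin N → Ex r → ℂ := fun j m => ∑ k, Λ j k * τ ((x k).coeff m) with hc
  set W := (Matrix.of fun (i k : Fin N) => (D ℓ)^[(k : ℕ)] (x i)).det with hW
  -- the rows
  have hrow : ∀ (j : Fin N) (i : ℕ) (s : ℕ), ∑ k, Λ j k * τ (ev γ ((D ℓ)^[i] (x k)) s) =
      ∑ m ∈ S, ((ℓ m : ℂ) ^ i * c j m) * ((s : ℂ) ^ m.2 * τ (pg γ m.1 : Eˣ) ^ s) := by
    intro j i s
    have h1 : ∀ k, τ (ev γ ((D ℓ)^[i] (x k)) s) =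
        ∑ m ∈ S, ((ℓ m : ℂ) ^ i * τ ((x k).coeff m)) * ((s : ℂ) ^ m.2 * τ (pg γ m.1 : Eˣ) ^ s) := by
      intro k
      rw [map_ev]
      have hsub : ((D ℓ)^[i] (x k)).coeff.support ⊆ S :=
        (supp_D_iter ℓ (x k) i).trans
          (Finset.subset_biUnion_of_mem (fun k => (x k).coeff.support) (Finset.mem_univ k))
      rw [Finset.sum_subset hsub (fun m _ hm => by
        rw [Finsupp.notMem_support_iff.1 hm, map_zero, zero_mul])]
      refine Finset.sum_congr rfl fun m _ => ?_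
      rw [coeff_D_iter, map_mul, map_pow, map_intCast]
    simp only [h1, Finset.mul_sum]
    rw [Finset.sum_comm]
    refine Finset.sum_congr rfl fun m _ => ?_
    rw [hc]
    simp only
    rw [Finset.mul_sum, Finset.sum_mul]
    refine Finset.sum_congr rfl fun k _ => ?_
    ring
  have hdet : ∀ s, Λ.det * τ (ev γ W s) =
      (Matrix.of fun (j i : Fin N) => ∑ k, Λ j k * τ (ev γ ((D ℓ)^[(i : ℕ)] (x k)) s)).det := by
    intro s
    have h1 : τ (ev γ W s) = (Matrix.of fun (k i : Fin N) => τ (ev γ ((D ℓ)^[(i : ℕ)] (x k)) s)).det := by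
      let ψ : EP E r →+* ℂ := (τ.comp (Pi.evalRingHom (fun _ : ℕ => E) s)).comp (ev γ : EP E r →+* (ℕ → E))
      change ψ W = _
      rw [hW, RingHom.map_det]
      rfl
    rw [h1, ← Matrix.det_mul]
    rfl
  have hdet' : ∀ s, ‖τ (ev γ W s)‖ = ‖(Matrix.of fun (j i : Fin N) =>
      ∑ k, Λ j k * τ (ev γ ((D ℓ)^[(i : ℕ)] (x k)) s)).det‖ / ‖Λ.det‖ := by
    intro s
    rw [← hdet, norm_mul]
    have := norm_ne_zero_iff.2 hΛ
    field_simp
  by_cases hz : ∃ j, ∀ m ∈ S, c j m = 0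
  · obtain ⟨j, hj⟩ := hz
    refine AA.true.imp (fun C => C) 0 (fun C hC => hC) fun C s hC _ _ => ?_
    have h1 : (Matrix.of fun (j i : Fin N) =>
        ∑ k, Λ j k * τ (ev γ ((D ℓ)^[(i : ℕ)] (x k)) s)).det = 0 := by
      refine Matrix.det_eq_zero_of_row_eq_zero j fun i => ?_
      rw [Matrix.of_apply, hrow]
      refine Finset.sum_eq_zero fun m hm => ?_
      rw [hj m hm, mul_zero, zero_mul]
    rw [hdet' s, h1, norm_zero, zero_div]
    exact mul_nonneg hC.le (Finset.prod_nonneg fun _ _ => norm_nonneg _)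
  · push Not at hz
    have htop : ∀ j, ∃ m0 ∈ S, c j m0 ≠ 0 ∧ ∀ m ∈ S, c j m ≠ 0 → wτ γ τ m ≤ wτ γ τ m0 := by
      intro j
      obtain ⟨m1, hm1, hm1'⟩ := hz j
      obtain ⟨m0, hm0, hmax⟩ := Finset.exists_max_image (S.filter fun m => c j m ≠ 0) (wτ γ τ)
        ⟨m1, Finset.mem_filter.2 ⟨hm1, hm1'⟩⟩
      exact ⟨m0, (Finset.mem_filter.1 hm0).1, (Finset.mem_filter.1 hm0).2, fun m hm hm' =>
        hmax m (Finset.mem_filter.2 ⟨hm, hm'⟩)⟩
    choose m0 hm0 hm0' hmax using htop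
    have hfil : ∀ (j : Fin N) (i : ℕ) (s : ℕ),
        ∑ m ∈ S, ((ℓ m : ℂ) ^ i * c j m) * ((s : ℂ) ^ m.2 * τ (pg γ m.1 : Eˣ) ^ s) =
        ∑ m ∈ S.filter fun m => c j m ≠ 0,
          ((ℓ m : ℂ) ^ i * c j m) * ((s : ℂ) ^ m.2 * τ (pg γ m.1 : Eˣ) ^ s) := by
      intro j i s
      rw [Finset.sum_filter_of_ne]
      intro m _ h1 h2
      apply h1
      rw [h2, mul_zero, zero_mul]
    have hlow : ∀ j, AA fun C s => sz (wτ γ τ (m0 j)) s ≤ C * ‖∑ k, Λ j k * τ (ev γ (x k) s)‖ := by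
      intro j
      refine (aa_lower hγ τ (S.filter fun m => c j m ≠ 0) (c j)
        (fun m hm => hmax j m (Finset.mem_filter.1 hm).1 (Finset.mem_filter.1 hm).2)
        (Finset.mem_filter.2 ⟨hm0 j, hm0' j⟩) rfl (hm0' j)).imp (fun C => C) 0 (fun C hC => hC)
        fun C s _ _ h1 => ?_
      have h2 := hrow j 0 s
      rw [hfil] at h2
      simp only [Function.iterate_zero, id, pow_zero, one_mul] at h2
      rw [h2]
      exact h1
    have hup : ∀ j (i : Fin N), ∃ C : ℝ, 0 < C ∧ ∀ s : ℕ, 1 ≤ s →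
        ‖∑ k, Λ j k * τ (ev γ ((D ℓ)^[(i : ℕ)] (x k)) s)‖ ≤ C * sz (wτ γ τ (m0 j)) s := by
      intro j i
      obtain ⟨C, hC, h1⟩ := upper (S.filter fun m => c j m ≠ 0) (fun m => τ (pg γ m.1 : Eˣ))
        (fun m _ => base_ne γ τ m.1) (fun m => m.2) (fun m => (ℓ m : ℂ) ^ (i : ℕ) * c j m)
        (l := wτ γ τ (m0 j))
        (fun m hm => hmax j m (Finset.mem_filter.1 hm).1 (Finset.mem_filter.1 hm).2)
      refine ⟨C, hC, fun s hs => ?_⟩
      rw [hrow, hfil]
      exact h1 s hs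
    choose Cu hCu0 hCu using hup
    refine (AA.all hlow (fun j C C' s hCC h => h.trans
      (mul_le_mul_of_nonneg_right hCC (norm_nonneg _)))).imp
      (fun C => (N.factorial : ℝ) * (∏ j, ((∑ i, Cu j i + 1) * C)) / ‖Λ.det‖) 1
      (fun C hC => div_pos (mul_pos (by positivity) (Finset.prod_pos fun j _ => mul_pos
        (add_pos_of_nonneg_of_pos (Finset.sum_nonneg fun i _ => (hCu0 j i).le) one_pos) hC))
        (norm_pos_iff.2 hΛ)) fun C s hC hs h1 => ?_
    rw [hdet' s, div_mul_eq_mul_div]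
    refine div_le_div_of_nonneg_right ?_ (norm_nonneg _)
    refine (det_bound _ (fun j => (∑ i, Cu j i + 1) * sz (wτ γ τ (m0 j)) s) fun j i => ?_).trans ?_
    · rw [Matrix.of_apply]
      refine (hCu j i s hs).trans (mul_le_mul_of_nonneg_right ?_ (sz_nonneg _ _))
      have := Finset.single_le_sum (f := fun i => Cu j i) (fun i _ => (hCu0 j i).le)
        (Finset.mem_univ i)
      linarith
    · rw [mul_assoc]
      refine mul_le_mul_of_nonneg_left ?_ (by positivity)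
      rw [← Finset.prod_mul_distrib]
      refine Finset.prod_le_prod (fun j _ => mul_nonneg (add_nonneg
        (Finset.sum_nonneg fun i _ => (hCu0 j i).le) zero_le_one) (sz_nonneg _ _)) fun j _ => ?_
      rw [mul_assoc]
      exact mul_le_mul_of_nonneg_left (h1 j) (add_nonneg
        (Finset.sum_nonneg fun i _ => (hCu0 j i).le) zero_le_one)

end Pool.Agent.Q183.AR
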