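import Pool.Agent.Q183.AR.NF
import Pool.Agent.H645R3.ABCDef

/-!
The abc inequality for linear recurrences over number fields.
-/

set_option autoImplicit false

namespace Pool.Agent.Q183.AR

open NumberField Height IsDedekindDomain H645.ABC

variable {K : Type} [Field K] [NumberField K] {J : Type} [Fintype J]

/-- the three terms -/
def term (κ μ : Fin 3 → 𝓞 K) (g : J → ℕ → 𝓞 K) (e : Fin 3 → J → ℕ) (i : Fin 3) (t : ℕ) : 𝓞 K :=
  κ i * μ i ^ t * ∏ j, g j t ^ e i j

/-- the indices of the sequences with three exponents which are not all equal -/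
def unequal (e : Fin 3 → J → ℕ) : Finset J :=
  Finset.univ.filter fun j => ¬ (e 0 j = e 1 j ∧ e 1 j = e 2 j)

/-- the abc inequality in multiplicative form -/
theorem abcMul (g : J → ℕ → 𝓞 K)
    (hg : ∀ j, ∃ E : LinearRecurrence (𝓞 K), E.IsSolution (g j)) (κ μ : Fin 3 → 𝓞 K)
    (hμ : ∀ i, μ i ≠ 0) (e : Fin 3 → J → ℕ) (hsum : ∀ t, ∑ i, term κ μ g e i t = 0) :
    ∃ M : ℕ, 0 < M ∧ ∀ ρ : ℕ,
      (∃ (c₀ c₁ : K) (z : ℕ), (c₀ ≠ 0 ∨ c₁ ≠ 0) ∧ ∀ t, z ≤ t → t ≡ ρ [MOD M] →
        c₀ * (term κ μ g e 0 t : K) = c₁ * (term κ μ g e 1 t : K)) ∨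
      AA fun C s => s ≡ ρ [MOD M] → (∀ i, term κ μ g e i s ≠ 0) ∧
        mulHeight (fun i => (term κ μ g e i s : K)) ≤
          C * ∏ j ∈ unequal e, |((Algebra.norm ℚ (g j s : K) : ℚ) : ℝ)| := by
  classical
  obtain ⟨B, hB, hmink⟩ := mink K
  let m : J → ℕ := fun j => min (e 0 j) (min (e 1 j) (e 2 j))
  have hm : ∀ i j, m j ≤ e i j := by
    intro i j
    fin_cases i
    · exact min_le_left _ _
    · exact (min_le_right _ _).trans (min_le_left _ _)
    · exact (min_le_right _ _).trans (min_le_right _ _)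
  let x : J → ℕ := fun j => if e 0 j = e 1 j ∧ e 1 j = e 2 j then 0 else 1
  have hinj : Function.Injective (algebraMap (𝓞 K) K) := RingOfIntegers.coe_injective
  obtain ⟨M, hM, h⟩ := gabc (R := 𝓞 K) (K := K) (N := 2) (by norm_num) g hg κ μ
    (fun i h0 => hμ i (hinj (h0.trans (map_zero _).symm))) e m x hm Set.univ (by
      intro i0 _ j σ
      rw [Fin.sum_univ_two]
      simp only [Fin.val_zero, Fin.val_one, Nat.min_zero, zero_add, x]
      split_ifs with hj
      · have h1 : ∀ i, e i j = m j := by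
          intro i
          fin_cases i <;> simp [m, hj.1, hj.2]
        rw [h1, Nat.sub_self, Nat.zero_min]
      · exact min_le_right _ _) (by
      intro j hj
      by_contra hcon
      push Not at hcon
      apply hj
      simp only [x]
      rw [if_pos ⟨by rw [hcon, hcon], by rw [hcon, hcon]⟩]) (fun t => by
      have := hsum t
      simp only [term] at this
      rw [this, map_zero])
  refine ⟨M, hM, fun ρ => ?_⟩
  rcases h ρ with ⟨c, z, hc0, hc1, hc2⟩ | h1
  · left
    have h3 : c 2 = 0 := hc0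
    refine ⟨c 0, -c 1, z, ?_, fun t ht htm => ?_⟩
    · by_contra hcon
      push Not at hcon
      apply hc1
      funext i
      fin_cases i
      · exact hcon.1
      · exact neg_eq_zero.1 hcon.2
      · exact hc0
    · have h4 := hc2 t ht htm
      rw [Fin.sum_univ_three, h3, zero_mul, add_zero] at h4
      change c 0 * (term κ μ g e 0 t : K) + c 1 * (term κ μ g e 1 t : K) = 0 at h4
      linear_combination h4
  · right
    refine h1.imp (fun C => C * B) 0 (fun C hC => mul_pos hC hB) fun C s hC _ h2 hs => ?_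
    obtain ⟨h3, h4⟩ := h2 hs
    have hne : ∀ i, term κ μ g e i s ≠ 0 := by
      intro i h0
      apply h3 i
      change algebraMap (𝓞 K) K (term κ μ g e i s) = 0
      rw [h0, map_zero]
    refine ⟨hne, ?_⟩
    set a : Fin 3 → 𝓞 K := fun i => term κ μ g e i s with ha
    have ha0 : a ≠ 0 := fun h0 => hne 0 (congrFun h0 0)
    have hI : Ideal.span (Set.range a) ≠ ⊥ := by
      intro h0
      apply hne 0
      have h5 : a 0 ∈ Ideal.span (Set.range a) := Ideal.subset_span ⟨0, rfl⟩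
      rw [h0] at h5
      exact h5
    obtain ⟨δ, hδ, hδ0, hδn⟩ := hmink _ hI
    obtain ⟨v, hv⟩ := (Ideal.mem_span_range_iff_exists_fun (v := a)).1 hδ
    refine height_le a ha0 fun η => ?_
    have h5 := h4 v (fun i hi => absurd (Set.mem_univ i) hi) (by
      intro h0
      apply hδ0
      apply hinj
      rw [map_zero, ← hv]
      exact h0) η
    have h6 : ∏ σ : K →ₐ[ℚ] ℂ, ‖σ (algebraMap (𝓞 K) K
        (∑ i, v i * (κ i * μ i ^ s * ∏ j, g j s ^ e i j)))‖ =
        |((Algebra.norm ℚ (δ : K) : ℚ) : ℝ)| := by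
      rw [← norm_emb, ← hv]
      rfl
    rw [h6] at h5
    have h7 : ∏ j, (∏ σ : K →ₐ[ℚ] ℂ, ‖σ (algebraMap (𝓞 K) K (g j s))‖) ^ x j =
        ∏ j ∈ unequal e, |((Algebra.norm ℚ (g j s : K) : ℚ) : ℝ)| := by
      unfold unequal
      rw [Finset.prod_filter]
      refine Finset.prod_congr rfl fun j _ => ?_
      simp only [x]
      split_ifs with hj
      · rw [pow_zero]
      · rw [pow_one]
        exact norm_emb (K := K) (g j s : K)
    rw [h7] at h5
    have h8 : 0 ≤ ∏ j ∈ unequal e, |((Algebra.norm ℚ (g j s : K) : ℚ) : ℝ)| :=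
      Finset.prod_nonneg fun _ _ => abs_nonneg _
    calc ∏ σ : K →ₐ[ℚ] ℂ, ‖σ (a (η σ) : K)‖ ≤ C * |((Algebra.norm ℚ (δ : K) : ℚ) : ℝ)| *
          ∏ j ∈ unequal e, |((Algebra.norm ℚ (g j s : K) : ℚ) : ℝ)| := h5
      _ ≤ C * (B * Ideal.absNorm (Ideal.span (Set.range a))) *
          ∏ j ∈ unequal e, |((Algebra.norm ℚ (g j s : K) : ℚ) : ℝ)| :=
        mul_le_mul_of_nonneg_right (mul_le_mul_of_nonneg_left hδn hC.le) h8
      _ = _ := by ring

theorem badPrimes_finite {P : Fin 3 → 𝓞 K} (hP : ∀ i, P i ≠ 0) :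
    (badPrimes fun i => (P i : K)).Finite := by
  refine ((Set.finite_univ (α := Fin 3)).biUnion fun i _ => finite_dvd (hP i)).subset fun v hv => ?_
  by_contra hcon
  simp only [Set.mem_iUnion, Set.mem_ofPred_eq, Set.mem_univ, true_and, exists_prop, not_exists] at hcon
  have h1 : ∀ i, v.valuation K (P i : K) = 1 := by
    intro i
    have h2 : ¬ v.valuation K (P i : K) < 1 := by
      rw [HeightOneSpectrum.valuation_lt_one_iff_mem]
      exact hcon i
    exact le_antisymm (HeightOneSpectrum.valuation_le_one v (P i)) (not_lt.1 h2)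
  exact hv ⟨by rw [h1, h1], by rw [h1, h1]⟩

theorem rad_lower {P : Fin 3 → 𝓞 K} (hP : ∀ i, P i ≠ 0) (F : Finset (HeightOneSpectrum (𝓞 K)))
    (hF : ∀ v ∈ F, v ∈ badPrimes fun i => (P i : K)) :
    (∑ v ∈ F, Real.log (Ideal.absNorm v.asIdeal)) / Module.finrank ℚ K ≤
      rad fun i => (P i : K) := by
  classical
  unfold rad
  refine div_le_div_of_nonneg_right ?_ (Nat.cast_nonneg _)
  have hfin := badPrimes_finite hP
  rw [finsum_mem_eq_finite_toFinset_sum _ hfin]
  refine Finset.sum_le_sum_of_subset_of_nonneg (fun v hv => hfin.mem_toFinset.2 (hF v hv))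
    fun v _ _ => Real.log_natCast_nonneg _

/-- squarefree products of bases -/
theorem sqf_rad (κ μ : Fin 3 → 𝓞 K) (hμ : ∀ i, μ i ≠ 0) (g : J → ℕ → 𝓞 K) (e : Fin 3 → J → ℕ) :
    ∃ B : ℝ, 0 ≤ B ∧ ∀ s, (∀ i, term κ μ g e i s ≠ 0) →
      Squarefree (Ideal.span {∏ j ∈ unequal e, g j s}) →
      Real.log (∏ j ∈ unequal e, |((Algebra.norm ℚ (g j s : K) : ℚ) : ℝ)|) / Module.finrank ℚ K ≤
        rad (fun i => (term κ μ g e i s : K)) + B := by
  classical
  by_cases hκ : ∀ i, κ i ≠ 0
  swap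
  · push Not at hκ
    obtain ⟨i, hi⟩ := hκ
    refine ⟨0, le_refl 0, fun s hs => absurd ?_ (hs i)⟩
    unfold term
    rw [hi, zero_mul, zero_mul]
  have hS : (∏ i, (κ i * μ i)) ≠ 0 := Finset.prod_ne_zero_iff.2 fun i _ => mul_ne_zero (hκ i) (hμ i)
  set S := (finite_dvd hS).toFinset with hSdef
  refine ⟨(∑ v ∈ S, Real.log (Ideal.absNorm v.asIdeal)) / Module.finrank ℚ K,
    div_nonneg (Finset.sum_nonneg fun v _ => Real.log_natCast_nonneg _) (Nat.cast_nonneg _),
    fun s hs hsq => ?_⟩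
  set X : 𝓞 K := ∏ j ∈ unequal e, g j s with hX
  have hg0 : ∀ i j, e i j ≠ 0 → g j s ≠ 0 := by
    intro i j hij h0
    apply hs i
    unfold term
    rw [Finset.prod_eq_zero (Finset.mem_univ j) (by rw [h0, zero_pow hij]), mul_zero]
  have hgD : ∀ j ∈ unequal e, g j s ≠ 0 := by
    intro j hj
    have h1 := (Finset.mem_filter.1 hj).2
    by_cases h2 : e 0 j = 0
    · by_cases h3 : e 1 j = 0
      · by_cases h4 : e 2 j = 0
        · exact absurd ⟨h2.trans h3.symm, h3.trans h4.symm⟩ h1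
        · exact hg0 2 j h4
      · exact hg0 1 j h3
    · exact hg0 0 j h2
  have hX0 : X ≠ 0 := Finset.prod_ne_zero_iff.2 hgD
  set F := (finite_dvd hX0).toFinset with hF
  have hnorm : ∏ j ∈ unequal e, |((Algebra.norm ℚ (g j s : K) : ℚ) : ℝ)| =
      Ideal.absNorm (Ideal.span {X}) := by
    rw [← norm_span, hX, ← Finset.abs_prod]
    congr 1
    have h1 : ((∏ j ∈ unequal e, g j s : 𝓞 K) : K) = ∏ j ∈ unequal e, (g j s : K) := by
      push_cast
      rfl
    rw [h1, map_prod]
    push_cast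
    rfl
  have h1 := sqf_norm hsq F (fun v hv => (finite_dvd hX0).mem_toFinset.2
    ((Ideal.span_singleton_le_iff_mem _).1 (Ideal.dvd_iff_le.1 hv)))
  have hpos : ∀ v : HeightOneSpectrum (𝓞 K), (0 : ℝ) < Ideal.absNorm v.asIdeal := by
    intro v
    exact_mod_cast Nat.pos_of_ne_zero fun h0 => v.ne_bot (Ideal.absNorm_eq_zero_iff.1 h0)
  have h2 : Real.log (Ideal.absNorm (Ideal.span {X})) ≤ ∑ v ∈ F, Real.log (Ideal.absNorm v.asIdeal) := by
    rw [← Real.log_prod fun v _ => (hpos v).ne']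
    refine Real.log_le_log ?_ (by exact_mod_cast h1)
    exact_mod_cast Nat.pos_of_ne_zero fun h0 => hX0 (Ideal.span_singleton_eq_bot.1
      (Ideal.absNorm_eq_zero_iff.1 h0))
  have h3 : ∑ v ∈ F, Real.log (Ideal.absNorm v.asIdeal) ≤
      ∑ v ∈ F \ S, Real.log (Ideal.absNorm v.asIdeal) +
        ∑ v ∈ S, Real.log (Ideal.absNorm v.asIdeal) := by
    rw [← Finset.sum_union Finset.sdiff_disjoint]
    refine Finset.sum_le_sum_of_subset_of_nonneg (fun v hv => ?_) fun v _ _ => Real.log_natCast_nonneg _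
    by_cases h4 : v ∈ S
    · exact Finset.mem_union_right _ h4
    · exact Finset.mem_union_left _ (Finset.mem_sdiff.2 ⟨hv, h4⟩)
  have h4 := rad_lower hs (F \ S) (by
    intro v hv
    obtain ⟨hvF, hvS⟩ := Finset.mem_sdiff.1 hv
    have hvX : X ∈ v.asIdeal := (finite_dvd hX0).mem_toFinset.1 hvF
    have hvS' : ∏ i, (κ i * μ i) ∉ v.asIdeal := fun h => hvS ((finite_dvd hS).mem_toFinset.2 h)
    have hval1 : ∀ y : 𝓞 K, y ∉ v.asIdeal → v.valuation K (y : K) = 1 := by
      intro y hy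
      have h2 : ¬ v.valuation K (y : K) < 1 := by
        rw [HeightOneSpectrum.valuation_lt_one_iff_mem]
        exact hy
      exact le_antisymm (HeightOneSpectrum.valuation_le_one v y) (not_lt.1 h2)
    have hκμ : ∀ i, κ i ∉ v.asIdeal ∧ μ i ∉ v.asIdeal := by
      intro i
      have h5 : κ i * μ i ∉ v.asIdeal := fun h => hvS' (by
        rw [← Finset.mul_prod_erase _ _ (Finset.mem_univ i)]
        exact Ideal.mul_mem_right _ _ h)
      exact ⟨fun h => h5 (Ideal.mul_mem_right _ _ h), fun h => h5 (Ideal.mul_mem_left _ _ h)⟩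
    obtain ⟨j0, hj0, hj0v⟩ := (v.isPrime.prod_mem_iff).1 hvX
    have hother : ∀ j ∈ unequal e, j ≠ j0 → g j s ∉ v.asIdeal := by
      intro j hj hne hjv
      have h5 : v.asIdeal * v.asIdeal ∣ Ideal.span {X} := by
        rw [Ideal.dvd_iff_le, Ideal.span_singleton_le_iff_mem, hX,
          ← Finset.mul_prod_erase _ _ hj0, ← Finset.mul_prod_erase _ _
            (Finset.mem_erase.2 ⟨hne, hj⟩), ← mul_assoc]
        exact Ideal.mul_mem_right _ _ (Ideal.mul_mem_mul hj0v hjv)
      exact v.isPrime.ne_top (Ideal.isUnit_iff.1 (hsq _ h5))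
    set w := ∏ j ∈ Finset.univ \ unequal e, v.valuation K (g j s : K) ^ e 0 j with hw
    have hvt : ∀ i, v.valuation K (term κ μ g e i s : K) =
        v.valuation K (g j0 s : K) ^ e i j0 * w := by
      intro i
      unfold term
      push_cast
      rw [map_mul, map_mul, map_pow, hval1 _ (hκμ i).1, hval1 _ (hκμ i).2, one_pow, one_mul, one_mul,
        map_prod]
      simp only [map_pow]
      rw [← Finset.prod_sdiff (Finset.subset_univ (unequal e)), mul_comm]
      congr 1
      · rw [← Finset.mul_prod_erase _ _ hj0, Finset.prod_eq_one, mul_one]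
        intro j hj
        rw [hval1 _ (hother j (Finset.mem_of_mem_erase hj) (Finset.ne_of_mem_erase hj)), one_pow]
      · rw [hw]
        refine Finset.prod_congr rfl fun j hj => ?_
        have h5 : e 0 j = e 1 j ∧ e 1 j = e 2 j := by
          by_contra h6
          exact (Finset.mem_sdiff.1 hj).2 (Finset.mem_filter.2 ⟨Finset.mem_univ _, h6⟩)
        congr 1
        fin_cases i
        · rfl
        · exact h5.1.symm
        · exact (h5.1.trans h5.2).symm
    have ha0 : v.valuation K (g j0 s : K) ≠ 0 := by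
      rw [(v.valuation K).ne_zero_iff]
      exact RingOfIntegers.coe_ne_zero_iff.2 (hgD j0 hj0)
    have ha1 : v.valuation K (g j0 s : K) < 1 := by
      rw [HeightOneSpectrum.valuation_lt_one_iff_mem]
      exact hj0v
    have hw0 : w ≠ 0 := by
      intro h0
      have h5 := hvt 0
      rw [h0, mul_zero, (v.valuation K).zero_iff] at h5
      exact RingOfIntegers.coe_ne_zero_iff.2 (hs 0) h5
    have hinj := (pow_right_strictAnti₀ (zero_lt_iff.2 ha0) ha1).injective
    intro h5
    have h6 : ∀ i i', v.valuation K (term κ μ g e i s : K) = v.valuation K (term κ μ g e i' s : K) →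
        e i j0 = e i' j0 := by
      intro i i' h7
      rw [hvt, hvt] at h7
      exact hinj (mul_right_cancel₀ hw0 h7)
    exact (Finset.mem_filter.1 hj0).2 ⟨h6 0 1 h5.1, h6 1 2 h5.2⟩)
  rw [hnorm]
  have hd : (0 : ℝ) < Module.finrank ℚ K := by exact_mod_cast Module.finrank_pos
  calc Real.log (Ideal.absNorm (Ideal.span {X})) / Module.finrank ℚ K ≤
        (∑ v ∈ F \ S, Real.log (Ideal.absNorm v.asIdeal) +
          ∑ v ∈ S, Real.log (Ideal.absNorm v.asIdeal)) / Module.finrank ℚ K :=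
        div_le_div_of_nonneg_right (h2.trans h3) hd.le
    _ = (∑ v ∈ F \ S, Real.log (Ideal.absNorm v.asIdeal)) / Module.finrank ℚ K +
          (∑ v ∈ S, Real.log (Ideal.absNorm v.asIdeal)) / Module.finrank ℚ K := add_div _ _ _
    _ ≤ _ := by linarith

end Pool.Agent.Q183.AR
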