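import Pool.Agent.Q183.AR.Win

/-!
The algebra of sums of exponentials with polynomial coefficients.
-/

set_option autoImplicit false

namespace Pool.Agent.Q183.AR

open Filter Topology AddMonoidAlgebra

/-- exponents -/
abbrev Ex (r : ℕ) : Type := (Fin r → ℤ) × ℕ

/-- exponential polynomials -/
abbrev EP (E : Type) [Field E] (r : ℕ) : Type := AddMonoidAlgebra E (Ex r)

variable {E : Type} [Field E] {r : ℕ}

section top

variable {Ω : Type} [AddCommMonoid Ω] [LinearOrder Ω] [IsOrderedCancelAddMonoid Ω]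

/-- leading exponent for an injective weight -/
theorem lead_mul (ω : Ex r →+ Ω) (hω : Function.Injective ω) {F G : EP E r} {m n : Ex r}
    (hm : m ∈ F.coeff.support) (hm' : ∀ a ∈ F.coeff.support, ω a ≤ ω m)
    (hn : n ∈ G.coeff.support) (hn' : ∀ a ∈ G.coeff.support, ω a ≤ ω n) :
    (F * G).coeff (m + n) = F.coeff m * G.coeff n ∧ m + n ∈ (F * G).coeff.support ∧
      ∀ a ∈ (F * G).coeff.support, ω a ≤ ω (m + n) := by
  classical
  have h1 : (F * G).coeff (m + n) = F.coeff m * G.coeff n := by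
    apply coeff_mul_add_of_uniqueAdd
    intro a b ha hb hab
    have h2 := hm' a ha
    have h3 := hn' b hb
    have h4 : ω a + ω b = ω m + ω n := by rw [← map_add, ← map_add, hab]
    have h5 : ω a = ω m := by
      by_contra hne
      have h6 := add_lt_add_of_lt_of_le (lt_of_le_of_ne h2 hne) h3
      exact absurd h4 h6.ne
    have h6 : ω b = ω n := by
      rw [h5] at h4
      exact add_left_cancel h4
    exact ⟨hω h5, hω h6⟩
  refine ⟨h1, ?_, ?_⟩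
  · rw [Finsupp.mem_support_iff, h1]
    exact mul_ne_zero (Finsupp.mem_support_iff.1 hm) (Finsupp.mem_support_iff.1 hn)
  · intro a ha
    have h2 := support_coeff_mul_subset F G ha
    obtain ⟨b, hb, c, hc, rfl⟩ := Finset.mem_add.1 h2
    rw [map_add, map_add]
    exact add_le_add (hm' b hb) (hn' c hc)

end top

/-- `l` is the largest weight of the exponents of `F`. -/
def Top (w : Ex r →+ ℝ ×ₗ ℝ) (F : EP E r) (l : ℝ ×ₗ ℝ) : Prop :=
  (∃ m ∈ F.coeff.support, w m = l) ∧ ∀ m ∈ F.coeff.support, w m ≤ l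

theorem exists_top (w : Ex r →+ ℝ ×ₗ ℝ) {F : EP E r} (hF : F ≠ 0) : ∃ l, Top w F l := by
  have h1 : F.coeff.support.Nonempty := by
    rw [Finsupp.support_nonempty_iff]
    intro h
    exact hF (by rwa [← coeff_eq_zero])
  obtain ⟨m, hm, h⟩ := Finset.exists_max_image _ w h1
  exact ⟨w m, ⟨m, hm, rfl⟩, h⟩

theorem Top.ne_zero {w : Ex r →+ ℝ ×ₗ ℝ} {F : EP E r} {l : ℝ ×ₗ ℝ} (h : Top w F l) : F ≠ 0 := by
  rintro rfl
  obtain ⟨⟨m, hm, _⟩, _⟩ := h
  simp at hm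

/-- tie breaking -/
noncomputable def tie (w : Ex r →+ ℝ ×ₗ ℝ) :
    Ex r →+ (ℝ ×ₗ ℝ) ×ₗ ((Lex (Fin r → ℤ)) ×ₗ ℕ) where
  toFun m := toLex (w m, toLex (toLex m.1, m.2))
  map_zero' := by
    rw [map_zero]
    rfl
  map_add' m n := by
    rw [map_add]
    rfl

theorem tie_inj (w : Ex r →+ ℝ ×ₗ ℝ) : Function.Injective (tie w) := by
  intro m n h
  have h1 : (w m, toLex (toLex m.1, m.2)) = (w n, toLex (toLex n.1, n.2)) := h
  have h2 := (Prod.mk.inj h1).2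
  have h3 : (toLex m.1, m.2) = (toLex n.1, n.2) := h2
  obtain ⟨h4, h5⟩ := Prod.mk.inj h3
  exact Prod.ext h4 h5

theorem exists_lead (w : Ex r →+ ℝ ×ₗ ℝ) {F : EP E r} {l : ℝ ×ₗ ℝ} (h : Top w F l) :
    ∃ m ∈ F.coeff.support, w m = l ∧ ∀ a ∈ F.coeff.support, tie w a ≤ tie w m := by
  obtain ⟨⟨m1, hm1, h1⟩, h2⟩ := h
  obtain ⟨m, hm, h3⟩ := Finset.exists_max_image _ (tie w) ⟨m1, hm1⟩
  refine ⟨m, hm, le_antisymm (h2 m hm) ?_, h3⟩
  have h4 := h3 m1 hm1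
  rw [← h1]
  rcases Prod.Lex.le_iff.1 h4 with h5 | h5
  · exact le_of_lt h5
  · exact le_of_eq h5.1

theorem Top.mul {w : Ex r →+ ℝ ×ₗ ℝ} {F G : EP E r} {l l' : ℝ ×ₗ ℝ} (hF : Top w F l)
    (hG : Top w G l') : Top w (F * G) (l + l') := by
  classical
  obtain ⟨m, hm, h1, h2⟩ := exists_lead w hF
  obtain ⟨n, hn, h3, h4⟩ := exists_lead w hG
  obtain ⟨_, h5, _⟩ := lead_mul (tie w) (tie_inj w) hm h2 hn h4
  refine ⟨⟨m + n, h5, by rw [map_add, h1, h3]⟩, fun a ha => ?_⟩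
  obtain ⟨b, hb, c, hc, rfl⟩ := Finset.mem_add.1 (support_coeff_mul_subset F G ha)
  rw [map_add]
  exact add_le_add (hF.2 b hb) (hG.2 c hc)

theorem Top.one (w : Ex r →+ ℝ ×ₗ ℝ) : Top w (1 : EP E r) 0 := by
  classical
  have h1 : ((1 : EP E r).coeff).support = {0} := by
    rw [one_def, coeff_single]
    exact Finsupp.support_single_ne_zero _ one_ne_zero
  refine ⟨⟨0, by rw [h1]; exact Finset.mem_singleton_self _, map_zero _⟩, fun m hm => ?_⟩
  rw [h1, Finset.mem_singleton] at hm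
  rw [hm, map_zero]

theorem Top.prod {w : Ex r →+ ℝ ×ₗ ℝ} {ι : Type} (s : Finset ι) {F : ι → EP E r}
    {l : ι → ℝ ×ₗ ℝ} (h : ∀ i ∈ s, Top w (F i) (l i)) :
    Top w (∏ i ∈ s, F i) (∑ i ∈ s, l i) := by
  classical
  induction s using Finset.induction_on with
  | empty => exact Top.one w
  | insert i s hi ih =>
    rw [Finset.prod_insert hi, Finset.sum_insert hi]
    exact (h i (Finset.mem_insert_self _ _)).mul
      (ih fun j hj => h j (Finset.mem_insert_of_mem hj))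

/-- the base of the exponential with exponent `n` -/
def pg (γ : Fin r → Eˣ) (n : Fin r → ℤ) : Eˣ := ∏ i, γ i ^ n i

theorem pg_add (γ : Fin r → Eˣ) (m n : Fin r → ℤ) : pg γ (m + n) = pg γ m * pg γ n := by
  unfold pg
  rw [← Finset.prod_mul_distrib]
  exact Finset.prod_congr rfl fun i _ => zpow_add _ _ _

theorem pg_zero (γ : Fin r → Eˣ) : pg γ 0 = 1 := by
  unfold pg
  simp

/-- the bases are multiplicatively independent -/
def Ind (γ : Fin r → Eˣ) : Prop := ∀ n : Fin r → ℤ, pg γ n = 1 → n = 0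

theorem Ind.inj {γ : Fin r → Eˣ} (h : Ind γ) {m n : Fin r → ℤ} (hmn : pg γ m = pg γ n) : m = n := by
  have h1 : pg γ (m - n) = 1 := by
    have h2 : pg γ (m - n) * pg γ n = pg γ m := by rw [← pg_add, sub_add_cancel]
    rw [hmn] at h2
    exact mul_eq_right.1 h2
  exact sub_eq_zero.1 (h _ h1)

/-- characters -/
noncomputable def chr (γ : Fin r → Eˣ) : Multiplicative (Ex r) →* (ℕ → E) where
  toFun m := fun t => (t : E) ^ m.toAdd.2 * ((pg γ m.toAdd.1 : Eˣ) : E) ^ t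
  map_one' := by
    funext t
    rw [toAdd_one]
    simp [pg_zero]
  map_mul' m n := by
    funext t
    rw [toAdd_mul, Pi.mul_apply, Prod.fst_add, Prod.snd_add, pg_add, Units.val_mul, pow_add, mul_pow]
    ring

/-- evaluation -/
noncomputable def ev (γ : Fin r → Eˣ) : EP E r →ₐ[E] (ℕ → E) := lift E (ℕ → E) (Ex r) (chr γ)

theorem ev_apply (γ : Fin r → Eˣ) (F : EP E r) (t : ℕ) : ev γ F t =
    ∑ m ∈ F.coeff.support, F.coeff m * ((t : E) ^ m.2 * ((pg γ m.1 : Eˣ) : E) ^ t) := by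
  unfold ev
  rw [lift_apply, Finsupp.sum, Finset.sum_apply]
  rfl

theorem ev_single (γ : Fin r → Eˣ) (m : Ex r) (c : E) (t : ℕ) : ev γ (single m c) t =
    c * ((t : E) ^ m.2 * ((pg γ m.1 : Eˣ) : E) ^ t) := by
  unfold ev
  rw [lift_single]
  rfl

/-- the weights for a complex place -/
noncomputable def wτ (γ : Fin r → Eˣ) (τ : E →+* ℂ) : Ex r →+ ℝ ×ₗ ℝ where
  toFun m := wt (τ (pg γ m.1 : Eˣ)) m.2
  map_zero' := by
    unfold wt
    simp [pg_zero]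
  map_add' m n := by
    unfold wt
    have h1 : τ ((pg γ m.1 : Eˣ) : E) ≠ 0 := by
      rw [map_ne_zero]
      exact Units.ne_zero _
    have h2 : τ ((pg γ n.1 : Eˣ) : E) ≠ 0 := by
      rw [map_ne_zero]
      exact Units.ne_zero _
    rw [Prod.fst_add, Prod.snd_add, pg_add, Units.val_mul, map_mul, norm_mul,
      Real.log_mul (norm_ne_zero_iff.2 h1) (norm_ne_zero_iff.2 h2)]
    push_cast
    rfl

theorem map_ev (γ : Fin r → Eˣ) (τ : E →+* ℂ) (F : EP E r) (t : ℕ) : τ (ev γ F t) =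
    ∑ m ∈ F.coeff.support, τ (F.coeff m) * ((t : ℂ) ^ m.2 * (τ (pg γ m.1 : Eˣ)) ^ t) := by
  rw [ev_apply, map_sum]
  refine Finset.sum_congr rfl fun m _ => ?_
  rw [map_mul, map_mul, map_pow, map_pow, map_natCast]

theorem base_ne (γ : Fin r → Eˣ) (τ : E →+* ℂ) (n : Fin r → ℤ) : τ ((pg γ n : Eˣ) : E) ≠ 0 := by
  rw [map_ne_zero]
  exact Units.ne_zero _

/-- upper bounds -/
theorem ev_upper (γ : Fin r → Eˣ) (τ : E →+* ℂ) {F : EP E r} {l : ℝ ×ₗ ℝ}
    (h : ∀ m ∈ F.coeff.support, wτ γ τ m ≤ l) :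
    ∃ C : ℝ, 0 < C ∧ ∀ t : ℕ, 1 ≤ t → ‖τ (ev γ F t)‖ ≤ C * sz l t := by
  obtain ⟨C, hC, h1⟩ := upper F.coeff.support (fun m => τ (pg γ m.1 : Eˣ))
    (fun m _ => base_ne γ τ m.1) (fun m => m.2) (fun m => τ (F.coeff m)) (l := l) h
  refine ⟨C, hC, fun t ht => ?_⟩
  rw [map_ev]
  exact h1 t ht

/-- lower bounds -/
theorem ev_window {γ : Fin r → Eˣ} (hγ : Ind γ) (τ : E →+* ℂ) {F : EP E r} {l : ℝ ×ₗ ℝ}
    (h : Top (wτ γ τ) F l) :
    ∃ (e : ℝ) (T t0 : ℕ), 0 < e ∧ ∀ t, t0 ≤ t → ∃ s, t ≤ s ∧ s < t + T ∧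
      e * sz l s ≤ ‖τ (ev γ F s)‖ := by
  obtain ⟨⟨m0, hm0, h0⟩, h⟩ := h
  obtain ⟨e, T, t0, he, h1⟩ := window F.coeff.support (fun m => τ (pg γ m.1 : Eˣ))
    (fun m _ => base_ne γ τ m.1) (fun m => m.2) (fun m => τ (F.coeff m))
    (fun m _ n _ h1 h2 => Prod.ext (hγ.inj (Units.ext (τ.injective h1))) h2)
    h hm0 h0 (by
      rw [map_ne_zero]
      exact Finsupp.mem_support_iff.1 hm0)
  refine ⟨e, T, t0, he, fun t ht => ?_⟩
  obtain ⟨s, h2, h3, h4⟩ := h1 t ht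
  refine ⟨s, h2, h3, ?_⟩
  rw [map_ev]
  exact h4

/-- simultaneous lower bounds -/
theorem sim_window {γ : Fin r → Eˣ} (hγ : Ind γ) (τ : E →+* ℂ) {ι : Type} [Fintype ι]
    {F : ι → EP E r} {l : ι → ℝ ×ₗ ℝ} (h : ∀ i, Top (wτ γ τ) (F i) (l i)) :
    ∃ (e : ℝ) (T t0 : ℕ), 0 < e ∧ ∀ t, t0 ≤ t → ∃ s, t ≤ s ∧ s < t + T ∧ 1 ≤ s ∧
      ∀ i, e * sz (l i) s ≤ ‖τ (ev γ (F i) s)‖ := by
  classical
  have h1 : Top (wτ γ τ) (∏ i, F i) (∑ i, l i) := Top.prod Finset.univ fun i _ => h i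
  obtain ⟨e, T, t0, he, h2⟩ := ev_window hγ τ h1
  have h3 : ∀ i, ∃ C : ℝ, 0 < C ∧ ∀ t : ℕ, 1 ≤ t → ‖τ (ev γ (F i) t)‖ ≤ C * sz (l i) t :=
    fun i => ev_upper γ τ (h i).2
  choose C hC h4 using h3
  set C' : ℝ := ∏ i, max (C i) 1 with hC'
  have hC'0 : 0 < C' := Finset.prod_pos fun i _ => lt_max_of_lt_right one_pos
  refine ⟨e / C', T, max t0 1, div_pos he hC'0, fun t ht => ?_⟩
  obtain ⟨s, h5, h6, h7⟩ := h2 t ((le_max_left _ _).trans ht)
  have hs1 : 1 ≤ s := ((le_max_right _ _).trans ht).trans h5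
  refine ⟨s, h5, h6, hs1, fun i => ?_⟩
  rw [map_prod, Finset.prod_apply, map_prod, norm_prod, sz_sum _ _ hs1] at h7
  rw [← Finset.mul_prod_erase _ _ (Finset.mem_univ i),
    ← Finset.mul_prod_erase _ _ (Finset.mem_univ i)] at h7
  set P := ∏ j ∈ Finset.univ.erase i, sz (l j) s with hP
  have hP0 : 0 < P := Finset.prod_pos fun j _ => sz_pos _ hs1
  have h8 : ∏ j ∈ Finset.univ.erase i, ‖τ (ev γ (F j) s)‖ ≤ C' * P := by
    have h9 : ∏ j ∈ Finset.univ.erase i, ‖τ (ev γ (F j) s)‖ ≤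
        ∏ j ∈ Finset.univ.erase i, (max (C j) 1 * sz (l j) s) :=
      Finset.prod_le_prod (fun j _ => norm_nonneg _) fun j _ => (h4 j s hs1).trans
        (mul_le_mul_of_nonneg_right (le_max_left _ _) (sz_nonneg _ _))
    rw [Finset.prod_mul_distrib] at h9
    refine h9.trans (mul_le_mul_of_nonneg_right ?_ hP0.le)
    rw [hC', ← Finset.mul_prod_erase Finset.univ (fun i => max (C i) 1) (Finset.mem_univ i)]
    exact le_mul_of_one_le_left (Finset.prod_nonneg fun j _ => (le_max_of_le_right zero_le_one))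
      (le_max_right _ _)
  have h9 : e * (sz (l i) s * P) ≤ ‖τ (ev γ (F i) s)‖ * (C' * P) :=
    h7.trans (mul_le_mul_of_nonneg_left h8 (norm_nonneg _))
  have h10 : e * sz (l i) s ≤ ‖τ (ev γ (F i) s)‖ * C' := by
    refine le_of_mul_le_mul_right ?_ hP0
    calc e * sz (l i) s * P = e * (sz (l i) s * P) := by ring
      _ ≤ _ := h9
      _ = _ := by ring
  rw [div_mul_eq_mul_div, div_le_iff₀ hC'0]
  exact h10

end Pool.Agent.Q183.AR
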