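import Pool.Agent.Q183.AR.Szp

/-!
Integer linear recurrences: `n` pairwise coprime terms.
-/

set_option autoImplicit false

namespace Pool.Agent.Q183.AR

section affine

variable {R : Type} [CommRing R]

/-- restriction to an arithmetic progression, as a linear map -/
def affL (R : Type) [CommRing R] (M a : ℕ) : (ℕ → R) →ₗ[R] (ℕ → R) where
  toFun f := fun t => f (M * t + a)
  map_add' _ _ := rfl
  map_smul' _ _ := rfl

theorem Rec.aff {f : ℕ → R} (hf : Rec f) (M a : ℕ) : Rec fun t => f (M * t + a) := by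
  obtain ⟨N, hN, hs, hfN⟩ := rec_iff.1 hf
  refine rec_iff.2 ⟨N.map (affL R M a), hN.map _, ?_, ⟨f, hfN, rfl⟩⟩
  rintro _ ⟨w, hw, rfl⟩
  have h1 : ∀ n : ℕ, ∀ w ∈ N, (fun t => w (t + n)) ∈ N := by
    intro n
    induction n with
    | zero => intro w hw; exact hw
    | succ n ih =>
      intro w hw
      have h2 := ih _ (hs w hw)
      have h3 : (fun t => shR R w (t + n)) = fun t => w (t + (n + 1)) := by
        funext t
        change w (t + n + 1) = _
        congr 1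
      rw [← h3]
      exact h2
  refine ⟨fun t => w (t + M), h1 M w hw, ?_⟩
  funext t
  change w (M * t + a + M) = w (M * (t + 1) + a)
  congr 1
  ring

end affine

/-- the terms -/
def T {n : ℕ} {J : Type} [Fintype J] (κ μ : Fin n → ℤ) (g : J → ℕ → ℤ) (e : Fin n → J → ℕ)
    (i : Fin n) (t : ℕ) : ℤ := κ i * μ i ^ t * ∏ j, g j t ^ e i j

variable {n : ℕ} {J : Type} [Fintype J]

theorem T_aff (κ μ : Fin n → ℤ) (g : J → ℕ → ℤ) (e : Fin n → J → ℕ) (M a : ℕ) (i : Fin n) (t : ℕ) :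
    T (fun i => κ i * μ i ^ a) (fun i => μ i ^ M) (fun j t => g j (M * t + a)) e i t =
      T κ μ g e i (M * t + a) := by
  unfold T
  rw [pow_add, pow_mul]
  ring

/-- zero, or almost never zero -/
theorem zero_or {f : ℕ → ℤ} (hf : Rec f) : ∃ M : ℕ, 0 < M ∧ ∀ ρ : ℕ,
    (∃ z, ∀ t, z ≤ t → t ≡ ρ [MOD M] → f t = 0) ∨ AA fun _ s => s ≡ ρ [MOD M] → f s ≠ 0 := by
  obtain ⟨M, hM, h⟩ := intforms (N := 1) one_pos (fun _ => f) (fun _ => hf)
  refine ⟨M, hM, fun ρ => ?_⟩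
  rcases h ρ with ⟨c, z, hc, h1⟩ | h1
  · left
    refine ⟨z, fun t ht htm => ?_⟩
    have h2 := h1 t ht htm
    rw [Fin.sum_univ_one] at h2
    rcases mul_eq_zero.1 h2 with h3 | h3
    · exact absurd (funext fun i => by rw [Subsingleton.elim i 0]; exact h3) hc
    · exact h3
  · right
    exact (h1 1 (by simp)).imp (fun C => C) 0 (fun C hC => hC) fun C s _ _ h2 hs => (h2 hs).1 0

/-- **Dichotomy** for a linear relation between the terms. -/
theorem dich (g : J → ℕ → ℤ) (hg : ∀ j, Rec (g j)) (κ μ : Fin n → ℤ) (hμ : ∀ i, μ i ≠ 0)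
    (e : Fin n → J → ℕ) (c : Fin n → ℤ) (hrel : ∀ t, ∑ i, c i * T κ μ g e i t = 0)
    (il i0 : Fin n) (hil : c il ≠ 0) (hi0 : c i0 ≠ 0) (hne : i0 ≠ il) (x : J → ℕ)
    (hx : ∀ (N : ℕ) (f : Fin N → Fin n), Function.Injective f → (∀ k, c (f k) ≠ 0) →
      N < (Finset.univ.filter fun i => c i ≠ 0).card → ∀ j, ∑ k : Fin N, min (e (f k) j) k ≤ x j)
    (hx0 : ∀ j, x j ≠ 0 → ∃ i, c i ≠ 0 ∧ e i j ≠ 0) :
    ∃ M : ℕ, 0 < M ∧ ∀ ρ : ℕ,
      (∃ (c' : Fin n → ℤ) (z : ℕ), c' il = 0 ∧ (∀ i, c i = 0 → c' i = 0) ∧ c' ≠ 0 ∧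
        ∀ t, z ≤ t → t ≡ ρ [MOD M] → ∑ i, c' i * T κ μ g e i t = 0) ∨
      AA fun C s => s ≡ ρ [MOD M] → (∀ i, c i ≠ 0 → T κ μ g e i s ≠ 0) ∧
        ∀ v : Fin n → ℤ, ∑ i, v i * (c i * T κ μ g e i s) ≠ 0 →
          ∀ i, c i ≠ 0 → |(T κ μ g e i s : ℝ)| ≤
            C * |((∑ i, v i * (c i * T κ μ g e i s) : ℤ) : ℝ)| * ∏ j, |(g j s : ℝ)| ^ x j := by
  classical
  set S := Finset.univ.filter fun i => c i ≠ 0 with hS
  have hilS : il ∈ S := Finset.mem_filter.2 ⟨Finset.mem_univ _, hil⟩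
  have hi0S : i0 ∈ S := Finset.mem_filter.2 ⟨Finset.mem_univ _, hi0⟩
  obtain ⟨N, hN⟩ : ∃ N, S.card = N + 1 := Nat.exists_eq_succ_of_ne_zero
    (Finset.card_ne_zero.2 ⟨il, hilS⟩)
  have hNpos : 0 < N := by
    have : 1 < S.card := Finset.one_lt_card.2 ⟨i0, hi0S, il, hilS, hne⟩
    omega
  obtain ⟨f, hf⟩ : ∃ f : Fin (N + 1) ≃ S, f (Fin.last N) = ⟨il, hilS⟩ := by
    let f0 : Fin (N + 1) ≃ S := (Finset.equivFinOfCardEq hN).symm
    refine ⟨(Equiv.swap (Fin.last N) (f0.symm ⟨il, hilS⟩)).trans f0, ?_⟩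
    simp
  have hcf : ∀ k, c (f k) ≠ 0 := fun k => (Finset.mem_filter.1 (f k).2).2
  have hsumS : ∀ u : Fin n → ℤ, (∀ i, c i = 0 → u i = 0) → ∑ k, u (f k) = ∑ i, u i := by
    intro u hu
    rw [Equiv.sum_comp f fun i : S => u i, Finset.sum_coe_sort S u]
    refine Finset.sum_subset (Finset.subset_univ _) fun i _ hi => hu i ?_
    by_contra hcon
    exact hi (Finset.mem_filter.2 ⟨Finset.mem_univ _, hcon⟩)
  have hterm : ∀ k t, (c (f k) * κ (f k)) * μ (f k) ^ t * ∏ j, g j t ^ e (f k) j =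
      c (f k) * T κ μ g e (f k) t := by
    intro k t
    unfold T
    ring
  obtain ⟨M, hM, h⟩ := intabc hNpos g hg (fun k => c (f k) * κ (f k)) (fun k => μ (f k))
    (fun k => hμ _) (fun k => e (f k)) (fun _ => 0) x (fun _ _ => Nat.zero_le _) Set.univ (by
      intro i1 _ j σ
      simp only [Nat.sub_zero]
      refine hx N (fun k => f (i1.succAbove (σ k))) (fun a b hab => ?_) (fun k => hcf _)
        (by omega) j
      exact σ.injective (Fin.succAbove_right_injective (f.injective (Subtype.ext hab)))) (by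
      intro j hj
      obtain ⟨i, hi, hij⟩ := hx0 j hj
      have hiS : i ∈ S := Finset.mem_filter.2 ⟨Finset.mem_univ _, hi⟩
      refine ⟨f.symm ⟨i, hiS⟩, ?_⟩
      rw [Equiv.apply_symm_apply]
      exact hij) (by
      intro t
      simp only [hterm]
      rw [hsumS (fun i => c i * T κ μ g e i t) (fun i hi => by rw [hi, zero_mul])]
      exact hrel t)
  refine ⟨M, hM, fun ρ => ?_⟩
  rcases h ρ with ⟨w, z, hw0, hw1, hw2⟩ | h1
  · left
    let c' : Fin n → ℤ := fun i => if hi : c i ≠ 0 then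
      w (f.symm ⟨i, Finset.mem_filter.2 ⟨Finset.mem_univ _, hi⟩⟩) * c i else 0
    have hc'f : ∀ k, c' (f k) = w k * c (f k) := by
      intro k
      simp only [c']
      rw [dif_pos (hcf k)]
      congr 2
      have : (⟨(f k : Fin n), Finset.mem_filter.2 ⟨Finset.mem_univ _, hcf k⟩⟩ : S) = f k := rfl
      rw [this, Equiv.symm_apply_apply]
    have hc'0 : ∀ i, c i = 0 → c' i = 0 := fun i hi => dif_neg (not_not.2 hi)
    refine ⟨c', z, ?_, hc'0, ?_, fun t ht htm => ?_⟩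
    · have h2 := hc'f (Fin.last N)
      rw [hf, hw0, zero_mul] at h2
      exact h2
    · intro h0
      apply hw1
      funext k
      have h2 := congrFun h0 (f k)
      rw [hc'f] at h2
      exact (mul_eq_zero.1 h2).resolve_right (hcf k)
    · have h2 := hw2 t ht htm
      simp only [hterm] at h2
      rw [← hsumS (fun i => c' i * T κ μ g e i t) (fun i hi => by rw [hc'0 i hi, zero_mul]), ← h2]
      refine Finset.sum_congr rfl fun k _ => ?_
      simp only [hc'f]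
      ring
  · right
    refine h1.imp (fun C => C) 0 (fun C hC => hC) fun C s hC _ h2 hs => ?_
    obtain ⟨h3, h4⟩ := h2 hs
    simp only [hterm] at h3 h4
    refine ⟨fun i hi => ?_, fun v hv i hi => ?_⟩
    · have h5 := h3 (f.symm ⟨i, Finset.mem_filter.2 ⟨Finset.mem_univ _, hi⟩⟩)
      rw [Equiv.apply_symm_apply] at h5
      exact right_ne_zero_of_mul h5
    · have h5 : ∑ k, v (f k) * (c (f k) * T κ μ g e (f k) s) = ∑ i, v i * (c i * T κ μ g e i s) :=
        hsumS (fun i => v i * (c i * T κ μ g e i s)) (fun i hi => by rw [hi, zero_mul, mul_zero])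
      have h6 := h4 (fun k => v (f k)) (fun _ hi => absurd (Set.mem_univ _) hi) (by rw [h5]; exact hv)
        (f.symm ⟨i, Finset.mem_filter.2 ⟨Finset.mem_univ _, hi⟩⟩)
      rw [h5, Equiv.apply_symm_apply] at h6
      refine le_trans ?_ h6
      rw [Int.cast_mul, abs_mul]
      exact le_mul_of_one_le_left (abs_nonneg _) (by exact_mod_cast Int.one_le_abs hi)

end Pool.Agent.Q183.AR
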