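import Pool.Agent.Q183.AR.Wr

/-!
The inequality for exponential polynomials over a Galois number field.
-/

set_option autoImplicit false

namespace Pool.Agent.Q183.AR

open AddMonoidAlgebra Filter

variable {L : Type} [Field L] [NumberField L] [IsGalois ℚ L] {r N : ℕ}

/-- the absolute value of the norm -/
noncomputable def Nm (τ0 : L →+* ℂ) (x : L) : ℝ := ∏ φ : L ≃ₐ[ℚ] L, ‖τ0 (φ x)‖

omit [IsGalois ℚ L] in
theorem Nm_mul (τ0 : L →+* ℂ) (x y : L) : Nm τ0 (x * y) = Nm τ0 x * Nm τ0 y := by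
  unfold Nm
  rw [← Finset.prod_mul_distrib]
  exact Finset.prod_congr rfl fun φ _ => by rw [map_mul, map_mul, norm_mul]

omit [IsGalois ℚ L] in
theorem Nm_one (τ0 : L →+* ℂ) : Nm τ0 1 = 1 := by
  unfold Nm
  simp

omit [IsGalois ℚ L] in
theorem Nm_nonneg (τ0 : L →+* ℂ) (x : L) : 0 ≤ Nm τ0 x :=
  Finset.prod_nonneg fun _ _ => norm_nonneg _

omit [IsGalois ℚ L] in
theorem Nm_pos (τ0 : L →+* ℂ) {x : L} (hx : x ≠ 0) : 0 < Nm τ0 x :=
  Finset.prod_pos fun φ _ => norm_pos_iff.2 (by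
    rw [map_ne_zero, map_ne_zero]
    exact hx)

omit [IsGalois ℚ L] in
theorem Nm_pow (τ0 : L →+* ℂ) (x : L) (n : ℕ) : Nm τ0 (x ^ n) = Nm τ0 x ^ n := by
  induction n with
  | zero => rw [pow_zero, pow_zero, Nm_one]
  | succ n ih => rw [pow_succ, pow_succ, Nm_mul, ih]

omit [IsGalois ℚ L] in
theorem Nm_prod (τ0 : L →+* ℂ) {ι : Type} (s : Finset ι) (x : ι → L) :
    Nm τ0 (∏ i ∈ s, x i) = ∏ i ∈ s, Nm τ0 (x i) := by
  classical
  induction s using Finset.induction_on with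
  | empty => rw [Finset.prod_empty, Finset.prod_empty, Nm_one]
  | insert i s hi ih => rw [Finset.prod_insert hi, Finset.prod_insert hi, Nm_mul, ih]

theorem Nm_eq (τ0 : L →+* ℂ) (x : L) : Nm τ0 x = |((Algebra.norm ℚ x : ℚ) : ℝ)| := by
  unfold Nm
  rw [← norm_prod, ← map_prod, ← Algebra.norm_eq_prod_automorphisms ℚ x]
  have h1 : τ0 (algebraMap ℚ L (Algebra.norm ℚ x)) = ((Algebra.norm ℚ x : ℚ) : ℂ) := by
    rw [eq_ratCast, map_ratCast]
  rw [h1]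
  have h2 : ((Algebra.norm ℚ x : ℚ) : ℂ) = (((Algebra.norm ℚ x : ℚ) : ℝ) : ℂ) := by
    push_cast
    rfl
  rw [h2, Complex.norm_real, Real.norm_eq_abs]

theorem one_le_Nm (τ0 : L →+* ℂ) {x : L} (hx : IsIntegral ℤ x) (h0 : x ≠ 0) : 1 ≤ Nm τ0 x := by
  rw [Nm_eq]
  have h1 : IsIntegral ℤ (Algebra.norm ℚ x) := Algebra.isIntegral_norm ℚ hx
  obtain ⟨z, hz⟩ := IsIntegrallyClosed.isIntegral_iff.1 h1
  have h2 : Algebra.norm ℚ x ≠ 0 := Algebra.norm_ne_zero_iff.2 h0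
  rw [← hz] at h2 ⊢
  have h3 : z ≠ 0 := by
    rintro rfl
    simp at h2
  have h4 : ((algebraMap ℤ ℚ z : ℚ) : ℝ) = (z : ℝ) := by simp
  rw [h4]
  exact_mod_cast Int.one_le_abs h3

/-- **The inequality.** -/
theorem core {γ : Fin r → Lˣ} (hγ : Ind γ) (τ0 : L →+* ℂ) {J : Type} [Fintype J]
    (G : (L ≃ₐ[ℚ] L) → J → EP L r) (U : (L ≃ₐ[ℚ] L) → Fin (N + 1) → EP L r)
    (hG : ∀ j, G 1 j ∈ Bi γ)
    (hU : ∀ (ℓ : Ex r →+ ℤ) i, ∃ u : ℤ, D ℓ (U 1 i) = (u : EP L r) * U 1 i)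
    (hGφ : ∀ φ j t, ev γ (G φ j) t = φ (ev γ (G 1 j) t))
    (hUφ : ∀ φ i t, ev γ (U φ i) t = φ (ev γ (U 1 i) t))
    (e : Fin (N + 1) → J → ℕ) (x : J → ℕ) (I0 : Set (Fin (N + 1)))
    (hx : ∀ i0 ∈ I0, ∀ j, ∀ σ : Equiv.Perm (Fin N),
      ∑ k : Fin N, min (e (i0.succAbove (σ k)) j) k ≤ x j)
    (hx0 : ∀ j, x j ≠ 0 → ∃ i, e i j ≠ 0)
    (hsum : ∑ i, U 1 i * ∏ j, G 1 j ^ e i j = 0)
    (hne : ∀ i, U 1 i * ∏ j, G 1 j ^ e i j ≠ 0)
    (hind : LinearIndependent L fun k : Fin N =>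
      U 1 ((Fin.last N).succAbove k) * ∏ j, G 1 j ^ e ((Fin.last N).succAbove k) j) :
    ∃ (C : ℝ) (T t0 : ℕ), 0 < C ∧ ∀ t, t0 ≤ t → ∃ s, t ≤ s ∧ s < t + T ∧
      (∀ i, ev γ (U 1 i) s * ∏ j, ev γ (G 1 j) s ^ e i j ≠ 0) ∧
      ∀ v : Fin (N + 1) → L, (∀ i, IsIntegral ℤ (v i)) → (∀ i, i ∉ I0 → v i = 0) →
        ∑ i, v i * (ev γ (U 1 i) s * ∏ j, ev γ (G 1 j) s ^ e i j) ≠ 0 →
        ∀ κ : (L ≃ₐ[ℚ] L) → Fin (N + 1),
          ∏ φ : L ≃ₐ[ℚ] L, ‖τ0 (φ (ev γ (U 1 (κ φ)) s * ∏ j, ev γ (G 1 j) s ^ e (κ φ) j))‖ ≤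
            C * Nm τ0 (∑ i, v i * (ev γ (U 1 i) s * ∏ j, ev γ (G 1 j) s ^ e i j)) *
              ∏ j, Nm τ0 (ev γ (G 1 j) s) ^ x j := by
  classical
  set A : (L ≃ₐ[ℚ] L) → Fin (N + 1) → EP L r := fun φ i => U φ i * ∏ j, G φ j ^ e i j with hAdef
  set a : Fin (N + 1) → ℕ → L := fun i s => ev γ (U 1 i) s * ∏ j, ev γ (G 1 j) s ^ e i j with ha
  have hev1 : ∀ φ i s, ev γ (A φ i) s = φ (a i s) := by
    intro φ i s
    simp only [hAdef, ha, map_mul, map_prod, map_pow, Pi.mul_apply, Finset.prod_apply, Pi.pow_apply,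
      hGφ φ, hUφ φ]
  have hev2 : ∀ i s, ev γ (A 1 i) s = a i s := fun i s => by rw [hev1]; rfl
  -- tops
  have hAne : ∀ φ i, A φ i ≠ 0 := by
    intro φ i h0
    obtain ⟨l, hl⟩ := exists_top (wτ γ τ0) (hne i)
    obtain ⟨c, T, t0, hc, h1⟩ := ev_window hγ τ0 hl
    obtain ⟨s, h2, h3, h4⟩ := h1 (max t0 1) (le_max_left _ _)
    have h5 : 0 < c * sz l s := mul_pos hc (sz_pos _ ((le_max_right _ _).trans h2))
    have h6 : ev γ (A φ i) s = 0 := by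
      rw [h0, map_zero]
      rfl
    rw [hev1, EmbeddingLike.map_eq_zero_iff] at h6
    have h7 : ev γ (U 1 i * ∏ j, G 1 j ^ e i j) s = 0 := (hev2 i s).trans h6
    rw [h7, map_zero, norm_zero] at h4
    linarith
  choose lf hlf using fun φ i => exists_top (wτ γ τ0) (hAne φ i)
  choose lt hlt using fun (φ : L ≃ₐ[ℚ] L) i =>
    exists_top (wτ γ (τ0.comp (φ : L →+* L))) (hAne 1 i)
  have hle : ∀ φ i, lt φ i ≤ lf φ i := by
    intro φ i
    obtain ⟨c, T, t0, hc, h1⟩ := ev_window hγ (τ0.comp (φ : L →+* L)) (hlt φ i)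
    obtain ⟨C, hC, h2⟩ := ev_upper γ τ0 (hlf φ i).2
    refine le_of_sz (c := c / C) (div_pos hc hC) ?_
    rw [frequently_atTop]
    intro t
    obtain ⟨s, h3, h4, h5⟩ := h1 (max (max t0 1) t) ((le_max_left _ _).trans (le_max_left _ _))
    refine ⟨s, (le_max_right _ _).trans h3, ?_⟩
    have h6 := h2 s (((le_max_right _ _).trans (le_max_left _ _)).trans h3)
    have h7 : (τ0.comp (φ : L →+* L)) (ev γ (A 1 i) s) = τ0 (ev γ (A φ i) s) := by
      rw [hev2, hev1]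
      rfl
    rw [h7] at h5
    rw [div_mul_eq_mul_div, div_le_iff₀ hC, mul_comm (sz _ s) C]
    exact h5.trans h6
  -- the Wronskian
  obtain ⟨ℓ, hℓ⟩ := exists_sep (Finset.univ.biUnion fun i => (A 1 i).coeff.support)
  set W := Wi ℓ (A 1) (Fin.last N) with hW
  have hWne : W ≠ 0 := by
    rw [hW, Wi]
    exact wr_ne (A := fun k : Fin N => A 1 ((Fin.last N).succAbove k)) hind
      (S := Finset.univ.biUnion fun i => (A 1 i).coeff.support)
      (fun i => Finset.subset_biUnion_of_mem (fun i => (A 1 i).coeff.support) (Finset.mem_univ _)) hℓ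
  choose sg hsg using fun i0 => Wi_sign ℓ (A := A 1) hsum (Fin.last N) i0
  obtain ⟨lW, hlW⟩ := exists_top (wτ γ τ0) hWne
  -- windows
  obtain ⟨c, T, t0, hc, hwin⟩ := sim_window hγ τ0
    (ι := ((L ≃ₐ[ℚ] L) × Fin (N + 1)) ⊕ Unit)
    (F := Sum.elim (fun p => A p.1 p.2) fun _ => W)
    (l := Sum.elim (fun p => lf p.1 p.2) fun _ => lW) (by
      rintro (p | _)
      · exact hlf p.1 p.2
      · exact hlW)
  -- divisibility
  have hH : ∀ i0, ∃ H ∈ Bi γ, i0 ∈ I0 → (∏ j, G 1 j ^ x j) * Wi ℓ (A 1) i0 =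
      (∏ k : Fin N, A 1 (i0.succAbove k)) * H := by
    intro i0
    by_cases hi0 : i0 ∈ I0
    · obtain ⟨H, h1, h2⟩ := Wi_dvd ℓ hG (hU ℓ) e x (hx i0 hi0)
      exact ⟨H, h1, fun _ => h2⟩
    · exact ⟨0, zero_mem _, fun h => absurd h hi0⟩
  choose H hHB hH using hH
  choose d hd0 hd using fun i0 => Bi_int (hHB i0)
  set d' : ℤ := ∏ i, d i with hd'
  have hd'0 : d' ≠ 0 := Finset.prod_ne_zero_iff.2 fun i _ => hd0 i
  have hd'' : ∀ i t, IsIntegral ℤ ((d' : L) * ev γ (H i) t) := by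
    intro i t
    have h1 : (d' : L) = ((∏ k ∈ Finset.univ.erase i, d k : ℤ) : L) * (d i : L) := by
      rw [hd', ← Finset.mul_prod_erase _ _ (Finset.mem_univ i)]
      push_cast
      ring
    rw [h1, mul_assoc]
    exact (isIntegral_algebraMap (R := ℤ) (x := (∏ k ∈ Finset.univ.erase i, d k : ℤ))).mul (hd i t)
  -- upper bounds
  have hmax : ∀ φ, ∃ i0, ∀ i, lf φ i ≤ lf φ i0 := by
    intro φ
    obtain ⟨i0, _, h⟩ := Finset.exists_max_image (Finset.univ : Finset (Fin (N + 1))) (lf φ)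
      ⟨0, Finset.mem_univ _⟩
    exact ⟨i0, fun i => h i (Finset.mem_univ _)⟩
  choose i0 hi0 using hmax
  have hWub : ∀ φ : L ≃ₐ[ℚ] L, ∃ C : ℝ, 0 < C ∧ ∀ t : ℕ, 1 ≤ t →
      ‖τ0 (φ (ev γ W t))‖ ≤ C * ∏ k : Fin N, sz (lf φ ((i0 φ).succAbove k)) t := by
    intro φ
    have h1 : Ble (wτ γ (τ0.comp (φ : L →+* L))) W (∑ k, lt φ ((i0 φ).succAbove k)) := by
      rw [hW, hsg (i0 φ)]
      exact (Ble.Wi ℓ (fun i => (hlt φ i).2) (i0 φ)).units_smul _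
    have h2 : Ble (wτ γ (τ0.comp (φ : L →+* L))) W (∑ k, lf φ ((i0 φ).succAbove k)) :=
      fun m hm => (h1 m hm).trans (Finset.sum_le_sum fun k _ => hle φ _)
    obtain ⟨C, hC, h3⟩ := ev_upper γ _ h2
    refine ⟨C, hC, fun t ht => ?_⟩
    rw [← sz_sum _ _ ht]
    exact h3 t ht
  choose CW hCW0 hCW using hWub
  have hAub : ∀ φ i, ∃ C : ℝ, 0 < C ∧ ∀ t : ℕ, 1 ≤ t →
      ‖τ0 (φ (a i t))‖ ≤ C * sz (lf φ (i0 φ)) t := by
    intro φ i
    obtain ⟨C, hC, h1⟩ := ev_upper γ τ0 (F := A φ i) (l := lf φ (i0 φ))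
      (fun m hm => ((hlf φ i).2 m hm).trans (hi0 φ i))
    refine ⟨C, hC, fun t ht => ?_⟩
    rw [← hev1]
    exact h1 t ht
  choose CA hCA0 hCA using hAub
  -- conclusion
  set n := Fintype.card (L ≃ₐ[ℚ] L) with hn
  set K1 : ℝ := ∏ φ : L ≃ₐ[ℚ] L, ∑ i, CA φ i with hK1
  set K2 : ℝ := (∏ φ : L ≃ₐ[ℚ] L, CW φ) * Nm τ0 (d' : L) / (∏ _φ : L ≃ₐ[ℚ] L, c ^ (N + 1)) with hK2
  have hK10 : 0 < K1 := Finset.prod_pos fun φ _ => Finset.sum_pos (fun i _ => hCA0 φ i)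
    ⟨0, Finset.mem_univ _⟩
  have hd'L : (d' : L) ≠ 0 := by exact_mod_cast hd'0
  have hK20 : 0 < K2 := div_pos (mul_pos (Finset.prod_pos fun φ _ => hCW0 φ) (Nm_pos τ0 hd'L))
    (Finset.prod_pos fun _ _ => pow_pos hc _)
  refine ⟨K1 * K2, T, t0, mul_pos hK10 hK20, fun t ht => ?_⟩
  obtain ⟨s, hs1, hs2, hs3, hs4⟩ := hwin t ht
  have hlow : ∀ φ i, c * sz (lf φ i) s ≤ ‖τ0 (φ (a i s))‖ := by
    intro φ i
    have h1 := hs4 (Sum.inl (φ, i))
    simp only [Sum.elim_inl] at h1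
    rwa [hev1] at h1
  have hWs : ev γ W s ≠ 0 := by
    intro h0
    have h1 := hs4 (Sum.inr ())
    simp only [Sum.elim_inr] at h1
    rw [h0, map_zero, norm_zero] at h1
    have := mul_pos hc (sz_pos lW hs3)
    linarith
  have has : ∀ i, a i s ≠ 0 := by
    intro i h0
    have h1 := hlow 1 i
    rw [h0, map_zero, map_zero, norm_zero] at h1
    have := mul_pos hc (sz_pos (lf 1 i) hs3)
    linarith
  refine ⟨s, hs1, hs2, has, fun v hv hv0 hδ κ => ?_⟩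
  set δ := ∑ i, v i * a i s with hδdef
  set g : J → L := fun j => ev γ (G 1 j) s with hg
  have hgne : ∀ j, g j ^ x j ≠ 0 := by
    intro j
    by_cases hxj : x j = 0
    · rw [hxj, pow_zero]
      exact one_ne_zero
    · obtain ⟨i, hi⟩ := hx0 j hxj
      have h1 := has i
      simp only [ha] at h1
      have h2 := Finset.prod_ne_zero_iff.1 (right_ne_zero_of_mul h1) j (Finset.mem_univ j)
      exact pow_ne_zero _ (fun h3 => h2 (by
        change g j ^ e i j = 0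
        rw [h3, zero_pow hi]))
  -- the main identity
  set y : L := ∑ i, v i * (sg i • ev γ (H i) s) with hy
  have hid : δ * (∏ j, g j ^ x j) * ev γ W s = (∏ i, a i s) * y := by
    rw [hδdef, Finset.sum_mul, Finset.sum_mul, hy, Finset.mul_sum]
    refine Finset.sum_congr rfl fun i _ => ?_
    by_cases hi : i ∈ I0
    · have h1 := congrArg (fun F => ev γ F s) (hH i hi)
      simp only [map_mul, map_prod, map_pow, Pi.mul_apply, Finset.prod_apply, Pi.pow_apply,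
        hev2] at h1
      have h2 : ev γ W s = sg i • ev γ (Wi ℓ (A 1) i) s := by
        rw [hW, hsg i]
        rcases Int.units_eq_one_or (sg i) with h | h
        · rw [h, one_smul, one_smul]
        · rw [h, Units.neg_smul, one_smul, Units.neg_smul, one_smul, map_neg]
          rfl
      have h3 : ∏ i, a i s = a i s * ∏ k : Fin N, a (i.succAbove k) s :=
        Fin.prod_univ_succAbove _ i
      rw [h2, h3]
      rcases Int.units_eq_one_or (sg i) with h | h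
      · rw [h, one_smul, one_smul]
        linear_combination (v i * a i s) * h1
      · rw [h, Units.neg_smul, one_smul, Units.neg_smul, one_smul]
        linear_combination (-(v i * a i s)) * h1
    · rw [hv0 i hi]
      ring
  have hyne : y ≠ 0 := by
    intro h0
    rw [h0, mul_zero] at hid
    exact mul_ne_zero (mul_ne_zero hδ (Finset.prod_ne_zero_iff.2 fun j _ => hgne j)) hWs hid
  have hyint : IsIntegral ℤ ((d' : L) * y) := by
    rw [hy, Finset.mul_sum]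
    refine IsIntegral.sum _ fun i _ => ?_
    rcases Int.units_eq_one_or (sg i) with h | h
    · rw [h, one_smul]
      have : (d' : L) * (v i * ev γ (H i) s) = v i * (d' * ev γ (H i) s) := by ring
      rw [this]
      exact (hv i).mul (hd'' i s)
    · rw [h, Units.neg_smul, one_smul]
      have : (d' : L) * (v i * -ev γ (H i) s) = -(v i * (d' * ev γ (H i) s)) := by ring
      rw [this]
      exact ((hv i).mul (hd'' i s)).neg
  have hN1 : Nm τ0 (∏ i, a i s) ≤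
      Nm τ0 δ * (∏ j, Nm τ0 (g j) ^ x j) * Nm τ0 (d' : L) * Nm τ0 (ev γ W s) := by
    have h1 := congrArg (fun z => Nm τ0 (z * (d' : L))) hid
    simp only [Nm_mul, Nm_prod, Nm_pow] at h1
    have h2 := one_le_Nm τ0 hyint (mul_ne_zero hd'L hyne)
    rw [Nm_mul] at h2
    have h3 : 0 ≤ ∏ i, Nm τ0 (a i s) := Finset.prod_nonneg fun i _ => Nm_nonneg _ _
    rw [Nm_prod]
    calc ∏ i, Nm τ0 (a i s) ≤ (∏ i, Nm τ0 (a i s)) * (Nm τ0 (d' : L) * Nm τ0 y) :=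
          le_mul_of_one_le_right h3 h2
      _ = (∏ i, Nm τ0 (a i s)) * Nm τ0 y * Nm τ0 (d' : L) := by ring
      _ = _ := by
        rw [← h1]
        ring
  -- lower bound for the product
  have hN2 : (∏ _φ : L ≃ₐ[ℚ] L, c ^ (N + 1)) * ∏ φ, ∏ i, sz (lf φ i) s ≤ Nm τ0 (∏ i, a i s) := by
    unfold Nm
    rw [← Finset.prod_mul_distrib]
    refine Finset.prod_le_prod (fun φ _ => mul_nonneg (pow_nonneg hc.le _)
      (Finset.prod_nonneg fun i _ => sz_nonneg _ _)) fun φ _ => ?_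
    rw [map_prod, map_prod, norm_prod]
    have h1 : c ^ (N + 1) * ∏ i, sz (lf φ i) s = ∏ i, (c * sz (lf φ i) s) := by
      rw [Finset.prod_mul_distrib, Finset.prod_const, Finset.card_univ, Fintype.card_fin]
    rw [h1]
    exact Finset.prod_le_prod (fun i _ => mul_nonneg hc.le (sz_nonneg _ _)) fun i _ => hlow φ i
  have hN3 : Nm τ0 (ev γ W s) ≤ (∏ φ, CW φ) * ∏ φ, ∏ k : Fin N, sz (lf φ ((i0 φ).succAbove k)) s := by
    unfold Nm
    rw [← Finset.prod_mul_distrib]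
    exact Finset.prod_le_prod (fun φ _ => norm_nonneg _) fun φ _ => hCW φ s hs3
  have hsplit : ∏ φ, ∏ i, sz (lf φ i) s =
      (∏ φ, sz (lf φ (i0 φ)) s) * ∏ φ, ∏ k : Fin N, sz (lf φ ((i0 φ).succAbove k)) s := by
    rw [← Finset.prod_mul_distrib]
    exact Finset.prod_congr rfl fun φ _ => Fin.prod_univ_succAbove _ (i0 φ)
  set P := ∏ φ : L ≃ₐ[ℚ] L, ∏ k : Fin N, sz (lf φ ((i0 φ).succAbove k)) s with hP
  have hP0 : 0 < P := Finset.prod_pos fun φ _ => Finset.prod_pos fun k _ => sz_pos _ hs3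
  set Q := ∏ φ : L ≃ₐ[ℚ] L, sz (lf φ (i0 φ)) s with hQ
  have hcc : 0 < ∏ _φ : L ≃ₐ[ℚ] L, c ^ (N + 1) := Finset.prod_pos fun _ _ => pow_pos hc _
  set R := Nm τ0 δ * ∏ j, Nm τ0 (g j) ^ x j with hR
  have hR0 : 0 ≤ R := mul_nonneg (Nm_nonneg _ _) (Finset.prod_nonneg fun j _ =>
    pow_nonneg (Nm_nonneg _ _) _)
  have hQ1 : Q ≤ K2 * R := by
    rw [hsplit] at hN2
    have h1 : (∏ _φ : L ≃ₐ[ℚ] L, c ^ (N + 1)) * (Q * P) ≤
        R * Nm τ0 (d' : L) * ((∏ φ, CW φ) * P) :=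
      hN2.trans (hN1.trans (mul_le_mul_of_nonneg_left hN3
        (mul_nonneg hR0 (Nm_nonneg _ _))))
    have h2 : (∏ _φ : L ≃ₐ[ℚ] L, c ^ (N + 1)) * Q ≤ R * Nm τ0 (d' : L) * ∏ φ, CW φ := by
      refine le_of_mul_le_mul_right ?_ hP0
      calc _ = (∏ _φ : L ≃ₐ[ℚ] L, c ^ (N + 1)) * (Q * P) := by ring
        _ ≤ _ := h1
        _ = _ := by ring
    rw [hK2, div_mul_eq_mul_div, le_div_iff₀ hcc]
    calc Q * _ = (∏ _φ : L ≃ₐ[ℚ] L, c ^ (N + 1)) * Q := by ring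
      _ ≤ _ := h2
      _ = _ := by ring
  have hfin : ∏ φ : L ≃ₐ[ℚ] L, ‖τ0 (φ (a (κ φ) s))‖ ≤ K1 * Q := by
    rw [hK1, hQ, ← Finset.prod_mul_distrib]
    refine Finset.prod_le_prod (fun φ _ => norm_nonneg _) fun φ _ => (hCA φ (κ φ) s hs3).trans ?_
    exact mul_le_mul_of_nonneg_right (Finset.single_le_sum (f := fun i => CA φ i)
      (fun i _ => (hCA0 φ i).le) (Finset.mem_univ _)) (sz_nonneg _ _)
  calc _ ≤ K1 * Q := hfin
    _ ≤ K1 * (K2 * R) := mul_le_mul_of_nonneg_left hQ1 hK10.le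
    _ = _ := by
      rw [hR]
      ring

end Pool.Agent.Q183.AR
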