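import Pool.Agent.Q183.AR.Win

/-!
Growth of sums of exponentials with polynomial coefficients: lower bounds for almost all arguments.
-/

set_option autoImplicit false

namespace Pool.Agent.Q183.AR

open Filter Topology

/-- the number of the `s` in `[t, t + n)` for which `P s` fails -/
noncomputable def fails (P : ℕ → Prop) (t n : ℕ) : ℕ := {s | t ≤ s ∧ s < t + n ∧ ¬ P s}.ncard

theorem fails_fin (P : ℕ → Prop) (t n : ℕ) : {s | t ≤ s ∧ s < t + n ∧ ¬ P s}.Finite :=
  (Set.finite_Ico t (t + n)).subset fun _ hs => ⟨hs.1, hs.2.1⟩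

theorem fails_mono {P Q : ℕ → Prop} {t n : ℕ} (h : ∀ s, t ≤ s → s < t + n → Q s → P s) :
    fails P t n ≤ fails Q t n :=
  Set.ncard_le_ncard (fun s hs => ⟨hs.1, hs.2.1, fun hQ => hs.2.2 (h s hs.1 hs.2.1 hQ)⟩)
    (fails_fin Q t n)

theorem lb {α : Type} (S : Finset α) (f : α → ℝ) (h : ∀ a ∈ S, 0 < f a) :
    ∃ c : ℝ, 0 < c ∧ ∀ a ∈ S, c ≤ f a := by
  classical
  induction S using Finset.induction_on with
  | empty => exact ⟨1, one_pos, fun a ha => absurd ha (Finset.notMem_empty a)⟩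
  | insert a S ha ih =>
    obtain ⟨c, hc, h1⟩ := ih fun b hb => h b (Finset.mem_insert_of_mem hb)
    refine ⟨min c (f a), lt_min hc (h a (Finset.mem_insert_self _ _)), fun b hb => ?_⟩
    rcases Finset.mem_insert.1 hb with rfl | hb
    · exact min_le_right _ _
    · exact (min_le_left _ _).trans (h1 b hb)

/-- a set with few pairs of elements at small distance is small -/
theorem few_pairs (B : Finset ℕ) (t n m : ℕ) (hB : ∀ s ∈ B, t ≤ s ∧ s < t + n) (K : ℝ)
    (hK : ∀ d, 1 ≤ d → d ≤ m → ((B.filter fun s => s + d ∈ B).card : ℝ) ≤ K) :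
    (B.card : ℝ) ≤ n / (m + 1 : ℝ) + 1 + m * K := by
  classical
  set B1 := B.filter fun s => ∃ d, 1 ≤ d ∧ d ≤ m ∧ s + d ∈ B with hB1
  set B2 := B.filter fun s => ¬ ∃ d, 1 ≤ d ∧ d ≤ m ∧ s + d ∈ B with hB2
  have h0 : B.card = B1.card + B2.card := (Finset.card_filter_add_card_filter_not _).symm
  have h1 : (B1.card : ℝ) ≤ m * K := by
    have h2 : B1 ⊆ (Finset.Icc 1 m).biUnion fun d => B.filter fun s => s + d ∈ B := by
      intro s hs
      obtain ⟨h3, d, h4, h5, h6⟩ := Finset.mem_filter.1 hs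
      exact Finset.mem_biUnion.2 ⟨d, Finset.mem_Icc.2 ⟨h4, h5⟩, Finset.mem_filter.2 ⟨h3, h6⟩⟩
    have h3 : B1.card ≤ ∑ d ∈ Finset.Icc 1 m, (B.filter fun s => s + d ∈ B).card :=
      (Finset.card_le_card h2).trans Finset.card_biUnion_le
    calc (B1.card : ℝ) ≤ ((∑ d ∈ Finset.Icc 1 m, (B.filter fun s => s + d ∈ B).card : ℕ) : ℝ) := by
          exact_mod_cast h3
      _ = ∑ d ∈ Finset.Icc 1 m, ((B.filter fun s => s + d ∈ B).card : ℝ) := by push_cast; rfl
      _ ≤ ∑ _d ∈ Finset.Icc 1 m, K := Finset.sum_le_sum fun d hd =>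
          hK d (Finset.mem_Icc.1 hd).1 (Finset.mem_Icc.1 hd).2
      _ = m * K := by
          rw [Finset.sum_const, Nat.card_Icc, nsmul_eq_mul]
          congr 1
  have h2 : (B2.card : ℝ) ≤ n / (m + 1 : ℝ) + 1 := by
    have h3 : B2.card ≤ n / (m + 1) + 1 := by
      have h4 : B2.card ≤ (Finset.range (n / (m + 1) + 1)).card := by
        refine Finset.card_le_card_of_injOn (fun s => (s - t) / (m + 1)) (fun s hs => ?_) ?_
        · have h5 := hB s (Finset.mem_filter.1 hs).1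
          simp only [Finset.coe_range, Set.mem_Iio]
          have h6 : (s - t) / (m + 1) ≤ n / (m + 1) := Nat.div_le_div_right (by omega)
          omega
        · have key : ∀ s ∈ B2, ∀ s' ∈ B2, (s - t) / (m + 1) = (s' - t) / (m + 1) → s < s' →
              False := by
            intro s hs s' hs' h5 h6
            obtain ⟨hs1, hs2⟩ := Finset.mem_filter.1 hs
            have hs'1 := (Finset.mem_filter.1 hs').1
            refine hs2 ⟨s' - s, by omega, ?_, by
              rw [Nat.add_sub_cancel' h6.le]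
              exact hs'1⟩
            have h7 := Nat.div_add_mod (s - t) (m + 1)
            have h8 := Nat.div_add_mod (s' - t) (m + 1)
            have h9 : (s' - t) % (m + 1) < m + 1 := Nat.mod_lt (s' - t) (Nat.succ_pos m)
            rw [← h5] at h8
            generalize (m + 1) * ((s - t) / (m + 1)) = q at h7 h8
            have h10 := (hB s hs1).1
            have h11 := (hB s' hs'1).1
            omega
          intro s hs s' hs' h5
          rcases lt_trichotomy s s' with h6 | h6 | h6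
          · exact (key s hs s' hs' h5 h6).elim
          · exact h6
          · exact (key s' hs' s hs h5.symm h6).elim
      rwa [Finset.card_range] at h4
    have h5 : ((n / (m + 1) : ℕ) : ℝ) ≤ n / (m + 1 : ℝ) := by
      have := @Nat.cast_div_le ℝ _ _ _ n (m + 1)
      push_cast at this
      exact this
    calc (B2.card : ℝ) ≤ ((n / (m + 1) + 1 : ℕ) : ℝ) := by exact_mod_cast h3
      _ = ((n / (m + 1) : ℕ) : ℝ) + 1 := by push_cast; rfl
      _ ≤ _ := by linarith
  rw [h0]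
  push_cast
  linarith

/-- **Sums of exponentials with bases of absolute value one** are rarely small. -/
theorem rarely {ι : Type} : ∀ (q : ℕ) (S : Finset ι), S.card = q → ∀ (ω : ι → ℂ),
    (∀ i ∈ S, ‖ω i‖ = 1) → (∀ i ∈ S, ∀ j ∈ S, ∀ d, 1 ≤ d → ω i ^ d = ω j ^ d → i = j) →
    ∀ η : ℝ, 0 < η → ∃ (δ : ℝ) (T : ℕ), 0 < δ ∧ ∀ b : ι → ℂ, (∃ i ∈ S, 1 ≤ ‖b i‖) →
      ∀ t n : ℕ, T ≤ n → (fails (fun s => δ ≤ ‖∑ i ∈ S, b i * ω i ^ s‖) t n : ℝ) ≤ η * n := by
  classical
  intro q
  induction q with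
  | zero =>
    intro S hS ω _ _ η _
    refine ⟨1, 0, one_pos, fun b ⟨i, hi, _⟩ => ?_⟩
    rw [Finset.card_eq_zero.1 hS] at hi
    exact absurd hi (Finset.notMem_empty i)
  | succ q ih =>
    intro S hS ω hω hnd η hη
    rcases Nat.eq_zero_or_pos q with hq | hq
    · -- one exponential
      refine ⟨1, 0, one_pos, fun b ⟨i, hi, hbi⟩ t n _ => ?_⟩
      have hS1 : S = {i} := by
        rw [hq, zero_add] at hS
        obtain ⟨a, ha⟩ := Finset.card_eq_one.1 hS
        rw [ha, Finset.mem_singleton] at hi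
        rw [ha, hi]
      have h1 : fails (fun s => 1 ≤ ‖∑ i ∈ S, b i * ω i ^ s‖) t n = 0 := by
        unfold fails
        rw [Set.ncard_eq_zero (fails_fin _ t n), Set.eq_empty_iff_forall_notMem]
        rintro s ⟨_, _, h2⟩
        apply h2
        rw [hS1, Finset.sum_singleton, norm_mul, norm_pow, hω i hi, one_pow, mul_one]
        exact hbi
      rw [h1]
      push_cast
      positivity
    · obtain ⟨m, hm⟩ := exists_nat_ge (4 / η)
      have hm1 : (0 : ℝ) < m + 1 := by positivity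
      set η' : ℝ := η / (4 * (m + 1)) with hη'
      have hη'0 : 0 < η' := by positivity
      have h1 : ∀ i, ∃ (δ : ℝ) (T : ℕ), 0 < δ ∧ (i ∈ S → ∀ b : ι → ℂ,
          (∃ i' ∈ S.erase i, 1 ≤ ‖b i'‖) → ∀ t n : ℕ, T ≤ n →
            (fails (fun s => δ ≤ ‖∑ i' ∈ S.erase i, b i' * ω i' ^ s‖) t n : ℝ) ≤ η' * n) := by
        intro i
        by_cases hi : i ∈ S
        · obtain ⟨δ, T, hδ, h⟩ := ih (S.erase i) (by rw [Finset.card_erase_of_mem hi, hS]; rfl) ω
            (fun j hj => hω j (Finset.mem_of_mem_erase hj))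
            (fun j hj k hk => hnd j (Finset.mem_of_mem_erase hj) k (Finset.mem_of_mem_erase hk))
            η' hη'0
          exact ⟨δ, T, hδ, fun _ => h⟩
        · exact ⟨1, 0, one_pos, fun h => absurd h hi⟩
      choose δi Ti hδi hTi using h1
      obtain ⟨δ0, hδ0, hδ0'⟩ := lb S δi fun i _ => hδi i
      obtain ⟨c, hc, hc'⟩ := lb ((S ×ˢ S ×ˢ Finset.Icc 1 m).filter fun p => p.1 ≠ p.2.1)
        (fun p => ‖ω p.2.1 ^ p.2.2 - ω p.1 ^ p.2.2‖) (by
          intro p hp
          obtain ⟨h2, h3⟩ := Finset.mem_filter.1 hp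
          obtain ⟨h4, h5⟩ := Finset.mem_product.1 h2
          obtain ⟨h6, h7⟩ := Finset.mem_product.1 h5
          rw [norm_pos_iff, sub_ne_zero]
          exact fun h8 => h3 (hnd _ h6 _ h4 _ (Finset.mem_Icc.1 h7).1 h8).symm)
      set T0 := S.sup Ti with hT0
      obtain ⟨T1, hT1⟩ := exists_nat_ge (2 / η)
      refine ⟨δ0 * c / 2, max T0 T1, by positivity, fun b ⟨j0, hj0, hb⟩ t n hn => ?_⟩
      obtain ⟨i, hi, hij⟩ : ∃ i ∈ S, i ≠ j0 := by
        have h2 : 1 < S.card := by omega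
        obtain ⟨a, ha, a', ha', hne⟩ := Finset.one_lt_card.1 h2
        by_cases h3 : a = j0
        · exact ⟨a', ha', fun h4 => hne (h3.trans h4.symm)⟩
        · exact ⟨a, ha, h3⟩
      set f : ℕ → ℂ := fun s => ∑ i ∈ S, b i * ω i ^ s with hf
      set B : Finset ℕ := (fails_fin (fun s => δ0 * c / 2 ≤ ‖f s‖) t n).toFinset with hB
      have hBmem : ∀ s, s ∈ B ↔ t ≤ s ∧ s < t + n ∧ ¬ δ0 * c / 2 ≤ ‖f s‖ := by
        intro s
        rw [hB, Set.Finite.mem_toFinset]
        rfl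
      have hBcard : fails (fun s => δ0 * c / 2 ≤ ‖f s‖) t n = B.card := by
        unfold fails
        rw [Set.ncard_eq_toFinset_card _ (fails_fin (fun s => δ0 * c / 2 ≤ ‖f s‖) t n)]
      have hpair : ∀ d, 1 ≤ d → d ≤ m → ((B.filter fun s => s + d ∈ B).card : ℝ) ≤ η' * n := by
        intro d hd1 hdm
        have hcj : ∀ j ∈ S, j ≠ i → c ≤ ‖ω j ^ d - ω i ^ d‖ := by
          intro j hj hji
          exact hc' (i, j, d) (Finset.mem_filter.2 ⟨Finset.mem_product.2 ⟨hi, Finset.mem_product.2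
            ⟨hj, Finset.mem_Icc.2 ⟨hd1, hdm⟩⟩⟩, hji.symm⟩)
        set b' : ι → ℂ := fun j => b j * (ω j ^ d - ω i ^ d) / c with hb'
        have hid : ∀ s, ∑ j ∈ S.erase i, b' j * ω j ^ s = (f (s + d) - ω i ^ d * f s) / c := by
          intro s
          have h2 : f (s + d) - ω i ^ d * f s = ∑ j ∈ S, b j * (ω j ^ d - ω i ^ d) * ω j ^ s := by
            simp only [hf]
            rw [Finset.mul_sum, ← Finset.sum_sub_distrib]
            refine Finset.sum_congr rfl fun j _ => ?_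
            rw [pow_add]
            ring
          rw [h2, ← Finset.add_sum_erase _ _ hi, sub_self, mul_zero, zero_mul, zero_add,
            Finset.sum_div]
          refine Finset.sum_congr rfl fun j _ => ?_
          rw [hb']
          ring
        have h3 := hTi i hi b' ⟨j0, Finset.mem_erase.2 ⟨hij.symm, hj0⟩, by
          rw [hb']
          simp only
          rw [norm_div, norm_mul, Complex.norm_real, Real.norm_of_nonneg hc.le, le_div_iff₀ hc,
            one_mul]
          have h4 := hcj j0 hj0 hij.symm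
          nlinarith [norm_nonneg (ω j0 ^ d - ω i ^ d)]⟩ t n
          ((Finset.le_sup hi).trans ((le_max_left T0 T1).trans hn))
        refine le_trans ?_ h3
        have h4 : (B.filter fun s => s + d ∈ B).card ≤
            fails (fun s => δi i ≤ ‖∑ i' ∈ S.erase i, b' i' * ω i' ^ s‖) t n := by
          unfold fails
          rw [← Set.ncard_coe_finset]
          refine Set.ncard_le_ncard (fun s hs => ?_) (fails_fin _ t n)
          obtain ⟨h5, h6⟩ := Finset.mem_filter.1 (Finset.mem_coe.1 hs)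
          obtain ⟨h7, h8, h9⟩ := (hBmem s).1 h5
          obtain ⟨_, _, h10⟩ := (hBmem (s + d)).1 h6
          refine ⟨h7, h8, ?_⟩
          rw [not_le] at h9 h10 ⊢
          rw [hid, norm_div, Complex.norm_real, Real.norm_of_nonneg hc.le, div_lt_iff₀ hc]
          have h11 : ‖ω i ^ d * f s‖ = ‖f s‖ := by
            rw [norm_mul, norm_pow, hω i hi, one_pow, one_mul]
          calc ‖f (s + d) - ω i ^ d * f s‖ ≤ ‖f (s + d)‖ + ‖ω i ^ d * f s‖ := norm_sub_le _ _
            _ < δ0 * c / 2 + δ0 * c / 2 := by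
              rw [h11]
              exact add_lt_add h10 h9
            _ = δ0 * c := by ring
            _ ≤ δi i * c := mul_le_mul_of_nonneg_right (hδ0' i hi) hc.le
        exact_mod_cast h4
      have h2 := few_pairs B t n m (fun s hs => ⟨((hBmem s).1 hs).1, ((hBmem s).1 hs).2.1⟩)
        (η' * n) hpair
      rw [hBcard]
      refine h2.trans ?_
      have hn0 : (0 : ℝ) ≤ n := Nat.cast_nonneg n
      have h3 : (n : ℝ) / (m + 1) ≤ η / 4 * n := by
        rw [div_le_iff₀ hm1]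
        have h4 : 4 ≤ η * m := by
          rw [div_le_iff₀ hη] at hm
          linarith
        nlinarith
      have h4 : (m : ℝ) * (η' * n) ≤ η / 4 * n := by
        have h5 : (m : ℝ) * η' ≤ η / 4 := by
          rw [hη', mul_div_assoc', div_le_iff₀ (by positivity)]
          nlinarith
        calc (m : ℝ) * (η' * n) = (m * η') * n := by ring
          _ ≤ η / 4 * n := mul_le_mul_of_nonneg_right h5 hn0
      have h5 : (1 : ℝ) ≤ η / 2 * n := by
        have h6 : (T1 : ℝ) ≤ n := by exact_mod_cast (le_max_right T0 T1).trans hn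
        have h7 : 2 / η ≤ (n : ℝ) := hT1.trans h6
        rw [div_le_iff₀ hη] at h7
        linarith
      linarith

/-- **Lower bounds for almost all arguments.** -/
theorem dwindow {ι : Type} (S : Finset ι) (β : ι → ℂ) (hβ : ∀ i ∈ S, β i ≠ 0) (k : ι → ℕ)
    (c : ι → ℂ)
    (hinj : ∀ i ∈ S, ∀ j ∈ S, ∀ d, 1 ≤ d → β i ^ d = β j ^ d → k i = k j → i = j)
    {l : ℝ ×ₗ ℝ} (hl : ∀ i ∈ S, wt (β i) (k i) ≤ l) {i0 : ι} (hi0 : i0 ∈ S)
    (h0 : wt (β i0) (k i0) = l) (hc : c i0 ≠ 0) (η : ℝ) (hη : 0 < η) :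
    ∃ (e : ℝ) (T t0 : ℕ), 0 < e ∧ ∀ t n, t0 ≤ t → T ≤ n →
      (fails (fun s => e * sz l s ≤ ‖∑ i ∈ S, c i * ((s : ℂ) ^ k i * β i ^ s)‖) t n : ℝ) ≤
        η * n := by
  classical
  set S1 := S.filter fun i => wt (β i) (k i) = l with hS1
  set S2 := S.filter fun i => wt (β i) (k i) ≠ l with hS2
  have hi1 : i0 ∈ S1 := Finset.mem_filter.2 ⟨hi0, h0⟩
  have hk1 : ∀ i ∈ S1, k i = k i0 := by
    intro i hi
    have h1 : wt (β i) (k i) = wt (β i0) (k i0) := (Finset.mem_filter.1 hi).2.trans h0.symm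
    unfold wt at h1
    have h2 := congrArg (fun z : ℝ ×ₗ ℝ => (ofLex z).2) h1
    simp only [ofLex_toLex] at h2
    exact_mod_cast h2
  have hn1 : ∀ i ∈ S1, ‖β i‖ = ‖β i0‖ := by
    intro i hi
    have h1 : wt (β i) (k i) = wt (β i0) (k i0) := (Finset.mem_filter.1 hi).2.trans h0.symm
    unfold wt at h1
    have h2 := congrArg (fun z : ℝ ×ₗ ℝ => (ofLex z).1) h1
    simp only [ofLex_toLex] at h2
    exact Real.log_injOn_pos (norm_pos_iff.2 (hβ i (Finset.mem_filter.1 hi).1))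
      (norm_pos_iff.2 (hβ i0 hi0)) h2
  set ρ := ‖β i0‖ with hρ
  have hρ0 : 0 < ρ := norm_pos_iff.2 (hβ i0 hi0)
  have hρC : (ρ : ℂ) ≠ 0 := by exact_mod_cast hρ0.ne'
  set ω : ι → ℂ := fun i => β i / ρ with hω
  have hω1 : ∀ i ∈ S1, ‖ω i‖ = 1 := by
    intro i hi
    rw [hω]
    simp only
    rw [norm_div, hn1 i hi, Complex.norm_real, Real.norm_of_nonneg hρ0.le, div_self hρ0.ne']
  obtain ⟨δ, T, hδ, hmain⟩ := rarely S1.card S1 rfl ω hω1 (by
    intro i hi j hj d hd hij
    refine hinj i (Finset.mem_filter.1 hi).1 j (Finset.mem_filter.1 hj).1 d hd ?_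
      ((hk1 i hi).trans (hk1 j hj).symm)
    rw [hω] at hij
    simp only [div_pow] at hij
    exact (div_left_inj' (pow_ne_zero d hρC)).1 hij) η hη
  have hc0 : 0 < ‖c i0‖ := norm_pos_iff.2 hc
  have hcC : ((‖c i0‖ : ℝ) : ℂ) ≠ 0 := by exact_mod_cast hc0.ne'
  set b : ι → ℂ := fun i => c i / ‖c i0‖ with hb
  have hb1 : 1 ≤ ‖b i0‖ := by
    rw [hb]
    simp only
    rw [norm_div, Complex.norm_real, norm_norm, div_self hc0.ne']
  set e : ℝ := δ * ‖c i0‖ / 2 with he
  have he0 : 0 < e := by positivity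
  have hsm := small S2 β (fun i hi => hβ i (Finset.mem_filter.1 hi).1) k c (l := l)
    (fun i hi => lt_of_le_of_ne (hl i (Finset.mem_filter.1 hi).1) (Finset.mem_filter.1 hi).2)
  have hev := hsm.eventually (gt_mem_nhds he0)
  obtain ⟨t1, ht1⟩ := eventually_atTop.1 (hev.and (eventually_ge_atTop 1))
  refine ⟨e, T, t1, he0, fun t n ht hn => ?_⟩
  refine le_trans ?_ (hmain b ⟨i0, hi1, hb1⟩ t n hn)
  have hle : fails (fun s => e * sz l s ≤ ‖∑ i ∈ S, c i * ((s : ℂ) ^ k i * β i ^ s)‖) t n ≤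
      fails (fun s => δ ≤ ‖∑ i ∈ S1, b i * ω i ^ s‖) t n := by
    refine fails_mono fun u hu _ hgood => ?_
    obtain ⟨h2, h3⟩ := ht1 u (ht.trans hu)
    have hszl : sz l u = (u : ℝ) ^ k i0 * ρ ^ u := by
      rw [← h0, ← norm_mono (hβ i0 hi0), norm_mul, norm_pow, norm_pow, Complex.norm_natCast]
    have hu0 : (0 : ℝ) < u := by exact_mod_cast h3
    have h4 : ∑ i ∈ S, c i * ((u : ℂ) ^ k i * β i ^ u) =
        ‖c i0‖ * ((u : ℂ) ^ k i0 * ρ ^ u) * ∑ i ∈ S1, b i * ω i ^ u +
          ∑ i ∈ S2, c i * ((u : ℂ) ^ k i * β i ^ u) := by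
      rw [← Finset.sum_filter_add_sum_filter_not S (fun i => wt (β i) (k i) = l)]
      congr 1
      rw [Finset.mul_sum]
      refine Finset.sum_congr rfl fun i hi => ?_
      rw [hk1 i hi, hb, hω]
      simp only [div_pow]
      have := pow_ne_zero u hρC
      field_simp
    have h5 : 2 * e * sz l u ≤ ‖‖c i0‖ * ((u : ℂ) ^ k i0 * ρ ^ u) * ∑ i ∈ S1, b i * ω i ^ u‖ := by
      rw [norm_mul, norm_mul, norm_mul, norm_pow, norm_pow, Complex.norm_natCast,
        Complex.norm_real, Complex.norm_real, norm_norm, Real.norm_of_nonneg hρ0.le, ← hszl]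
      have h6 : 2 * e * sz l u = ‖c i0‖ * sz l u * δ := by
        rw [he]
        ring
      rw [h6]
      exact mul_le_mul_of_nonneg_left hgood (mul_nonneg hc0.le (sz_nonneg _ _))
    have h6 : ‖∑ i ∈ S2, c i * ((u : ℂ) ^ k i * β i ^ u)‖ ≤ e * sz l u := by
      rw [div_lt_iff₀ (sz_pos l h3)] at h2
      exact h2.le
    rw [h4]
    have h7 := norm_sub_le (‖c i0‖ * ((u : ℂ) ^ k i0 * ρ ^ u) * ∑ i ∈ S1, b i * ω i ^ u +
      ∑ i ∈ S2, c i * ((u : ℂ) ^ k i * β i ^ u)) (∑ i ∈ S2, c i * ((u : ℂ) ^ k i * β i ^ u))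
    rw [add_sub_cancel_right] at h7
    linarith
  exact_mod_cast hle

end Pool.Agent.Q183.AR
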