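import Pool.Agent.Q183.AR.Alg

/-!
Derivations of the algebra of exponential polynomials; Wronskians.
-/

set_option autoImplicit false

namespace Pool.Agent.Q183.AR

open AddMonoidAlgebra
open Polynomial hiding coeff_add coeff_smul coeff_neg coeff_zero coeff_sum

variable {E : Type} [Field E] {r : ℕ}

/-- the linear map which multiplies the monomial with exponent `m` by `ℓ m` -/
noncomputable def DL (ℓ : Ex r →+ ℤ) : EP E r →ₗ[E] EP E r where
  toFun F := ofCoeff (Finsupp.onFinset F.coeff.support (fun m => (ℓ m : E) * F.coeff m) (by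
    intro m hm
    rw [Finsupp.mem_support_iff]
    exact right_ne_zero_of_mul hm))
  map_add' F G := by
    ext m
    change (ℓ m : E) * (F + G).coeff m = (ℓ m : E) * F.coeff m + (ℓ m : E) * G.coeff m
    rw [coeff_add, Finsupp.add_apply, mul_add]
  map_smul' c F := by
    ext m
    change (ℓ m : E) * (c • F).coeff m = c • ((ℓ m : E) * F.coeff m)
    rw [coeff_smul, Finsupp.smul_apply, smul_eq_mul, smul_eq_mul]
    ring

theorem coeff_DL (ℓ : Ex r →+ ℤ) (F : EP E r) (m : Ex r) :
    (DL ℓ F).coeff m = (ℓ m : E) * F.coeff m := rfl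

theorem DL_single (ℓ : Ex r →+ ℤ) (m : Ex r) (c : E) :
    DL ℓ (single m c) = single m ((ℓ m : E) * c) := by
  classical
  ext a
  rw [coeff_DL, coeff_single_apply, coeff_single_apply]
  split_ifs with h
  · rw [h]
  · rw [mul_zero]

/-- the derivation attached to `ℓ` -/
noncomputable def D (ℓ : Ex r →+ ℤ) : Derivation E (EP E r) (EP E r) := Derivation.mk' (DL ℓ) (by
  intro F G
  induction F using AddMonoidAlgebra.induction_linear with
  | zero => simp
  | add F F' h1 h2 =>
    rw [add_mul, map_add, h1, h2, map_add]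
    simp only [smul_eq_mul]
    ring
  | single m c =>
    induction G using AddMonoidAlgebra.induction_linear with
    | zero => simp
    | add G G' h1 h2 =>
      rw [mul_add, map_add, h1, h2, map_add]
      simp only [smul_eq_mul]
      ring
    | single n d =>
      simp only [smul_eq_mul]
      rw [single_mul_single, DL_single, DL_single, DL_single, single_mul_single, single_mul_single,
        add_comm n m, ← single_add]
      congr 1
      rw [map_add]
      push_cast
      ring)

theorem coeff_D (ℓ : Ex r →+ ℤ) (F : EP E r) (m : Ex r) :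
    (D ℓ F).coeff m = (ℓ m : E) * F.coeff m := rfl

theorem coeff_D_iter (ℓ : Ex r →+ ℤ) (F : EP E r) (k : ℕ) (m : Ex r) :
    ((D ℓ)^[k] F).coeff m = (ℓ m : E) ^ k * F.coeff m := by
  induction k with
  | zero => rw [Function.iterate_zero, id, pow_zero, one_mul]
  | succ k ih =>
    rw [Function.iterate_succ_apply', coeff_D, ih]
    ring

theorem supp_D_iter (ℓ : Ex r →+ ℤ) (F : EP E r) (k : ℕ) :
    ((D ℓ)^[k] F).coeff.support ⊆ F.coeff.support := by
  intro m hm
  rw [Finsupp.mem_support_iff, coeff_D_iter] at hm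
  exact Finsupp.mem_support_iff.2 (right_ne_zero_of_mul hm)

theorem D_iter_add (ℓ : Ex r →+ ℤ) (F G : EP E r) (k : ℕ) :
    (D ℓ)^[k] (F + G) = (D ℓ)^[k] F + (D ℓ)^[k] G := by
  ext m
  rw [coeff_D_iter, coeff_add, Finsupp.add_apply, coeff_add, Finsupp.add_apply, coeff_D_iter,
    coeff_D_iter, mul_add]

theorem D_iter_sum (ℓ : Ex r →+ ℤ) {ι : Type} (s : Finset ι) (F : ι → EP E r) (k : ℕ) :
    (D ℓ)^[k] (∑ i ∈ s, F i) = ∑ i ∈ s, (D ℓ)^[k] (F i) := by
  classical
  induction s using Finset.induction_on with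
  | empty =>
    rw [Finset.sum_empty, Finset.sum_empty]
    ext m
    rw [coeff_D_iter]
    simp
  | insert i s hi ih => rw [Finset.sum_insert hi, Finset.sum_insert hi, D_iter_add, ih]

/-- elements whose bases are algebraic integers -/
noncomputable def Bi (γ : Fin r → Eˣ) : Subring (EP E r) where
  carrier := {F | ∀ m ∈ F.coeff.support, IsIntegral ℤ ((pg γ m.1 : Eˣ) : E)}
  mul_mem' := by
    classical
    intro F G hF hG m hm
    obtain ⟨a, ha, b, hb, rfl⟩ := Finset.mem_add.1 (support_coeff_mul_subset F G hm)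
    rw [Prod.fst_add, pg_add, Units.val_mul]
    exact (hF a ha).mul (hG b hb)
  one_mem' := by
    intro m hm
    have h1 : m = 0 := by
      by_contra hne
      rw [Finsupp.mem_support_iff, one_def, coeff_single, Finsupp.single_apply, if_neg (Ne.symm hne)] at hm
      exact hm rfl
    rw [h1]
    change IsIntegral ℤ ((pg γ 0 : Eˣ) : E)
    rw [pg_zero, Units.val_one]
    exact isIntegral_one
  add_mem' := by
    classical
    intro F G hF hG m hm
    rw [coeff_add] at hm
    rcases Finset.mem_union.1 (Finsupp.support_add hm) with h | h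
    · exact hF m h
    · exact hG m h
  zero_mem' := by
    intro m hm
    simp at hm
  neg_mem' := by
    intro F hF m hm
    rw [coeff_neg, Finsupp.support_neg] at hm
    exact hF m hm

theorem mem_Bi {γ : Fin r → Eˣ} {F : EP E r} :
    F ∈ Bi γ ↔ ∀ m ∈ F.coeff.support, IsIntegral ℤ ((pg γ m.1 : Eˣ) : E) := Iff.rfl

theorem D_mem_Bi {γ : Fin r → Eˣ} (ℓ : Ex r →+ ℤ) {F : EP E r} (hF : F ∈ Bi γ) : D ℓ F ∈ Bi γ := by
  rw [mem_Bi] at hF ⊢
  intro m hm
  exact hF m (supp_D_iter ℓ F 1 hm)

/-- values of elements of `Bi` have bounded denominators -/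
theorem Bi_int [CharZero E] [Algebra.IsAlgebraic ℚ E] {γ : Fin r → Eˣ} {F : EP E r} (hF : F ∈ Bi γ) :
    ∃ d : ℤ, d ≠ 0 ∧ ∀ t : ℕ, IsIntegral ℤ ((d : E) * ev γ F t) := by
  classical
  have h1 : ∀ m : Ex r, ∃ d : ℤ, d ≠ 0 ∧ IsIntegral ℤ ((d : E) * F.coeff m) := by
    intro m
    have h2 : IsIntegral ℚ (F.coeff m) := (Algebra.IsAlgebraic.isAlgebraic (F.coeff m)).isIntegral
    obtain ⟨d, hd⟩ := IsIntegral.exists_multiple_integral_of_isLocalization (nonZeroDivisors ℤ)
      (F.coeff m) h2
    refine ⟨d, nonZeroDivisors.coe_ne_zero d, ?_⟩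
    have h3 : (d • F.coeff m : E) = ((d : ℤ) : E) * F.coeff m := by
      rw [Submonoid.smul_def, zsmul_eq_mul]
    rw [← h3]
    exact hd
  choose d hd0 hd using h1
  refine ⟨∏ m ∈ F.coeff.support, d m, Finset.prod_ne_zero_iff.2 fun m _ => hd0 m, fun t => ?_⟩
  rw [ev_apply, Finset.mul_sum]
  refine IsIntegral.sum _ fun m hm => ?_
  rw [← Finset.mul_prod_erase _ _ hm]
  push_cast
  have h3 : (d m : E) * (∏ x ∈ F.coeff.support.erase m, (d x : E)) *
      (F.coeff m * ((t : E) ^ m.2 * ((pg γ m.1 : Eˣ) : E) ^ t)) =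
      (d m * F.coeff m) * ((((∏ x ∈ F.coeff.support.erase m, d x : ℤ) : E) * ((t : ℕ) : E) ^ m.2) *
        ((pg γ m.1 : Eˣ) : E) ^ t) := by
    push_cast
    ring
  rw [h3]
  refine (hd m).mul (((?_ : IsIntegral ℤ _).mul (?_ : IsIntegral ℤ _)).mul ((hF m hm).pow t))
  · exact isIntegral_algebraMap (R := ℤ) (x := (∏ x ∈ F.coeff.support.erase m, d x : ℤ))
  · exact (IsIntegral.pow (isIntegral_algebraMap (R := ℤ) (x := (t : ℤ)) |> fun h => by simpa using h) _)

/-- derivatives of products of powers -/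
theorem D_prod {γ : Fin r → Eˣ} (ℓ : Ex r →+ ℤ) {ι : Type} (s : Finset ι) {G : ι → EP E r}
    (hG : ∀ j ∈ s, G j ∈ Bi γ) (a : ι → ℕ) :
    ∃ H ∈ Bi γ, D ℓ (∏ j ∈ s, G j ^ a j) = (∏ j ∈ s, G j ^ (a j - 1)) * H := by
  classical
  induction s using Finset.induction_on with
  | empty => exact ⟨0, zero_mem _, by simp⟩
  | insert i s hi ih =>
    obtain ⟨H, hH, h1⟩ := ih fun j hj => hG j (Finset.mem_insert_of_mem hj)
    have hGi := hG i (Finset.mem_insert_self _ _)
    have hq : ∃ Q ∈ Bi γ, ∏ j ∈ s, G j ^ a j = (∏ j ∈ s, G j ^ (a j - 1)) * Q := by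
      refine ⟨∏ j ∈ s, G j ^ (a j - (a j - 1)), prod_mem fun j hj =>
        pow_mem (hG j (Finset.mem_insert_of_mem hj)) _, ?_⟩
      rw [← Finset.prod_mul_distrib]
      refine Finset.prod_congr rfl fun j _ => ?_
      rw [← pow_add]
      congr 1
      omega
    obtain ⟨Q, hQ, h2⟩ := hq
    have hg : G i ^ a i = G i ^ (a i - 1) * G i ^ (a i - (a i - 1)) := by
      rw [← pow_add]
      congr 1
      omega
    rw [Finset.prod_insert hi, Finset.prod_insert hi, Derivation.leibniz, h1, Derivation.leibniz_pow]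
    refine ⟨G i ^ (a i - (a i - 1)) * H + Q * ((a i : EP E r) * D ℓ (G i)),
      add_mem (mul_mem (pow_mem hGi _) hH) (mul_mem hQ (mul_mem (natCast_mem _ _)
        (D_mem_Bi ℓ hGi))), ?_⟩
    simp only [smul_eq_mul, nsmul_eq_mul]
    rw [h2]
    nth_rewrite 1 [hg]
    ring

/-- higher derivatives of products of powers -/
theorem D_iter_prod {γ : Fin r → Eˣ} (ℓ : Ex r →+ ℤ) {ι : Type} (s : Finset ι) {G : ι → EP E r}
    (hG : ∀ j ∈ s, G j ∈ Bi γ) (a : ι → ℕ) {U : EP E r} {u : ℤ} (hU : D ℓ U = (u : EP E r) * U)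
    (k : ℕ) : ∃ H ∈ Bi γ, (D ℓ)^[k] (U * ∏ j ∈ s, G j ^ a j) =
      U * (∏ j ∈ s, G j ^ (a j - k)) * H := by
  classical
  induction k with
  | zero => exact ⟨1, one_mem _, by simp⟩
  | succ k ih =>
    obtain ⟨H, hH, h1⟩ := ih
    obtain ⟨H', hH', h2⟩ := D_prod ℓ s hG fun j => a j - k
    have hq : ∃ Q ∈ Bi γ, ∏ j ∈ s, G j ^ (a j - k) = (∏ j ∈ s, G j ^ (a j - (k + 1))) * Q := by
      refine ⟨∏ j ∈ s, G j ^ ((a j - k) - (a j - (k + 1))), prod_mem fun j hj =>
        pow_mem (hG j hj) _, ?_⟩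
      rw [← Finset.prod_mul_distrib]
      refine Finset.prod_congr rfl fun j _ => ?_
      rw [← pow_add]
      congr 1
      omega
    obtain ⟨Q, hQ, h3⟩ := hq
    have h4 : ∀ j, a j - k - 1 = a j - (k + 1) := fun j => by omega
    simp only [h4] at h2
    rw [Function.iterate_succ_apply', h1, Derivation.leibniz, Derivation.leibniz, hU, h2]
    refine ⟨Q * D ℓ H + H * H' + (u : EP E r) * (Q * H), add_mem (add_mem
      (mul_mem hQ (D_mem_Bi ℓ hH)) (mul_mem hH hH')) (mul_mem (intCast_mem _ _)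
        (mul_mem hQ hH)), ?_⟩
    simp only [smul_eq_mul]
    rw [h3]
    ring

/-- coefficients at the sum of two upper bounds of exponents -/
theorem coeff_bd {Ω : Type} [AddCommMonoid Ω] [LinearOrder Ω] [IsOrderedCancelAddMonoid Ω]
    (ω : Ex r →+ Ω) (hω : Function.Injective ω) {F G : EP E r} {m n : Ex r}
    (hm' : ∀ a ∈ F.coeff.support, ω a ≤ ω m) (hn' : ∀ a ∈ G.coeff.support, ω a ≤ ω n) :
    (F * G).coeff (m + n) = F.coeff m * G.coeff n := by
  apply coeff_mul_add_of_uniqueAdd
  intro a b ha hb hab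
  have h2 := hm' a ha
  have h3 := hn' b hb
  have h4 : ω a + ω b = ω m + ω n := by rw [← map_add, ← map_add, hab]
  have h5 : ω a = ω m := by
    by_contra hne
    exact absurd h4 (add_lt_add_of_lt_of_le (lt_of_le_of_ne h2 hne) h3).ne
  have h6 : ω b = ω n := by
    rw [h5] at h4
    exact add_left_cancel h4
  exact ⟨hω h5, hω h6⟩

/-- **Wronskians of linearly independent exponential polynomials are not zero.** -/
theorem wr_ne [CharZero E] {N : ℕ} {A : Fin N → EP E r} (hA : LinearIndependent E A)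
    {S : Finset (Ex r)} (hS : ∀ i, (A i).coeff.support ⊆ S) {ℓ : Ex r →+ ℤ}
    (hℓ : Set.InjOn ℓ (S : Set (Ex r))) :
    (Matrix.of fun (i k : Fin N) => (D ℓ)^[(k : ℕ)] (A i)).det ≠ 0 := by
  classical
  intro hdet
  obtain ⟨v, hv0, hv⟩ := Matrix.exists_mulVec_eq_zero_iff.2 hdet
  have hv' : ∀ i, ∑ k : Fin N, (D ℓ)^[(k : ℕ)] (A i) * v k = 0 := fun i => congrFun hv i
  let ω := tie (0 : Ex r →+ ℝ ×ₗ ℝ)
  have hω : Function.Injective ω := tie_inj _
  let T : Finset (Ex r) := Finset.univ.biUnion fun k => (v k).coeff.support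
  have hT : T.Nonempty := by
    obtain ⟨k, hk⟩ := Function.ne_iff.1 hv0
    have h1 : (v k).coeff.support.Nonempty := by
      rw [Finsupp.support_nonempty_iff]
      intro h
      exact hk (by rwa [coeff_eq_zero] at h)
    obtain ⟨m, hm⟩ := h1
    exact ⟨m, Finset.mem_biUnion.2 ⟨k, Finset.mem_univ _, hm⟩⟩
  obtain ⟨d0, hd0, hmax⟩ := Finset.exists_max_image T ω hT
  have hmax' : ∀ k, ∀ a ∈ (v k).coeff.support, ω a ≤ ω d0 := fun k a ha =>
    hmax a (Finset.mem_biUnion.2 ⟨k, Finset.mem_univ _, ha⟩)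
  obtain ⟨k0, _, hk0⟩ := Finset.mem_biUnion.1 hd0
  let p : E[X] := ∑ k : Fin N, C ((v k).coeff d0) * X ^ (k : ℕ)
  have hpc : ∀ k : Fin N, p.coeff k = (v k).coeff d0 := by
    intro k
    simp only [p, finsetSum_coeff, coeff_C_mul, coeff_X_pow]
    rw [Finset.sum_eq_single k]
    · rw [if_pos rfl, mul_one]
    · intro k' _ hne
      rw [if_neg (fun h => hne (Fin.ext h.symm)), mul_zero]
    · intro h
      exact absurd (Finset.mem_univ _) h
  have hp0 : p ≠ 0 := by
    intro h
    have h1 := hpc k0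
    rw [h, Polynomial.coeff_zero] at h1
    exact Finsupp.mem_support_iff.1 hk0 h1.symm
  have hN : 0 < N := lt_of_le_of_lt (Nat.zero_le _) k0.2
  have hdeg : p.natDegree < N := by
    have h1 : p.natDegree ≤ N - 1 := by
      refine natDegree_sum_le_of_forall_le _ _ fun k _ => ?_
      refine (natDegree_C_mul_X_pow_le _ _).trans ?_
      have := k.2
      omega
    omega
  -- leading exponents of nonzero combinations
  have hlead : ∀ c : Fin N → E, ∀ m, m ∈ (∑ i, c i • A i).coeff.support →
      (∀ a ∈ (∑ i, c i • A i).coeff.support, ω a ≤ ω m) → p.eval (ℓ m : E) = 0 := by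
    intro c m hm hm'
    have h1 : ∑ k : Fin N, (D ℓ)^[(k : ℕ)] (∑ i, c i • A i) * v k = 0 := by
      have h2 : ∀ k : Fin N, (D ℓ)^[(k : ℕ)] (∑ i, c i • A i) =
          ∑ i, c i • (D ℓ)^[(k : ℕ)] (A i) := by
        intro k
        rw [D_iter_sum]
        refine Finset.sum_congr rfl fun i _ => ?_
        ext a
        rw [coeff_D_iter, coeff_smul, coeff_smul, Finsupp.smul_apply, Finsupp.smul_apply,
          coeff_D_iter, smul_eq_mul, smul_eq_mul]
        ring
      simp only [h2, Finset.sum_mul]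
      rw [Finset.sum_comm]
      refine Finset.sum_eq_zero fun i _ => ?_
      have h3 : ∀ k : Fin N, c i • (D ℓ)^[(k : ℕ)] (A i) * v k =
          c i • ((D ℓ)^[(k : ℕ)] (A i) * v k) := fun k => smul_mul_assoc _ _ _
      simp only [h3]
      rw [← Finset.smul_sum, hv' i, smul_zero]
    have h2 := congrArg (fun F : EP E r => F.coeff (m + d0)) h1
    simp only [AddMonoidAlgebra.coeff_sum, Finsupp.finsetSum_apply, AddMonoidAlgebra.coeff_zero,
      Finsupp.coe_zero, Pi.zero_apply] at h2
    have h3 : ∀ k : Fin N, ((D ℓ)^[(k : ℕ)] (∑ i, c i • A i) * v k).coeff (m + d0) =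
        (∑ i, c i • A i).coeff m * ((v k).coeff d0 * (ℓ m : E) ^ (k : ℕ)) := by
      intro k
      rw [coeff_bd ω hω (fun a ha => hm' a (supp_D_iter _ _ _ ha)) (hmax' k), coeff_D_iter]
      ring
    simp only [h3] at h2
    rw [← Finset.mul_sum] at h2
    have h4 : ∑ k : Fin N, (v k).coeff d0 * (ℓ m : E) ^ (k : ℕ) = p.eval (ℓ m : E) := by
      simp only [p, eval_finsetSum, eval_mul, eval_C, eval_pow, eval_X]
    rw [h4] at h2
    exact (mul_eq_zero.1 h2).resolve_left (Finsupp.mem_support_iff.1 hm)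
  let Z : Finset (Ex r) := S.filter fun m => p.eval (ℓ m : E) = 0
  have hZcard : Z.card ≤ p.natDegree := by
    have h1 : (Z.image fun m => ((ℓ m : ℤ) : E)) ⊆ p.roots.toFinset := by
      intro x hx
      obtain ⟨m, hm, rfl⟩ := Finset.mem_image.1 hx
      rw [Multiset.mem_toFinset, mem_roots hp0]
      exact (Finset.mem_filter.1 hm).2
    have h2 : (Z.image fun m => ((ℓ m : ℤ) : E)).card = Z.card := by
      apply Finset.card_image_of_injOn
      intro m hm n hn h
      have h' : ((ℓ m : ℤ) : E) = ((ℓ n : ℤ) : E) := h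
      have h3 : ℓ m = ℓ n := by exact_mod_cast h'
      exact hℓ (Finset.mem_coe.2 (Finset.mem_filter.1 hm).1)
        (Finset.mem_coe.2 (Finset.mem_filter.1 hn).1) h3
    rw [← h2]
    exact (Finset.card_le_card h1).trans ((Multiset.toFinset_card_le _).trans (card_roots' p))
  let f : (Fin N → E) →ₗ[E] (Z → E) :=
    { toFun := fun c m => (∑ i, c i • A i).coeff (m : Ex r)
      map_add' := by
        intro c c'
        funext m
        simp only [Pi.add_apply, add_smul, Finset.sum_add_distrib, coeff_add, Finsupp.add_apply]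
      map_smul' := by
        intro a c
        funext m
        simp only [Pi.smul_apply, smul_assoc, ← Finset.smul_sum, coeff_smul, Finsupp.smul_apply,
          RingHom.id_apply] }
  have hf : Function.Injective f := by
    rw [injective_iff_map_eq_zero]
    intro c hc
    have h1 : ∑ i, c i • A i = 0 := by
      by_contra hne
      have h2 : (∑ i, c i • A i).coeff.support.Nonempty := by
        rw [Finsupp.support_nonempty_iff]
        intro h
        exact hne (by rwa [coeff_eq_zero] at h)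
      obtain ⟨m, hm, hm'⟩ := Finset.exists_max_image _ ω h2
      have h3 := hlead c m hm hm'
      have h4 : m ∈ S := by
        have h5 : m ∈ Finset.univ.biUnion fun i => (c i • A i).coeff.support := by
          rw [coeff_sum] at hm
          exact Finsupp.support_finset_sum hm
        obtain ⟨i, _, hi⟩ := Finset.mem_biUnion.1 h5
        refine hS i ?_
        rw [coeff_smul] at hi
        exact Finsupp.support_smul hi
      have h5 : m ∈ Z := Finset.mem_filter.2 ⟨h4, h3⟩
      have h6 := congrFun hc ⟨m, h5⟩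
      exact Finsupp.mem_support_iff.1 hm h6
    exact funext fun i => Fintype.linearIndependent_iff.1 hA c h1 i
  have h1 := LinearMap.finrank_le_finrank_of_injective hf
  rw [Module.finrank_fin_fun, Module.finrank_fintype_fun_eq_card, Fintype.card_coe] at h1
  omega

/-- additive maps which separate the elements of a finite set -/
theorem exists_sep (S : Finset (Ex r)) : ∃ ℓ : Ex r →+ ℤ, Set.InjOn ℓ (S : Set (Ex r)) := by
  classical
  let q : Ex r → ℤ[X] := fun m => (∑ i : Fin r, C (m.1 i) * X ^ (i : ℕ)) + C (m.2 : ℤ) * X ^ r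
  have hq : Function.Injective q := by
    intro m n h
    have hc1 : ∀ (m : Ex r) (i : Fin r), (q m).coeff i = m.1 i := by
      intro m i
      simp only [q, Polynomial.coeff_add, finsetSum_coeff, coeff_C_mul, coeff_X_pow]
      rw [Finset.sum_eq_single i]
      · rw [if_pos rfl, if_neg (by have := i.2; omega), mul_one, mul_zero, add_zero]
      · intro k' _ hne
        rw [if_neg (fun h => hne (Fin.ext h.symm)), mul_zero]
      · intro h
        exact absurd (Finset.mem_univ _) h
    have hc2 : ∀ m : Ex r, (q m).coeff r = (m.2 : ℤ) := by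
      intro m
      simp only [q, Polynomial.coeff_add, finsetSum_coeff, coeff_C_mul, coeff_X_pow]
      rw [Finset.sum_eq_zero]
      · simp
      · intro k _
        rw [if_neg (by have := k.2; omega), mul_zero]
    refine Prod.ext (funext fun i => ?_) ?_
    · rw [← hc1 m i, h, hc1]
    · have := hc2 m
      rw [h, hc2] at this
      exact_mod_cast this.symm
  have hex : ∃ B : ℤ, (∏ x ∈ (S ×ˢ S).filter fun x => x.1 ≠ x.2, (q x.1 - q x.2)).eval B ≠ 0 := by
    by_contra hcon
    push Not at hcon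
    have h1 : ∏ x ∈ (S ×ˢ S).filter (fun x => x.1 ≠ x.2), (q x.1 - q x.2) = 0 :=
      Polynomial.funext fun B => by rw [hcon B, eval_zero]
    rw [Finset.prod_eq_zero_iff] at h1
    obtain ⟨x, hx, h2⟩ := h1
    exact (Finset.mem_filter.1 hx).2 (hq (sub_eq_zero.1 h2))
  obtain ⟨B, hB⟩ := hex
  refine ⟨{ toFun := fun m => (q m).eval B, map_zero' := by simp [q], map_add' := ?_ }, ?_⟩
  · intro m n
    simp only [q, Prod.fst_add, Prod.snd_add, Pi.add_apply, eval_add, eval_finsetSum, eval_mul,
      eval_C, eval_pow, eval_X, Nat.cast_add, add_mul, Finset.sum_add_distrib]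
    ring
  · intro m hm n hn h
    by_contra hne
    apply hB
    rw [eval_prod]
    refine Finset.prod_eq_zero (i := (m, n)) (Finset.mem_filter.2
      ⟨Finset.mem_product.2 ⟨Finset.mem_coe.1 hm, Finset.mem_coe.1 hn⟩, hne⟩) ?_
    change (q m).eval B = (q n).eval B at h
    rw [eval_sub, h, sub_self]

end Pool.Agent.Q183.AR
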