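import Pool.Agent.Q183.AR.AbcK
import Pool.Agent.Q183.AR.Circ

/-!
Linear relations between linear recurrences over number fields: identically true on a residue class,
or almost never true, with one modulus for all relations.
-/

set_option autoImplicit false

namespace Pool.Agent.Q183.AR

open Polynomial

/-- **Linear relations** hold identically on a class or almost never. -/
theorem dichU {R K : Type} [CommRing R] [Algebra.IsIntegral ℤ R] [Field K] [NumberField K]
    [Algebra R K] {N : ℕ} (u : Fin N → ℕ → R) (hu : ∀ k, Rec (u k)) :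
    ∃ M : ℕ, 0 < M ∧ ∀ (ρ : ℕ) (c : Fin N → K),
      (∃ z, ∀ t, z ≤ t → t ≡ ρ [MOD M] → ∑ k, c k * algebraMap R K (u k t) = 0) ∨
      AA fun _ s => s ≡ ρ [MOD M] → ∑ k, c k * algebraMap R K (u k s) ≠ 0 := by
  classical
  choose E hE using hu
  set P : K[X] := ∏ j, (E j).charPoly.map (algebraMap R K) with hP
  have hP0 : P ≠ 0 := (monic_prod_of_monic _ _ fun j _ => ((E j).charPoly_monic.map _)).ne_zero
  obtain ⟨L, iF, iN, iG, iA, hsplit⟩ := exists_gal K P
  let ι : R →+* L := (algebraMap K L).comp (algebraMap R K)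
  have hsplit' : ∀ j, ((E j).charPoly.map ι).Splits := by
    intro j
    have h1 : (E j).charPoly.map ι = ((E j).charPoly.map (algebraMap R K)).map (algebraMap K L) := by
      rw [Polynomial.map_map]
    rw [h1]
    refine hsplit.of_dvd (Polynomial.map_ne_zero hP0) (Polynomial.map_dvd _ ?_)
    exact Finset.dvd_prod_of_mem _ (Finset.mem_univ j)
  obtain ⟨z, M, r, γ, n, hM, hγ, hn, hrep⟩ := rep
    (ι := Fin N) (κ := Fin 0)
    (fun j t => ι (u j t)) (fun j => (E j).charPoly.map ι)
    (fun j => ((E j).charPoly_monic.map _).ne_zero) hsplit'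
    (fun j y hy => root_int _ (E j).charPoly_monic hy)
    (fun j => kill ι (E j) (hE j))
    (fun i => i.elim0) (fun i => i.elim0)
  refine ⟨M, hM, fun ρ c => ?_⟩
  obtain ⟨G, hGB, hG⟩ := hrep (ρ + (M - 1) * z)
  have hs : ∀ t, M * t + (ρ + (M - 1) * z + z) = M * (t + z) + ρ := by
    intro t
    have h1 : (M - 1) * z + z = M * z := by
      have h2 : M = (M - 1) + 1 := by omega
      conv_rhs => rw [h2]
      ring
    rw [mul_add, ← h1]
    ring
  simp only [hs] at hG
  let F : EP L r := ∑ k, algebraMap K L (c k) • G k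
  have hF : ∀ t, ev γ F t = algebraMap K L (∑ k, c k * algebraMap R K (u k (M * (t + z) + ρ))) := by
    intro t
    simp only [F, map_sum, map_smul, Finset.sum_apply, Pi.smul_apply, hG, smul_eq_mul, map_mul]
    rfl
  let τ0 : L →ₐ[ℚ] ℂ := IsAlgClosed.lift
  by_cases hF0 : F = 0
  · left
    refine ⟨M * z + ρ, fun t ht htm => ?_⟩
    obtain ⟨t', ht'⟩ : ∃ t', t = M * (t' + z) + ρ := by
      have h1 : (M * z + ρ) ≡ t [MOD M] := by
        refine Nat.ModEq.trans ?_ htm.symm
        have : M * z + ρ ≡ 0 + ρ [MOD M] :=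
          Nat.ModEq.add_right ρ ((Nat.modEq_zero_iff_dvd).2 (dvd_mul_right M _))
        rwa [zero_add] at this
      obtain ⟨t', ht'⟩ := (Nat.modEq_iff_dvd' ht).1 h1
      refine ⟨t', ?_⟩
      rw [mul_add]
      omega
    have h2 := hF t'
    rw [hF0, map_zero, Pi.zero_apply, ← ht'] at h2
    exact (map_eq_zero (algebraMap K L)).1 h2.symm
  · right
    refine AA.cls hM (z := z) (aa_ne hγ (τ0 : L →+* ℂ) hF0) (fun C => C) (fun C hC => hC)
      fun C s hC h1 h2 => h1 ?_
    rw [hF, h2, map_zero]

end Pool.Agent.Q183.AR
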