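import Pool.Agent.Q183.AR.AA

/-!
The inequality for exponential polynomials over a number field, for almost all arguments.
-/

set_option autoImplicit false

namespace Pool.Agent.Q183.AR

open AddMonoidAlgebra Filter

variable {L : Type} [Field L] [NumberField L] {r N : ℕ}

/-- the absolute value of the norm -/
noncomputable def Nt (x : L) : ℝ := ∏ τ : L →ₐ[ℚ] ℂ, ‖τ x‖

theorem Nt_mul (x y : L) : Nt (x * y) = Nt x * Nt y := by
  unfold Nt
  rw [← Finset.prod_mul_distrib]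
  exact Finset.prod_congr rfl fun τ _ => by rw [map_mul, norm_mul]

theorem Nt_one : Nt (1 : L) = 1 := by
  unfold Nt
  simp

theorem Nt_nonneg (x : L) : 0 ≤ Nt x := Finset.prod_nonneg fun _ _ => norm_nonneg _

theorem Nt_pos {x : L} (hx : x ≠ 0) : 0 < Nt x := Finset.prod_pos fun τ _ => norm_pos_iff.2 (by
  rw [map_ne_zero]
  exact hx)

theorem Nt_pow (x : L) (n : ℕ) : Nt (x ^ n) = Nt x ^ n := by
  induction n with
  | zero => rw [pow_zero, pow_zero, Nt_one]
  | succ n ih => rw [pow_succ, pow_succ, Nt_mul, ih]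

theorem Nt_prod {ι : Type} (s : Finset ι) (x : ι → L) : Nt (∏ i ∈ s, x i) = ∏ i ∈ s, Nt (x i) := by
  classical
  induction s using Finset.induction_on with
  | empty => rw [Finset.prod_empty, Finset.prod_empty, Nt_one]
  | insert i s hi ih => rw [Finset.prod_insert hi, Finset.prod_insert hi, Nt_mul, ih]

theorem one_le_Nt {x : L} (hx : IsIntegral ℤ x) (h0 : x ≠ 0) : 1 ≤ Nt x := by
  unfold Nt
  rw [norm_emb]
  have h1 : IsIntegral ℤ (Algebra.norm ℚ x) := Algebra.isIntegral_norm ℚ hx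
  obtain ⟨z, hz⟩ := IsIntegrallyClosed.isIntegral_iff.1 h1
  have h2 : Algebra.norm ℚ x ≠ 0 := Algebra.norm_ne_zero_iff.2 h0
  rw [← hz] at h2 ⊢
  have h3 : z ≠ 0 := by
    rintro rfl
    simp at h2
  have h4 : ((algebraMap ℤ ℚ z : ℚ) : ℝ) = (z : ℝ) := by simp
  rw [h4]
  exact_mod_cast Int.one_le_abs h3

/-- **The inequality**, for almost all arguments. -/
theorem gcore {γ : Fin r → Lˣ} (hγ : Ind γ) {J : Type} [Fintype J]
    (G : J → EP L r) (U : Fin (N + 1) → EP L r)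
    (hG : ∀ j, G j ∈ Bi γ)
    (hU : ∀ (ℓ : Ex r →+ ℤ) i, ∃ u : ℤ, D ℓ (U i) = (u : EP L r) * U i)
    (e : Fin (N + 1) → J → ℕ) (x : J → ℕ) (I0 : Set (Fin (N + 1)))
    (hx : ∀ i0 ∈ I0, ∀ j, ∀ σ : Equiv.Perm (Fin N),
      ∑ k : Fin N, min (e (i0.succAbove (σ k)) j) k ≤ x j)
    (hx0 : ∀ j, x j ≠ 0 → ∃ i, e i j ≠ 0)
    (hsum : ∑ i, U i * ∏ j, G j ^ e i j = 0)
    (hne : ∀ i, U i * ∏ j, G j ^ e i j ≠ 0)
    (hind : LinearIndependent L fun k : Fin N =>
      U ((Fin.last N).succAbove k) * ∏ j, G j ^ e ((Fin.last N).succAbove k) j)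
    (Λ : (L →ₐ[ℚ] ℂ) → Matrix (Fin N) (Fin N) ℂ) (hΛ : ∀ τ, (Λ τ).det ≠ 0) :
    AA fun C s => (∀ i, ev γ (U i) s * ∏ j, ev γ (G j) s ^ e i j ≠ 0) ∧
      ∀ v : Fin (N + 1) → L, (∀ i, IsIntegral ℤ (v i)) → (∀ i, i ∉ I0 → v i = 0) →
        ∑ i, v i * (ev γ (U i) s * ∏ j, ev γ (G j) s ^ e i j) ≠ 0 →
          ∏ i, Nt (ev γ (U i) s * ∏ j, ev γ (G j) s ^ e i j) ≤
            C * Nt (∑ i, v i * (ev γ (U i) s * ∏ j, ev γ (G j) s ^ e i j)) *
              (∏ j, Nt (ev γ (G j) s) ^ x j) *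
              ∏ τ : L →ₐ[ℚ] ℂ, ∏ j : Fin N, ‖∑ k : Fin N, Λ τ j k *
                τ (ev γ (U k.castSucc) s * ∏ j, ev γ (G j) s ^ e k.castSucc j)‖ := by
  classical
  set A : Fin (N + 1) → EP L r := fun i => U i * ∏ j, G j ^ e i j with hAdef
  set a : Fin (N + 1) → ℕ → L := fun i s => ev γ (U i) s * ∏ j, ev γ (G j) s ^ e i j with ha
  have hev2 : ∀ i s, ev γ (A i) s = a i s := by
    intro i s
    simp only [hAdef, ha, map_mul, map_prod, map_pow, Pi.mul_apply, Finset.prod_apply, Pi.pow_apply]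
  let τ0 : L →ₐ[ℚ] ℂ := IsAlgClosed.lift
  -- the Wronskian
  obtain ⟨ℓ, hℓ⟩ := exists_sep (Finset.univ.biUnion fun i => (A i).coeff.support)
  set W := Wi ℓ A (Fin.last N) with hW
  have hWne : W ≠ 0 := by
    rw [hW, Wi]
    exact wr_ne (A := fun k : Fin N => A ((Fin.last N).succAbove k)) hind
      (S := Finset.univ.biUnion fun i => (A i).coeff.support)
      (fun i => Finset.subset_biUnion_of_mem (fun i => (A i).coeff.support) (Finset.mem_univ _)) hℓ
  choose sg hsg using fun i0 => Wi_sign ℓ (A := A) hsum (Fin.last N) i0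
  -- divisibility
  have hH : ∀ i0, ∃ H ∈ Bi γ, i0 ∈ I0 → (∏ j, G j ^ x j) * Wi ℓ A i0 =
      (∏ k : Fin N, A (i0.succAbove k)) * H := by
    intro i0
    by_cases hi0 : i0 ∈ I0
    · obtain ⟨H, h1, h2⟩ := Wi_dvd ℓ hG (hU ℓ) e x (hx i0 hi0)
      exact ⟨H, h1, fun _ => h2⟩
    · exact ⟨0, zero_mem _, fun h => absurd h hi0⟩
  choose H hHB hH using hH
  choose d hd0 hd using fun i0 => Bi_int (hHB i0)
  set d' : ℤ := ∏ i, d i with hd'
  have hd'0 : d' ≠ 0 := Finset.prod_ne_zero_iff.2 fun i _ => hd0 i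
  have hd'' : ∀ i t, IsIntegral ℤ ((d' : L) * ev γ (H i) t) := by
    intro i t
    have h1 : (d' : L) = ((∏ k ∈ Finset.univ.erase i, d k : ℤ) : L) * (d i : L) := by
      rw [hd', ← Finset.mul_prod_erase _ _ (Finset.mem_univ i)]
      push_cast
      ring
    rw [h1, mul_assoc]
    exact (isIntegral_algebraMap (R := ℤ) (x := (∏ k ∈ Finset.univ.erase i, d k : ℤ))).mul (hd i t)
  have hd'L : (d' : L) ≠ 0 := by exact_mod_cast hd'0
  -- almost all
  have c1 : AA fun _ s => ∀ i, ev γ (A i) s ≠ 0 :=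
    AA.all (fun i => aa_ne hγ (τ0 : L →+* ℂ) (hne i)) fun i C C' s _ h => h
  have c2 : AA fun _ s => ev γ W s ≠ 0 := aa_ne hγ (τ0 : L →+* ℂ) hWne
  have c3 := AA.all (fun τ : L →ₐ[ℚ] ℂ => wub hγ (τ : L →+* ℂ)
    (fun k : Fin N => A ((Fin.last N).succAbove k)) ℓ (Λ τ) (hΛ τ)) fun τ C C' s hCC h => h.trans
      (mul_le_mul_of_nonneg_right hCC (Finset.prod_nonneg fun _ _ => norm_nonneg _))
  refine ((c1.and (c2.and c3 (fun _ _ _ _ h => h) (fun C C' s hCC h τ => (h τ).trans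
      (mul_le_mul_of_nonneg_right hCC (Finset.prod_nonneg fun _ _ => norm_nonneg _))))
      (fun _ _ _ _ h => h) (fun C C' s hCC h => ⟨h.1, fun τ => (h.2 τ).trans
      (mul_le_mul_of_nonneg_right hCC (Finset.prod_nonneg fun _ _ => norm_nonneg _))⟩))).imp
    (fun C => Nt (d' : L) * (∏ _τ : L →ₐ[ℚ] ℂ, C)) 0
    (fun C hC => mul_pos (Nt_pos hd'L) (Finset.prod_pos fun _ _ => hC)) ?_
  rintro C s hC - ⟨has, hWs, hWub⟩
  have has' : ∀ i, a i s ≠ 0 := fun i => by
    rw [← hev2]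
    exact has i
  refine ⟨has', fun v hv hv0 hδ => ?_⟩
  set δ := ∑ i, v i * a i s with hδdef
  set g : J → L := fun j => ev γ (G j) s with hg
  have hgne : ∀ j, g j ^ x j ≠ 0 := by
    intro j
    by_cases hxj : x j = 0
    · rw [hxj, pow_zero]
      exact one_ne_zero
    · obtain ⟨i, hi⟩ := hx0 j hxj
      have h1 := has' i
      simp only [ha] at h1
      have h2 := Finset.prod_ne_zero_iff.1 (right_ne_zero_of_mul h1) j (Finset.mem_univ j)
      exact pow_ne_zero _ (fun h3 => h2 (by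
        change g j ^ e i j = 0
        rw [h3, zero_pow hi]))
  -- the main identity
  set y : L := ∑ i, v i * (sg i • ev γ (H i) s) with hy
  have hid : δ * (∏ j, g j ^ x j) * ev γ W s = (∏ i, a i s) * y := by
    rw [hδdef, Finset.sum_mul, Finset.sum_mul, hy, Finset.mul_sum]
    refine Finset.sum_congr rfl fun i _ => ?_
    by_cases hi : i ∈ I0
    · have h1 := congrArg (fun F => ev γ F s) (hH i hi)
      simp only [map_mul, map_prod, map_pow, Pi.mul_apply, Finset.prod_apply, Pi.pow_apply,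
        hev2] at h1
      have h2 : ev γ W s = sg i • ev γ (Wi ℓ A i) s := by
        rw [hW, hsg i]
        rcases Int.units_eq_one_or (sg i) with h | h
        · rw [h, one_smul, one_smul]
        · rw [h, Units.neg_smul, one_smul, Units.neg_smul, one_smul, map_neg]
          rfl
      have h3 : ∏ i, a i s = a i s * ∏ k : Fin N, a (i.succAbove k) s :=
        Fin.prod_univ_succAbove _ i
      rw [h2, h3]
      rcases Int.units_eq_one_or (sg i) with h | h
      · rw [h, one_smul, one_smul]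
        linear_combination (v i * a i s) * h1
      · rw [h, Units.neg_smul, one_smul, Units.neg_smul, one_smul]
        linear_combination (-(v i * a i s)) * h1
    · rw [hv0 i hi]
      ring
  have hyne : y ≠ 0 := by
    intro h0
    rw [h0, mul_zero] at hid
    exact mul_ne_zero (mul_ne_zero hδ (Finset.prod_ne_zero_iff.2 fun j _ => hgne j)) hWs hid
  have hyint : IsIntegral ℤ ((d' : L) * y) := by
    rw [hy, Finset.mul_sum]
    refine IsIntegral.sum _ fun i _ => ?_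
    rcases Int.units_eq_one_or (sg i) with h | h
    · rw [h, one_smul]
      have : (d' : L) * (v i * ev γ (H i) s) = v i * (d' * ev γ (H i) s) := by ring
      rw [this]
      exact (hv i).mul (hd'' i s)
    · rw [h, Units.neg_smul, one_smul]
      have : (d' : L) * (v i * -ev γ (H i) s) = -(v i * (d' * ev γ (H i) s)) := by ring
      rw [this]
      exact ((hv i).mul (hd'' i s)).neg
  set X := ∏ τ : L →ₐ[ℚ] ℂ, ∏ j : Fin N, ‖∑ k : Fin N, Λ τ j k *
    τ (ev γ (U k.castSucc) s * ∏ j, ev γ (G j) s ^ e k.castSucc j)‖ with hX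
  have hX0 : 0 ≤ X := Finset.prod_nonneg fun _ _ => Finset.prod_nonneg fun _ _ => norm_nonneg _
  have hNW : Nt (ev γ W s) ≤ (∏ _τ : L →ₐ[ℚ] ℂ, C) * X := by
    unfold Nt
    rw [hX, ← Finset.prod_mul_distrib]
    refine Finset.prod_le_prod (fun τ _ => norm_nonneg _) fun τ _ => ?_
    refine (hWub τ).trans (le_of_eq ?_)
    congr 1
    refine Finset.prod_congr rfl fun j _ => ?_
    congr 1
    refine Finset.sum_congr rfl fun k _ => ?_
    rw [hev2, Fin.succAbove_last]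
    rfl
  have h1 := congrArg (fun z => Nt (z * (d' : L))) hid
  simp only [Nt_mul, Nt_prod, Nt_pow] at h1
  have h2 := one_le_Nt hyint (mul_ne_zero hd'L hyne)
  rw [Nt_mul] at h2
  have h3 : 0 ≤ ∏ i, Nt (a i s) := Finset.prod_nonneg fun i _ => Nt_nonneg _
  have h4 : 0 ≤ Nt δ * (∏ j, Nt (g j) ^ x j) * Nt (d' : L) :=
    mul_nonneg (mul_nonneg (Nt_nonneg _) (Finset.prod_nonneg fun j _ =>
      pow_nonneg (Nt_nonneg _) _)) (Nt_nonneg _)
  calc ∏ i, Nt (a i s) ≤ (∏ i, Nt (a i s)) * (Nt (d' : L) * Nt y) :=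
        le_mul_of_one_le_right h3 h2
    _ = (∏ i, Nt (a i s)) * Nt y * Nt (d' : L) := by ring
    _ = Nt δ * (∏ j, Nt (g j) ^ x j) * Nt (d' : L) * Nt (ev γ W s) := by
      rw [← h1]
      ring
    _ ≤ Nt δ * (∏ j, Nt (g j) ^ x j) * Nt (d' : L) * ((∏ _τ : L →ₐ[ℚ] ℂ, C) * X) :=
      mul_le_mul_of_nonneg_left hNW h4
    _ = _ := by ring

end Pool.Agent.Q183.AR
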