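import Pool.Agent.Q183.AR.Rep
import Pool.Agent.Q183.AR.Gal

/-!
The inequality for linear recurrences over number fields.
-/

set_option autoImplicit false

namespace Pool.Agent.Q183.AR

open Polynomial
open Pool.Agent.Q183.UE (sh aeval_sh sh_pow)

/-- exponential polynomials with zero values are zero -/
theorem ev_eq_zero {E : Type} [Field E] {r : ℕ} {γ : Fin r → Eˣ} (hγ : Ind γ) (τ : E →+* ℂ)
    {F : EP E r} (h : ∀ t, ev γ F t = 0) : F = 0 := by
  by_contra hF
  obtain ⟨l, hl⟩ := exists_top (wτ γ τ) hF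
  obtain ⟨c, T, t0, hc, h1⟩ := ev_window hγ τ hl
  obtain ⟨s, h2, h3, h4⟩ := h1 (max t0 1) (le_max_left _ _)
  have h5 : 0 < c * sz l s := mul_pos hc (sz_pos _ ((le_max_right _ _).trans h2))
  rw [h s, map_zero, norm_zero] at h4
  linarith

theorem D_single_U {E : Type} [Field E] {r : ℕ} (ℓ : Ex r →+ ℤ) (m : Ex r) (c : E) :
    D ℓ (AddMonoidAlgebra.single m c : EP E r) =
      ((ℓ m : ℤ) : EP E r) * AddMonoidAlgebra.single m c := by
  have h1 : D ℓ (AddMonoidAlgebra.single m c : EP E r) =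
      AddMonoidAlgebra.single m ((ℓ m : E) * c) := DL_single ℓ m c
  rw [h1]
  have h2 : ((ℓ m : ℤ) : EP E r) = AddMonoidAlgebra.single 0 ((ℓ m : ℤ) : E) := rfl
  rw [h2, AddMonoidAlgebra.single_mul_single, zero_add]

/-- the recurrence as a polynomial in the shift -/
theorem kill {R L : Type} [CommRing R] [Field L] (ι : R →+* L) (E : LinearRecurrence R)
    {f : ℕ → R} (hf : E.IsSolution f) :
    aeval ((sh L).toLinearMap : Module.End L (ℕ → L)) (E.charPoly.map ι) (fun t => ι (f t)) = 0 := by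
  funext t
  unfold LinearRecurrence.charPoly
  rw [Polynomial.map_sub, Polynomial.map_monomial, map_one, Polynomial.map_sum, map_sub, map_sum,
    LinearMap.sub_apply, LinearMap.sum_apply, Pi.sub_apply, Finset.sum_apply, aeval_monomial,
    map_one, one_mul, sh_pow]
  have h1 : ∀ i : Fin E.order, (aeval ((sh L).toLinearMap : Module.End L (ℕ → L))
      ((monomial (i : ℕ) (E.coeffs i)).map ι)) (fun t => ι (f t)) t = ι (E.coeffs i * f (t + i)) := by
    intro i
    rw [Polynomial.map_monomial, aeval_monomial, Module.End.mul_apply, Module.algebraMap_end_apply,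
      Pi.smul_apply, sh_pow, smul_eq_mul, map_mul]
  simp only [h1]
  rw [hf t, map_sum, sub_self]
  rfl

theorem root_int {R L : Type} [CommRing R] [Algebra.IsIntegral ℤ R] [Field L] (ι : R →+* L)
    {p : R[X]} (hp : p.Monic) {x : L} (hx : (p.map ι).IsRoot x) : IsIntegral ℤ x := by
  let _ : Algebra R L := ι.toAlgebra
  have h1 : IsIntegral R x := ⟨p, hp, by rwa [IsRoot.def, eval_map] at hx⟩
  exact isIntegral_trans x h1

/-- **The inequality for linear recurrences.** -/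
theorem main {R K : Type} [CommRing R] [Algebra.IsIntegral ℤ R] [Field K] [NumberField K]
    [Algebra R K] {N : ℕ} (hN : 0 < N) {J : Type} [Fintype J] (g : J → ℕ → R)
    (hg : ∀ j, ∃ E : LinearRecurrence R, E.IsSolution (g j))
    (μ : Fin (N + 1) → R) (hμ : ∀ i, algebraMap R K (μ i) ≠ 0)
    (e : Fin (N + 1) → J → ℕ) (x : J → ℕ) (I0 : Set (Fin (N + 1)))
    (hx : ∀ i0 ∈ I0, ∀ j, ∀ σ : Equiv.Perm (Fin N),
      ∑ k : Fin N, min (e (i0.succAbove (σ k)) j) k ≤ x j)
    (hx0 : ∀ j, x j ≠ 0 → ∃ i, e i j ≠ 0)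
    (hsum : ∀ t, algebraMap R K (∑ i, μ i ^ t * ∏ j, g j t ^ e i j) = 0) :
    ∃ M : ℕ, 0 < M ∧ ∀ ρ : ℕ,
      (∃ (c : Fin (N + 1) → K) (z : ℕ), c (Fin.last N) = 0 ∧ c ≠ 0 ∧ ∀ t, z ≤ t → t ≡ ρ [MOD M] →
        ∑ i, c i * algebraMap R K (μ i ^ t * ∏ j, g j t ^ e i j) = 0) ∨
      ∃ (C : ℝ) (T t0 : ℕ), 0 < C ∧ ∀ t, t0 ≤ t → ∃ s, t ≤ s ∧ s < t + T ∧ s ≡ ρ [MOD M] ∧
        (∀ i, algebraMap R K (μ i ^ s * ∏ j, g j s ^ e i j) ≠ 0) ∧
        ∀ v : Fin (N + 1) → R, (∀ i, i ∉ I0 → v i = 0) →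
          algebraMap R K (∑ i, v i * (μ i ^ s * ∏ j, g j s ^ e i j)) ≠ 0 →
          ∀ κ : (K →ₐ[ℚ] ℂ) → Fin (N + 1),
            ∏ σ : K →ₐ[ℚ] ℂ, ‖σ (algebraMap R K (μ (κ σ) ^ s * ∏ j, g j s ^ e (κ σ) j))‖ ≤
              C * (∏ σ : K →ₐ[ℚ] ℂ,
                ‖σ (algebraMap R K (∑ i, v i * (μ i ^ s * ∏ j, g j s ^ e i j)))‖) *
                ∏ j, (∏ σ : K →ₐ[ℚ] ℂ, ‖σ (algebraMap R K (g j s))‖) ^ x j := by
  classical
  choose E hE using hg
  set P : K[X] := ∏ j, (E j).charPoly.map (algebraMap R K) with hP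
  have hP0 : P ≠ 0 := (monic_prod_of_monic _ _ fun j _ => ((E j).charPoly_monic.map _)).ne_zero
  obtain ⟨L, iF, iN, iG, iA, hsplit⟩ := exists_gal K P
  let ι : R →+* L := (algebraMap K L).comp (algebraMap R K)
  have hsplit' : ∀ j, ((E j).charPoly.map ι).Splits := by
    intro j
    have h1 : (E j).charPoly.map ι = ((E j).charPoly.map (algebraMap R K)).map (algebraMap K L) := by
      rw [Polynomial.map_map]
    rw [h1]
    refine hsplit.of_dvd (Polynomial.map_ne_zero hP0) (Polynomial.map_dvd _ ?_)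
    exact Finset.dvd_prod_of_mem _ (Finset.mem_univ j)
  let ιφ : (L ≃ₐ[ℚ] L) → R →+* L := fun φ => (φ : L →+* L).comp ι
  have hιφ : ∀ φ y, ιφ φ y = φ (ι y) := fun φ y => rfl
  have hμL : ∀ φ i, ιφ φ (μ i) ≠ 0 := by
    intro φ i
    rw [hιφ, EmbeddingLike.map_ne_zero_iff]
    exact (_root_.map_ne_zero (algebraMap K L)).2 (hμ i)
  obtain ⟨z, M, r, γ, n, hM, hγ, hn, hrep⟩ := rep
    (ι := (L ≃ₐ[ℚ] L) × J) (κ := (L ≃ₐ[ℚ] L) × Fin (N + 1))
    (fun q t => ιφ q.1 (g q.2 t)) (fun q => (E q.2).charPoly.map (ιφ q.1))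
    (fun q => ((E q.2).charPoly_monic.map _).ne_zero)
    (fun q => by
      have h1 : (E q.2).charPoly.map (ιφ q.1) = ((E q.2).charPoly.map ι).map (q.1 : L →+* L) := by
        rw [Polynomial.map_map]
      rw [h1]
      exact (hsplit' q.2).map _)
    (fun q y hy => root_int _ (E q.2).charPoly_monic hy)
    (fun q => kill (ιφ q.1) (E q.2) (hE q.2))
    (fun q => ιφ q.1 (μ q.2)) (fun q => hμL q.1 q.2)
  refine ⟨M, hM, fun ρ => ?_⟩
  obtain ⟨F, hFB, hF⟩ := hrep (ρ + (M - 1) * z)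
  have hs : ∀ t, M * t + (ρ + (M - 1) * z + z) = M * (t + z) + ρ := by
    intro t
    have h1 : (M - 1) * z + z = M * z := by
      have h2 : M = (M - 1) + 1 := by omega
      conv_rhs => rw [h2]
      ring
    rw [mul_add, ← h1]
    ring
  simp only [hs] at hF
  let G : (L ≃ₐ[ℚ] L) → J → EP L r := fun φ j => F (φ, j)
  let U : (L ≃ₐ[ℚ] L) → Fin (N + 1) → EP L r := fun φ i =>
    AddMonoidAlgebra.single (n (φ, i), 0) (ιφ φ (μ i) ^ (M * z + ρ))
  have hG : ∀ φ j t, ev γ (G φ j) t = φ (ι (g j (M * (t + z) + ρ))) := fun φ j t => hF (φ, j) t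
  have hU : ∀ φ i t, ev γ (U φ i) t = φ (ι (μ i ^ (M * (t + z) + ρ))) := by
    intro φ i t
    simp only [U]
    rw [ev_single, pow_zero, one_mul, hn]
    simp only
    rw [← pow_mul, ← pow_add, hιφ, ← map_pow, ← map_pow]
    congr 3
    ring
  have h1G : ∀ j t, ev γ (G 1 j) t = ι (g j (M * (t + z) + ρ)) := fun j t => hG 1 j t
  have h1U : ∀ i t, ev γ (U 1 i) t = ι (μ i ^ (M * (t + z) + ρ)) := fun i t => hU 1 i t
  let A : Fin (N + 1) → EP L r := fun i => U 1 i * ∏ j, G 1 j ^ e i j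
  have hA : ∀ i t, ev γ (A i) t =
      ι (μ i ^ (M * (t + z) + ρ) * ∏ j, g j (M * (t + z) + ρ) ^ e i j) := by
    intro i t
    simp only [A, map_mul, map_prod, map_pow, Pi.mul_apply, Finset.prod_apply, Pi.pow_apply, h1G,
      h1U]
  let τ0 : L →ₐ[ℚ] ℂ := IsAlgClosed.lift
  have hsumA : ∑ i, A i = 0 := by
    refine ev_eq_zero hγ (τ0 : L →+* ℂ) fun t => ?_
    rw [map_sum, Finset.sum_apply]
    simp only [hA]
    rw [← map_sum]
    change algebraMap K L (algebraMap R K _) = 0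
    rw [hsum, map_zero]
  by_cases hind : LinearIndependent L fun k : Fin N => A ((Fin.last N).succAbove k)
  · -- independent case
    right
    have hne : ∀ i, A i ≠ 0 := by
      intro i
      rcases eq_or_ne i (Fin.last N) with rfl | hi
      · intro h0
        rw [Fin.sum_univ_succAbove _ (Fin.last N), h0, zero_add] at hsumA
        have h1 := Fintype.linearIndependent_iff.1 hind (fun _ => 1) (by
          simpa using hsumA) ⟨0, hN⟩
        exact one_ne_zero h1
      · obtain ⟨k, rfl⟩ := Fin.exists_succAbove_eq hi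
        exact hind.ne_zero k
    obtain ⟨C, T, t0, hC, hcore⟩ := core hγ (τ0 : L →+* ℂ) G U (fun j => hFB (1, j))
      (fun ℓ i => ⟨_, D_single_U ℓ _ _⟩)
      (fun φ j t => by rw [hG, h1G]) (fun φ i t => by rw [hU, h1U]) e x I0 hx hx0 hsumA hne hind
    refine ⟨max C 1, M + M * T + ρ + M * z, M * t0, lt_max_of_lt_right one_pos, fun t ht => ?_⟩
    have ht' : t0 ≤ t / M + 1 := by
      have : t0 ≤ t / M := (Nat.le_div_iff_mul_le hM).2 (by rw [mul_comm]; exact ht)
      omega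
    obtain ⟨s', h1, h2, h3, h4⟩ := hcore (t / M + 1) ht'
    set s := M * (s' + z) + ρ with hsdef
    have hdm := Nat.div_add_mod t M
    have hml := Nat.mod_lt t hM
    have hval : ∀ i, ev γ (U 1 i) s' * ∏ j, ev γ (G 1 j) s' ^ e i j =
        ι (μ i ^ s * ∏ j, g j s ^ e i j) := by
      intro i
      rw [← hA i s']
      simp only [A, map_mul, map_prod, map_pow, Pi.mul_apply, Finset.prod_apply, Pi.pow_apply]
    simp only [hval] at h3 h4
    simp only [h1G, ← hsdef] at h4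
    refine ⟨s, ?_, ?_, ?_, fun i h0 => h3 i ?_, fun v hv hδ κ => ?_⟩
    · have h5 : M * (t / M + 1) ≤ M * s' := Nat.mul_le_mul_left M h1
      rw [hsdef, mul_add]
      rw [mul_add, mul_one] at h5
      omega
    · have h5 : M * s' ≤ M * (t / M + 1 + T) := Nat.mul_le_mul_left M h2.le
      rw [hsdef, mul_add]
      rw [mul_add, mul_add, mul_one] at h5
      have h6 : t / M + 1 + T ≥ s' + 1 := h2
      have h7 : M * (s' + 1) ≤ M * (t / M + 1 + T) := Nat.mul_le_mul_left M h6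
      rw [mul_add, mul_add, mul_add, mul_one] at h7
      omega
    · rw [hsdef]
      have : M * (s' + z) + ρ ≡ 0 + ρ [MOD M] :=
        Nat.ModEq.add_right ρ ((Nat.modEq_zero_iff_dvd).2 (dvd_mul_right M _))
      rwa [zero_add] at this
    · change algebraMap K L (algebraMap R K _) = 0
      rw [h0, map_zero]
    · have h5 := h4 (fun i => ι (v i)) (fun i => (Algebra.IsIntegral.isIntegral (R := ℤ) (v i)).map
          (ι : R →+* L).toIntAlgHom) (fun i hi => by rw [hv i hi, map_zero])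
        (by
          have h6 : ∑ i, ι (v i) * ι (μ i ^ s * ∏ j, g j s ^ e i j) =
              ι (∑ i, v i * (μ i ^ s * ∏ j, g j s ^ e i j)) := by
            rw [map_sum]
            exact Finset.sum_congr rfl fun i _ => (map_mul _ _ _).symm
          rw [h6]
          change algebraMap K L (algebraMap R K _) ≠ 0
          rw [_root_.map_ne_zero]
          exact hδ) (fun φ => κ ((τ0.comp (φ : L →ₐ[ℚ] L)).domRestrict K))
      have h6 : ∑ i, ι (v i) * ι (μ i ^ s * ∏ j, g j s ^ e i j) =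
          ι (∑ i, v i * (μ i ^ s * ∏ j, g j s ^ e i j)) := by
        rw [map_sum]
        exact Finset.sum_congr rfl fun i _ => (map_mul _ _ _).symm
      rw [h6] at h5
      set d := Module.finrank K L with hd
      have hd0 : 0 < d := by
        have : FiniteDimensional K L := FiniteDimensional.right ℚ K L
        exact Module.finrank_pos
      have hNm : ∀ y : R, Nm (τ0 : L →+* ℂ) (ι y) =
          (∏ σ : K →ₐ[ℚ] ℂ, ‖σ (algebraMap R K y)‖) ^ d := by
        intro y
        rw [← prod_restrict (L := L) (fun σ => ‖σ (algebraMap R K y)‖), ← prod_gal τ0]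
        rfl
      have hL : ∏ φ : L ≃ₐ[ℚ] L, ‖(τ0 : L →+* ℂ) (φ (ι (μ (κ ((τ0.comp (φ : L →ₐ[ℚ] L)).domRestrict K)) ^ s *
          ∏ j, g j s ^ e (κ ((τ0.comp (φ : L →ₐ[ℚ] L)).domRestrict K)) j)))‖ =
          (∏ σ : K →ₐ[ℚ] ℂ, ‖σ (algebraMap R K (μ (κ σ) ^ s * ∏ j, g j s ^ e (κ σ) j))‖) ^ d := by
        rw [← prod_restrict (L := L)
          (fun σ => ‖σ (algebraMap R K (μ (κ σ) ^ s * ∏ j, g j s ^ e (κ σ) j))‖), ← prod_gal τ0]
        rfl
      rw [hL] at h5
      simp only [hNm] at h5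
      set X := ∏ σ : K →ₐ[ℚ] ℂ, ‖σ (algebraMap R K (μ (κ σ) ^ s * ∏ j, g j s ^ e (κ σ) j))‖ with hX
      set Y1 := ∏ σ : K →ₐ[ℚ] ℂ,
        ‖σ (algebraMap R K (∑ i, v i * (μ i ^ s * ∏ j, g j s ^ e i j)))‖ with hY1
      set Y2 := ∏ j, (∏ σ : K →ₐ[ℚ] ℂ, ‖σ (algebraMap R K (g j s))‖) ^ x j with hY2
      have hY10 : 0 ≤ Y1 := Finset.prod_nonneg fun _ _ => norm_nonneg _
      have hY20 : 0 ≤ Y2 := Finset.prod_nonneg fun _ _ => pow_nonneg
        (Finset.prod_nonneg fun _ _ => norm_nonneg _) _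
      have h7 : ∏ j, ((∏ σ : K →ₐ[ℚ] ℂ, ‖σ (algebraMap R K (g j s))‖) ^ d) ^ x j = Y2 ^ d := by
        rw [hY2, ← Finset.prod_pow]
        exact Finset.prod_congr rfl fun j _ => by rw [← pow_mul, ← pow_mul, mul_comm]
      rw [h7] at h5
      have h8 : X ^ d ≤ (max C 1 * Y1 * Y2) ^ d := by
        refine h5.trans ?_
        rw [mul_pow, mul_pow]
        refine mul_le_mul_of_nonneg_right (mul_le_mul_of_nonneg_right ?_ (pow_nonneg hY10 _))
          (pow_nonneg hY20 _)
        calc C ≤ max C 1 := le_max_left _ _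
          _ ≤ (max C 1) ^ d := le_self_pow₀ (le_max_right _ _) hd0.ne'
      exact le_of_pow_le_pow_left₀ hd0.ne' (by positivity) h8
  · -- dependent case
    left
    rw [Fintype.linearIndependent_iff] at hind
    push Not at hind
    obtain ⟨c, hc, k0, hk0⟩ := hind
    have : ∃ f : L →ₗ[K] K, f (c k0) ≠ 0 := by
      by_contra hcon
      push Not at hcon
      exact hk0 ((Module.forall_dual_apply_eq_zero_iff K (c k0)).1 hcon)
    obtain ⟨f, hf⟩ := this
    refine ⟨Fin.snoc (fun k => f (c k)) 0, M * z + ρ, Fin.snoc_last _ _, ?_, fun t ht htm => ?_⟩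
    · intro h0
      apply hf
      have h1 := congrFun h0 (Fin.castSucc k0)
      rwa [Fin.snoc_castSucc] at h1
    · obtain ⟨t', ht'⟩ : ∃ t', t = M * (t' + z) + ρ := by
        have h1 : (M * z + ρ) ≡ t [MOD M] := by
          refine Nat.ModEq.trans ?_ htm.symm
          have : M * z + ρ ≡ 0 + ρ [MOD M] :=
            Nat.ModEq.add_right ρ ((Nat.modEq_zero_iff_dvd).2 (dvd_mul_right M _))
          rwa [zero_add] at this
        obtain ⟨t', ht'⟩ := (Nat.modEq_iff_dvd' ht).1 h1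
        refine ⟨t', ?_⟩
        rw [mul_add]
        omega
      rw [Fin.sum_univ_castSucc, Fin.snoc_last, zero_mul, add_zero]
      simp only [Fin.snoc_castSucc]
      have h1 := congrArg (fun F : EP L r => ev γ F t') hc
      simp only [map_sum, map_smul, map_zero, Finset.sum_apply, Pi.smul_apply, Pi.zero_apply, hA,
        ← ht', smul_eq_mul, Fin.succAbove_last] at h1
      have h2 := congrArg f h1
      rw [map_sum, map_zero] at h2
      rw [← h2]
      refine Finset.sum_congr rfl fun k _ => ?_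
      have h3 : c k * ι (μ k.castSucc ^ t * ∏ j, g j t ^ e k.castSucc j) =
          (algebraMap R K (μ k.castSucc ^ t * ∏ j, g j t ^ e k.castSucc j)) • c k := by
        rw [Algebra.smul_def, mul_comm]
        rfl
      rw [h3, map_smul, smul_eq_mul, mul_comm]

end Pool.Agent.Q183.AR
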