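import Pool.Agent.Q183.AR.GCor

/-!
Integer linear recurrences, almost all arguments.
-/

set_option autoImplicit false

namespace Pool.Agent.Q183.AR

/-- **Integer linear recurrences**: the inequality of abc type, for almost all arguments. -/
theorem intabc {N : ℕ} (hN : 0 < N) {J : Type} [Fintype J] (g : J → ℕ → ℤ)
    (hg : ∀ j, ∃ E : LinearRecurrence ℤ, E.IsSolution (g j))
    (κ μ : Fin (N + 1) → ℤ) (hμ : ∀ i, μ i ≠ 0)
    (e : Fin (N + 1) → J → ℕ) (m x : J → ℕ) (hm : ∀ i j, m j ≤ e i j) (I0 : Set (Fin (N + 1)))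
    (hx : ∀ i0 ∈ I0, ∀ j, ∀ σ : Equiv.Perm (Fin N),
      ∑ k : Fin N, min (e (i0.succAbove (σ k)) j - m j) k ≤ x j)
    (hx0 : ∀ j, x j ≠ 0 → ∃ i, e i j ≠ m j)
    (hsum : ∀ t, ∑ i, κ i * μ i ^ t * ∏ j, g j t ^ e i j = 0) :
    ∃ M : ℕ, 0 < M ∧ ∀ ρ : ℕ,
      (∃ (c : Fin (N + 1) → ℤ) (z : ℕ), c (Fin.last N) = 0 ∧ c ≠ 0 ∧ ∀ t, z ≤ t → t ≡ ρ [MOD M] →
        ∑ i, c i * (κ i * μ i ^ t * ∏ j, g j t ^ e i j) = 0) ∨
      AA fun C s => s ≡ ρ [MOD M] →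
        (∀ i, κ i * μ i ^ s * ∏ j, g j s ^ e i j ≠ 0) ∧
        ∀ v : Fin (N + 1) → ℤ, (∀ i, i ∉ I0 → v i = 0) →
          ∑ i, v i * (κ i * μ i ^ s * ∏ j, g j s ^ e i j) ≠ 0 →
          ∀ i, |((κ i * μ i ^ s * ∏ j, g j s ^ e i j : ℤ) : ℝ)| ≤
              C * |((∑ i, v i * (κ i * μ i ^ s * ∏ j, g j s ^ e i j) : ℤ) : ℝ)| *
                ∏ j, |(g j s : ℝ)| ^ x j := by
  classical
  have hinj : Function.Injective (algebraMap ℤ ℚ) := (algebraMap ℤ ℚ).injective_int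
  obtain ⟨M, hM, h⟩ := gabc (R := ℤ) (K := ℚ) hN g hg κ μ
    (fun i h0 => hμ i (hinj (h0.trans (map_zero _).symm))) e m x hm I0 hx hx0
    (fun t => by rw [hsum t, map_zero])
  refine ⟨M, hM, fun ρ => ?_⟩
  rcases h ρ with ⟨c, z, hc0, hc1, hc2⟩ | h1
  · left
    obtain ⟨c', d, hd, hc'0, hc'⟩ := clear c hc1
    refine ⟨c', z, ?_, hc'0, fun t ht htm => ?_⟩
    · have h3 := hc' (Fin.last N)
      rw [hc0, mul_zero] at h3
      exact_mod_cast h3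
    · have h3 := hc2 t ht htm
      have h4 : ((∑ i, c' i * (κ i * μ i ^ t * ∏ j, g j t ^ e i j) : ℤ) : ℚ) =
          d * ∑ i, c i * algebraMap ℤ ℚ (κ i * μ i ^ t * ∏ j, g j t ^ e i j) := by
        rw [Finset.mul_sum, Int.cast_sum]
        refine Finset.sum_congr rfl fun i _ => ?_
        rw [Int.cast_mul, hc' i, mul_assoc]
        rfl
      rw [h3, mul_zero] at h4
      exact_mod_cast h4
  · right
    refine h1.imp (fun C => C) 0 (fun C hC => hC) fun C s hC _ h2 hs => ?_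
    obtain ⟨h5, h6⟩ := h2 hs
    refine ⟨fun i h0 => h5 i (by rw [h0, map_zero]), fun v hv hδ i => ?_⟩
    have h7 := h6 v hv (fun h0 => hδ (hinj (h0.trans (map_zero _).symm))) (fun _ => i)
    have P := fun n => prod_emb_int (K := ℚ) finrank_rat n
    simp only [P] at h7
    exact h7

theorem prod_emb_one {K : Type} [Field K] [NumberField K] (hK : Module.finrank ℚ K = 1)
    (f : (K →ₐ[ℚ] ℂ) → ℝ) (y : ℝ) (hf : ∀ σ, f σ = y) : ∏ σ : K →ₐ[ℚ] ℂ, f σ = y := by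
  rw [Finset.prod_congr rfl fun σ _ => hf σ, Finset.prod_const, Finset.card_univ,
    AlgHom.card ℚ K ℂ, hK, pow_one]

/-- **Linear forms at integer linear recurrences**, for almost all arguments. -/
theorem intforms {N : ℕ} (hN : 0 < N) (u : Fin N → ℕ → ℤ) (hu : ∀ k, Rec (u k)) :
    ∃ M : ℕ, 0 < M ∧ ∀ ρ : ℕ,
      (∃ (c : Fin N → ℤ) (z : ℕ), c ≠ 0 ∧ ∀ t, z ≤ t → t ≡ ρ [MOD M] → ∑ k, c k * u k t = 0) ∨
      ∀ Λ : Matrix (Fin N) (Fin N) ℂ, Λ.det ≠ 0 →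
      AA fun C s => s ≡ ρ [MOD M] → (∀ k, u k s ≠ 0) ∧
        1 ≤ C * ∏ j : Fin N, ‖∑ k : Fin N, Λ j k * (u k s : ℂ)‖ := by
  classical
  have hinj : Function.Injective (algebraMap ℤ ℚ) := (algebraMap ℤ ℚ).injective_int
  obtain ⟨M, hM, h⟩ := gforms (R := ℤ) (K := ℚ) hN u hu
  refine ⟨M, hM, fun ρ => ?_⟩
  rcases h ρ with ⟨c, z, hc1, hc2⟩ | h1
  · left
    obtain ⟨c', d, hd, hc'0, hc'⟩ := clear c hc1
    refine ⟨c', z, hc'0, fun t ht htm => ?_⟩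
    have h3 := hc2 t ht htm
    have h4 : ((∑ i, c' i * u i t : ℤ) : ℚ) = d * ∑ i, c i * algebraMap ℤ ℚ (u i t) := by
      rw [Finset.mul_sum, Int.cast_sum]
      refine Finset.sum_congr rfl fun i _ => ?_
      rw [Int.cast_mul, hc' i, mul_assoc]
      rfl
    rw [h3, mul_zero] at h4
    exact_mod_cast h4
  · right
    intro Λ hΛ
    refine (h1 (fun _ => Λ) fun _ => hΛ).imp (fun C => C) 0 (fun C hC => hC)
      fun C s hC _ h2 hs => ?_
    obtain ⟨h3, h4⟩ := h2 hs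
    refine ⟨fun k h0 => h3 k (by rw [h0, map_zero]), ?_⟩
    rw [prod_emb_one (K := ℚ) finrank_rat _ (∏ j : Fin N, ‖∑ k : Fin N, Λ j k * (u k s : ℂ)‖)
      (fun σ => by
        refine Finset.prod_congr rfl fun j _ => ?_
        congr 1
        refine Finset.sum_congr rfl fun k _ => ?_
        have h5 : algebraMap ℤ ℚ (u k s) = ((u k s : ℤ) : ℚ) := by simp
        rw [h5, map_intCast])] at h4
    exact h4

end Pool.Agent.Q183.AR
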