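import Pool.Agent.Q183.AR.IntZ
import Pool.Agent.Q183.AR.Clo

/-!
Two products of powers of linear recurrences.
-/

set_option autoImplicit false

namespace Pool.Agent.Q183.AR

/-- **Two terms**: lower bound for the difference of two products of powers of linear recurrences. -/
theorem two {J : Type} [Fintype J] (a : J → ℕ → ℤ) (ha : ∀ i, Rec (a i)) (p q : ℤ) (hp : p ≠ 0)
    (hq : q ≠ 0) (b c : J → ℕ) (hbc : ∀ i, b i ≠ 0 ∨ c i ≠ 0) :
    ∃ M : ℕ, 0 < M ∧ ∀ ρ : ℕ,
      (∃ (u v : ℤ) (z : ℕ), (u ≠ 0 ∨ v ≠ 0) ∧ ∀ t, z ≤ t → t ≡ ρ [MOD M] →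
        u * (p ^ t * ∏ i, a i t ^ b i) = v * (q ^ t * ∏ i, a i t ^ c i)) ∨
      ∃ (C : ℝ) (T z : ℕ), 0 < C ∧ ∀ t, z ≤ t → ∃ s, t ≤ s ∧ s < t + T ∧ s ≡ ρ [MOD M] ∧
        (∀ i, a i s ≠ 0) ∧ p ^ s * ∏ i, a i s ^ b i ≠ q ^ s * ∏ i, a i s ^ c i ∧
        |((p ^ s * ∏ i, a i s ^ b i : ℤ) : ℝ)| ≤
          C * |((p ^ s * ∏ i, a i s ^ b i - q ^ s * ∏ i, a i s ^ c i : ℤ) : ℝ)| *
            ∏ i, |(a i s : ℝ)| ∧
        |((q ^ s * ∏ i, a i s ^ c i : ℤ) : ℝ)| ≤
          C * |((p ^ s * ∏ i, a i s ^ b i - q ^ s * ∏ i, a i s ^ c i : ℤ) : ℝ)| *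
            ∏ i, |(a i s : ℝ)| := by
  classical
  let h : ℕ → ℤ := fun t => p ^ t * ∏ i, a i t ^ b i - q ^ t * ∏ i, a i t ^ c i
  have hh : Rec h := ((Rec.geom p).mul (Rec.prod _ fun i _ => (ha i).pow (b i))).sub
    ((Rec.geom q).mul (Rec.prod _ fun i _ => (ha i).pow (c i)))
  let g : J ⊕ Unit → ℕ → ℤ := Sum.elim a fun _ => h
  let κ : Fin 3 → ℤ := ![1, -1, -1]
  let μ : Fin 3 → ℤ := ![p, q, 1]
  let e : Fin 3 → J ⊕ Unit → ℕ := ![Sum.elim b fun _ => 0, Sum.elim c fun _ => 0,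
    Sum.elim (fun _ => 0) fun _ => 1]
  let x : J ⊕ Unit → ℕ := Sum.elim (fun _ => 1) fun _ => 0
  have hA : ∀ t, κ 0 * μ 0 ^ t * ∏ j, g j t ^ e 0 j = p ^ t * ∏ i, a i t ^ b i := by
    intro t
    rw [Fintype.prod_sum_type]
    simp [κ, μ, g, e]
  have hB : ∀ t, κ 1 * μ 1 ^ t * ∏ j, g j t ^ e 1 j = -(q ^ t * ∏ i, a i t ^ c i) := by
    intro t
    rw [Fintype.prod_sum_type]
    simp [κ, μ, g, e]
  have hC : ∀ t, κ 2 * μ 2 ^ t * ∏ j, g j t ^ e 2 j = -h t := by
    intro t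
    rw [Fintype.prod_sum_type]
    simp [κ, μ, g, e]
  obtain ⟨M, hM, hmain⟩ := intZ (N := 2) (by norm_num) g (by
      rintro (i | _)
      · exact ha i
      · exact hh) κ μ (by
      intro i
      fin_cases i
      · exact hp
      · exact hq
      · exact one_ne_zero) e x {2} (by
      rintro i0 hi0 j σ
      rw [Set.mem_singleton_iff] at hi0
      subst hi0
      rw [Fin.sum_univ_two]
      rcases j with j | j
      · simp only [x, Sum.elim_inl, Fin.val_zero, Fin.val_one]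
        omega
      · have h1 : ∀ k : Fin 2, e ((2 : Fin 3).succAbove k) (Sum.inr j) = 0 := by
          intro k
          fin_cases k <;> rfl
        rw [h1, h1]
        simp) (by
      rintro (i | _) hi
      · rcases hbc i with h1 | h1
        · exact ⟨0, h1⟩
        · exact ⟨1, h1⟩
      · exact absurd rfl hi) (by
      intro t
      rw [Fin.sum_univ_three, hA, hB, hC]
      simp only [h]
      ring)
  refine ⟨M, hM, fun ρ => ?_⟩
  rcases hmain ρ with ⟨w, z, hw0, hw1, hw2⟩ | ⟨C, T, z, hC0, h1⟩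
  · left
    refine ⟨w 0, w 1, z, ?_, fun t ht htm => ?_⟩
    · by_contra hcon
      push Not at hcon
      apply hw1
      funext i
      fin_cases i
      · exact hcon.1
      · exact hcon.2
      · exact hw0
    · have h3 := hw2 t ht htm
      rw [Fin.sum_univ_three, hA, hB, hC] at h3
      have h4 : w 2 = 0 := hw0
      rw [h4] at h3
      linear_combination h3
  · right
    refine ⟨C, T, z, hC0, fun t ht => ?_⟩
    obtain ⟨s, h2, h3, h4, h5, h6⟩ := h1 t ht
    have h50 := h5 0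
    have h51 := h5 1
    have h52 := h5 2
    rw [hA] at h50
    rw [hB, neg_ne_zero] at h51
    rw [hC, neg_ne_zero] at h52
    have h7 := h6 (Pi.single 2 1) (fun i hi => Pi.single_eq_of_ne hi _)
    have h8 : ∑ i, (Pi.single 2 1 : Fin 3 → ℤ) i * (κ i * μ i ^ s * ∏ j, g j s ^ e i j) = -h s := by
      rw [Fin.sum_univ_three, hA, hB, hC]
      simp [Pi.single_apply]
    rw [h8] at h7
    have h9 := h7 (neg_ne_zero.2 h52)
    have hfac : ∏ j, |(g j s : ℝ)| ^ x j = ∏ i, |(a i s : ℝ)| := by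
      rw [Fintype.prod_sum_type]
      simp [g, x]
    refine ⟨s, h2, h3, h4, fun i => ?_, fun h10 => h52 (sub_eq_zero.2 h10), ?_, ?_⟩
    · rcases hbc i with h10 | h10
      · intro h0
        exact (Finset.prod_ne_zero_iff.1 (right_ne_zero_of_mul h50)) i (Finset.mem_univ i)
          (by rw [h0, zero_pow h10])
      · intro h0
        exact (Finset.prod_ne_zero_iff.1 (right_ne_zero_of_mul h51)) i (Finset.mem_univ i)
          (by rw [h0, zero_pow h10])
    · have h10 := h9 0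
      rw [hA, hfac] at h10
      rw [Int.cast_neg, abs_neg] at h10
      exact h10
    · have h10 := h9 1
      rw [hB, hfac] at h10
      rw [Int.cast_neg, abs_neg, Int.cast_neg, abs_neg] at h10
      exact h10

end Pool.Agent.Q183.AR
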