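import Pool.Agent.Q183.AR.Main

/-!
The inequality with constant factors.
-/

set_option autoImplicit false

namespace Pool.Agent.Q183.AR

theorem const_rec {R : Type} [CommRing R] (c : R) :
    ∃ E : LinearRecurrence R, E.IsSolution fun _ => c :=
  ⟨⟨1, fun _ => 1⟩, fun n => by simp⟩

/-- **The inequality for linear recurrences**, with constant factors. -/
theorem mainK {R K : Type} [CommRing R] [Algebra.IsIntegral ℤ R] [Field K] [NumberField K]
    [Algebra R K] {N : ℕ} (hN : 0 < N) {J : Type} [Fintype J] (g : J → ℕ → R)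
    (hg : ∀ j, ∃ E : LinearRecurrence R, E.IsSolution (g j))
    (κ μ : Fin (N + 1) → R) (hμ : ∀ i, algebraMap R K (μ i) ≠ 0)
    (e : Fin (N + 1) → J → ℕ) (x : J → ℕ) (I0 : Set (Fin (N + 1)))
    (hx : ∀ i0 ∈ I0, ∀ j, ∀ σ : Equiv.Perm (Fin N),
      ∑ k : Fin N, min (e (i0.succAbove (σ k)) j) k ≤ x j)
    (hx0 : ∀ j, x j ≠ 0 → ∃ i, e i j ≠ 0)
    (hsum : ∀ t, algebraMap R K (∑ i, κ i * μ i ^ t * ∏ j, g j t ^ e i j) = 0) :
    ∃ M : ℕ, 0 < M ∧ ∀ ρ : ℕ,
      (∃ (c : Fin (N + 1) → K) (z : ℕ), c (Fin.last N) = 0 ∧ c ≠ 0 ∧ ∀ t, z ≤ t → t ≡ ρ [MOD M] →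
        ∑ i, c i * algebraMap R K (κ i * μ i ^ t * ∏ j, g j t ^ e i j) = 0) ∨
      ∃ (C : ℝ) (T t0 : ℕ), 0 < C ∧ ∀ t, t0 ≤ t → ∃ s, t ≤ s ∧ s < t + T ∧ s ≡ ρ [MOD M] ∧
        (∀ i, algebraMap R K (κ i * μ i ^ s * ∏ j, g j s ^ e i j) ≠ 0) ∧
        ∀ v : Fin (N + 1) → R, (∀ i, i ∉ I0 → v i = 0) →
          algebraMap R K (∑ i, v i * (κ i * μ i ^ s * ∏ j, g j s ^ e i j)) ≠ 0 →
          ∀ η : (K →ₐ[ℚ] ℂ) → Fin (N + 1),
            ∏ σ : K →ₐ[ℚ] ℂ, ‖σ (algebraMap R K (κ (η σ) * μ (η σ) ^ s * ∏ j, g j s ^ e (η σ) j))‖ ≤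
              C * (∏ σ : K →ₐ[ℚ] ℂ,
                ‖σ (algebraMap R K (∑ i, v i * (κ i * μ i ^ s * ∏ j, g j s ^ e i j)))‖) *
                ∏ j, (∏ σ : K →ₐ[ℚ] ℂ, ‖σ (algebraMap R K (g j s))‖) ^ x j := by
  classical
  let g' : J ⊕ Fin (N + 1) → ℕ → R := Sum.elim g fun i _ => κ i
  let e' : Fin (N + 1) → J ⊕ Fin (N + 1) → ℕ := fun i =>
    Sum.elim (e i) fun i' => if i = i' then 1 else 0
  let x' : J ⊕ Fin (N + 1) → ℕ := Sum.elim x fun _ => 1
  have hprod : ∀ i t, μ i ^ t * ∏ j, g' j t ^ e' i j = κ i * μ i ^ t * ∏ j, g j t ^ e i j := by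
    intro i t
    rw [Fintype.prod_sum_type]
    simp only [g', e', Sum.elim_inl, Sum.elim_inr]
    rw [Finset.prod_eq_single i]
    · rw [if_pos rfl, pow_one]
      ring
    · intro i' _ hne
      rw [if_neg hne.symm, pow_zero]
    · intro h
      exact absurd (Finset.mem_univ i) h
  have hfac : ∀ s, ∏ j, (∏ σ : K →ₐ[ℚ] ℂ, ‖σ (algebraMap R K (g' j s))‖) ^ x' j =
      (∏ i, ∏ σ : K →ₐ[ℚ] ℂ, ‖σ (algebraMap R K (κ i))‖) *
        ∏ j, (∏ σ : K →ₐ[ℚ] ℂ, ‖σ (algebraMap R K (g j s))‖) ^ x j := by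
    intro s
    rw [Fintype.prod_sum_type, mul_comm]
    simp only [g', x', Sum.elim_inl, Sum.elim_inr, pow_one]
  obtain ⟨M, hM, h⟩ := main (K := K) hN g' (by
      rintro (j | i)
      · exact hg j
      · exact const_rec _) μ hμ e' x' I0 (by
      rintro i0 hi0 (j | i') σ
      · exact hx i0 hi0 j σ
      · simp only [e', x', Sum.elim_inr]
        calc ∑ k : Fin N, min (if i0.succAbove (σ k) = i' then 1 else 0) (k : ℕ) ≤
            ∑ k : Fin N, (if i0.succAbove (σ k) = i' then 1 else 0) :=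
              Finset.sum_le_sum fun k _ => min_le_left _ _
          _ ≤ 1 := by
            rw [Finset.sum_boole]
            have : (Finset.univ.filter fun k : Fin N => i0.succAbove (σ k) = i').card ≤ 1 := by
              rw [Finset.card_le_one]
              intro a ha b hb
              have h1 := (Finset.mem_filter.1 ha).2
              have h2 := (Finset.mem_filter.1 hb).2
              exact σ.injective (Fin.succAbove_right_injective (h1.trans h2.symm))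
            exact_mod_cast this) (by
      rintro (j | i') hj
      · exact hx0 j hj
      · exact ⟨i', by simp [e']⟩) (fun t => by
        rw [← hsum t]
        congr 1
        exact Finset.sum_congr rfl fun i _ => hprod i t)
  refine ⟨M, hM, fun ρ => ?_⟩
  simp only [hprod, hfac] at h
  rcases h ρ with h1 | ⟨C, T, t0, hC, h1⟩
  · exact Or.inl h1
  · right
    set D := ∏ i, ∏ σ : K →ₐ[ℚ] ℂ, ‖σ (algebraMap R K (κ i))‖ with hD
    have hD0 : 0 ≤ D := Finset.prod_nonneg fun i _ => Finset.prod_nonneg fun _ _ => norm_nonneg _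
    refine ⟨C * (D + 1), T, t0, mul_pos hC (by linarith), fun t ht => ?_⟩
    obtain ⟨s, h2, h3, h4, h5, h6⟩ := h1 t ht
    refine ⟨s, h2, h3, h4, h5, fun v hv hδ η => (h6 v hv hδ η).trans ?_⟩
    set Y1 := ∏ σ : K →ₐ[ℚ] ℂ,
      ‖σ (algebraMap R K (∑ i, v i * (κ i * μ i ^ s * ∏ j, g j s ^ e i j)))‖ with hY1
    set Y2 := ∏ j, (∏ σ : K →ₐ[ℚ] ℂ, ‖σ (algebraMap R K (g j s))‖) ^ x j with hY2
    have hY10 : 0 ≤ Y1 := Finset.prod_nonneg fun _ _ => norm_nonneg _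
    have hY20 : 0 ≤ Y2 := Finset.prod_nonneg fun _ _ => pow_nonneg
      (Finset.prod_nonneg fun _ _ => norm_nonneg _) _
    have h7 : 0 ≤ C * Y1 * Y2 := by positivity
    nlinarith

end Pool.Agent.Q183.AR
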