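import Pool.Agent.Q183.AR.SncB

/-!
Vanishing sums without vanishing subsums: combinatorics.
-/

set_option autoImplicit false

namespace Pool.Agent.Q183.AR

variable {n : ℕ}

/-- the support -/
def supp (c : Fin n → ℤ) : Finset (Fin n) := Finset.univ.filter fun i => c i ≠ 0

theorem mem_supp {c : Fin n → ℤ} {i : Fin n} : i ∈ supp c ↔ c i ≠ 0 := by simp [supp]

/-- no proper nonempty subsum vanishes -/
def NV (c x : Fin n → ℤ) : Prop :=
  ∀ S : Finset (Fin n), S.Nonempty → S ⊂ supp c → ∑ i ∈ S, c i * x i ≠ 0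

/-- the members of `S` are bounded by a multiple of their greatest common divisor -/
def Bd (S : Finset (Fin n)) (x : Fin n → ℤ) (y : ℝ) : Prop :=
  ∀ i ∈ S, |(x i : ℝ)| ≤ y * ((S.gcd x : ℤ) : ℝ)

theorem gcd_nn (S : Finset (Fin n)) (x : Fin n → ℤ) : 0 ≤ S.gcd x := by
  rw [← Finset.normalize_gcd, ← Int.abs_eq_normalize]
  exact abs_nonneg _

theorem gcd_pos' {S : Finset (Fin n)} {x : Fin n → ℤ} {a : Fin n} (ha : a ∈ S) (hx : x a ≠ 0) :
    0 < S.gcd x := lt_of_le_of_ne (gcd_nn S x) (fun h =>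
      (Finset.gcd_ne_zero_iff.2 ⟨a, ha, hx⟩) h.symm)

theorem Bd.mono {S : Finset (Fin n)} {x : Fin n → ℤ} {y y' : ℝ} (h : Bd S x y) (hy : y ≤ y') :
    Bd S x y' := fun i hi =>
  (h i hi).trans (mul_le_mul_of_nonneg_right hy (by exact_mod_cast gcd_nn S x))

theorem Bd.glue {S₁ S₂ : Finset (Fin n)} {x : Fin n → ℤ} {y₁ y₂ : ℝ} (h₁ : Bd S₁ x y₁)
    (h₂ : Bd S₂ x y₂) {a : Fin n} (ha₁ : a ∈ S₁) (ha₂ : a ∈ S₂) (hxa : x a ≠ 0) :
    Bd (S₁ ∪ S₂) x (y₁ * y₂) := by
  have hG1 := gcd_pos' ha₁ hxa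
  have hG2 := gcd_pos' ha₂ hxa
  have hG := gcd_pos' (Finset.mem_union_left S₂ ha₁) hxa
  have hu : (S₁ ∪ S₂).gcd x = GCDMonoid.gcd (S₁.gcd x) (S₂.gcd x) := Finset.gcd_union
  have hdvd : S₁.gcd x * S₂.gcd x ∣ (S₁ ∪ S₂).gcd x * x a := by
    rw [hu]
    have h1 : GCDMonoid.lcm (S₁.gcd x) (S₂.gcd x) ∣ x a :=
      lcm_dvd (Finset.gcd_dvd ha₁) (Finset.gcd_dvd ha₂)
    exact ((gcd_mul_lcm (S₁.gcd x) (S₂.gcd x)).symm.dvd).trans (mul_dvd_mul_left _ h1)
  have hle : S₁.gcd x * S₂.gcd x ≤ (S₁ ∪ S₂).gcd x * |x a| := by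
    have h1 : S₁.gcd x * S₂.gcd x ∣ |(S₁ ∪ S₂).gcd x * x a| := (dvd_abs _ _).2 hdvd
    have h2 := Int.le_of_dvd (abs_pos.2 (mul_ne_zero hG.ne' hxa)) h1
    rwa [abs_mul, abs_of_pos hG] at h2
  have q1 : (0 : ℝ) < ((S₁.gcd x : ℤ) : ℝ) := Int.cast_pos.2 hG1
  have q2 : (0 : ℝ) < ((S₂.gcd x : ℤ) : ℝ) := Int.cast_pos.2 hG2
  have q : (0 : ℝ) < (((S₁ ∪ S₂).gcd x : ℤ) : ℝ) := Int.cast_pos.2 hG
  have hle' : ((S₁.gcd x : ℤ) : ℝ) * ((S₂.gcd x : ℤ) : ℝ) ≤
      (((S₁ ∪ S₂).gcd x : ℤ) : ℝ) * |(x a : ℝ)| := by exact_mod_cast hle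
  unfold Bd at h₁ h₂ ⊢
  set G1 : ℝ := ((S₁.gcd x : ℤ) : ℝ) with hG1d
  set G2 : ℝ := ((S₂.gcd x : ℤ) : ℝ) with hG2d
  set G : ℝ := (((S₁ ∪ S₂).gcd x : ℤ) : ℝ) with hGd
  have hxa' : 0 < |(x a : ℝ)| := abs_pos.2 (by exact_mod_cast hxa)
  have b1 := h₁ a ha₁
  have b2 := h₂ a ha₂
  have y1 : 0 < y₁ := by
    by_contra hcon
    push Not at hcon
    have : y₁ * G1 ≤ 0 := mul_nonpos_of_nonpos_of_nonneg hcon q1.le
    linarith
  have y2 : 0 < y₂ := by
    by_contra hcon
    push Not at hcon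
    have : y₂ * G2 ≤ 0 := mul_nonpos_of_nonpos_of_nonneg hcon q2.le
    linarith
  have e1 : G1 ≤ y₂ * G := by
    have h3 : G1 * G2 ≤ (y₂ * G) * G2 := by
      calc G1 * G2 ≤ G * |(x a : ℝ)| := hle'
        _ ≤ G * (y₂ * G2) := mul_le_mul_of_nonneg_left b2 q.le
        _ = _ := by ring
    exact le_of_mul_le_mul_right h3 q2
  have e2 : G2 ≤ y₁ * G := by
    have h3 : G1 * G2 ≤ G1 * (y₁ * G) := by
      calc G1 * G2 ≤ G * |(x a : ℝ)| := hle'
        _ ≤ G * (y₁ * G1) := mul_le_mul_of_nonneg_left b1 q.le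
        _ = _ := by ring
    exact le_of_mul_le_mul_left h3 q1
  intro i hi
  rcases Finset.mem_union.1 hi with hi | hi
  · calc |(x i : ℝ)| ≤ y₁ * G1 := h₁ i hi
      _ ≤ y₁ * (y₂ * G) := mul_le_mul_of_nonneg_left e1 y1.le
      _ = _ := by ring
  · calc |(x i : ℝ)| ≤ y₂ * G2 := h₂ i hi
      _ ≤ y₂ * (y₁ * G) := mul_le_mul_of_nonneg_left e2 y2.le
      _ = _ := by ring

/-- gluing the minimal vanishing subsums of `L` to `I` -/
theorem comb {x d : Fin n → ℤ} (hx : ∀ i, x i ≠ 0) {I L₀ : Finset (Fin n)} {F : ℕ → ℕ}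
    (hF : ∀ a b, F a + F b ≤ F (a + b)) {y B : ℝ} (hy : 1 ≤ y) (hB : 1 ≤ B) {w : ℕ}
    (hI : Bd I x (y * B ^ w))
    (hL : ∀ L' ⊆ L₀, L'.Nonempty → ∑ i ∈ L', d i * x i = 0 →
      (∀ S ⊂ L', S.Nonempty → ∑ i ∈ S, d i * x i ≠ 0) → Bd L' x (y * B ^ F L'.card))
    (hmeet : ∀ L' ⊆ L₀, L'.Nonempty → ∑ i ∈ L', d i * x i = 0 → ∃ a ∈ L', a ∈ I) :
    ∀ (k : ℕ) (L : Finset (Fin n)), L ⊆ L₀ → L.card ≤ k → ∑ i ∈ L, d i * x i = 0 →
      Bd (I ∪ L) x (y ^ (L.card + 1) * B ^ (w + F L.card)) := by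
  classical
  intro k
  induction k with
  | zero =>
    intro L _ hk _
    rw [Finset.card_eq_zero.1 (Nat.le_zero.1 hk), Finset.union_empty, Finset.card_empty, zero_add,
      pow_one]
    refine hI.mono (mul_le_mul_of_nonneg_left (pow_le_pow_right₀ hB (Nat.le_add_right _ _)) (by linarith))
  | succ k ih =>
    intro L hL0 hk hsum
    rcases L.eq_empty_or_nonempty with rfl | hne
    · exact ih ∅ hL0 (by simp) hsum
    obtain ⟨L', hL', hmin⟩ := Finset.exists_min_image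
      (L.powerset.filter fun S => S.Nonempty ∧ ∑ i ∈ S, d i * x i = 0) Finset.card
      ⟨L, Finset.mem_filter.2 ⟨Finset.mem_powerset_self _, hne, hsum⟩⟩
    obtain ⟨h1, h2, h3⟩ := Finset.mem_filter.1 hL'
    rw [Finset.mem_powerset] at h1
    have hb := hL L' (h1.trans hL0) h2 h3 (by
      intro S hS hSne h0
      have := hmin S (Finset.mem_filter.2 ⟨Finset.mem_powerset.2 (hS.1.trans h1), hSne, h0⟩)
      exact absurd (Finset.card_lt_card hS) (by omega))
    have hcard : (L \ L').card + L'.card = L.card := Finset.card_sdiff_add_card_eq_card h1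
    have hpos : 0 < L'.card := Finset.card_pos.2 h2
    have hsum' : ∑ i ∈ L \ L', d i * x i = 0 := by
      have := Finset.sum_sdiff (f := fun i => d i * x i) h1
      rw [h3, add_zero, hsum] at this
      exact this
    have hi := ih (L \ L') (Finset.sdiff_subset.trans hL0) (by omega) hsum'
    obtain ⟨a, ha1, ha2⟩ := hmeet L' (h1.trans hL0) h2 h3
    have hg := hi.glue hb (Finset.mem_union_left _ ha2) ha1 (hx a)
    have hset : I ∪ L \ L' ∪ L' = I ∪ L := by
      rw [Finset.union_assoc, Finset.sdiff_union_of_subset h1]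
    rw [hset] at hg
    refine hg.mono ?_
    calc y ^ ((L \ L').card + 1) * B ^ (w + F (L \ L').card) * (y * B ^ F L'.card) =
        y ^ ((L \ L').card + 2) * B ^ (w + (F (L \ L').card + F L'.card)) := by ring
      _ ≤ y ^ (L.card + 1) * B ^ (w + F L.card) := by
        refine mul_le_mul (pow_le_pow_right₀ hy (by omega)) (pow_le_pow_right₀ hB ?_)
          (by positivity) (by positivity)
        have := hF (L \ L').card L'.card
        rw [hcard] at this
        omega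

/-- restriction of coefficients -/
def rst (d : Fin n → ℤ) (L : Finset (Fin n)) : Fin n → ℤ := fun i => if i ∈ L then d i else 0

theorem supp_rst {d : Fin n → ℤ} {L : Finset (Fin n)} (hL : L ⊆ supp d) : supp (rst d L) = L := by
  classical
  ext i
  rw [mem_supp]
  unfold rst
  constructor
  · intro h
    by_contra hcon
    exact h (if_neg hcon)
  · intro h
    rw [if_pos h]
    exact mem_supp.1 (hL h)

theorem sum_rst (d x : Fin n → ℤ) {S L : Finset (Fin n)} (h : S ⊆ L) :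
    ∑ i ∈ S, rst d L i * x i = ∑ i ∈ S, d i * x i := by
  classical
  refine Finset.sum_congr rfl fun i hi => ?_
  unfold rst
  rw [if_pos (h hi)]

theorem sum_supp (c x : Fin n → ℤ) : ∑ i ∈ supp c, c i * x i = ∑ i, c i * x i := by
  classical
  refine Finset.sum_subset (Finset.subset_univ _) fun i _ hi => ?_
  have : c i = 0 := by
    by_contra hcon
    exact hi (mem_supp.2 hcon)
  rw [this, zero_mul]

/-- **The combination of a relation with a shorter one.** -/
theorem local_comb {x c c' : Fin n → ℤ} (hx : ∀ i, x i ≠ 0) (hc : ∑ i, c i * x i = 0)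
    (hc' : ∑ i, c' i * x i = 0) (hI : supp c' ⊂ supp c) {i1 : Fin n} (hi1 : c' i1 ≠ 0)
    (hNV : NV c x) {F : ℕ → ℕ} (hF : ∀ a b, F a + F b ≤ F (a + b)) {y B : ℝ} (hy : 1 ≤ y)
    (hB : 1 ≤ B) {w : ℕ} (hw : ∀ k, k + 1 ≤ (supp c).card → w + F k ≤ F (supp c).card)
    (hBd : Bd (supp c') x (y * B ^ w))
    (hL : ∀ L : Finset (Fin n), L ⊆ supp (fun i => c' i1 * c i - c i1 * c' i) →
      ∑ i, rst (fun i => c' i1 * c i - c i1 * c' i) L i * x i = 0 →
      NV (rst (fun i => c' i1 * c i - c i1 * c' i) L) x → Bd L x (y * B ^ F L.card)) :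
    Bd (supp c) x (y ^ (n + 1) * B ^ F (supp c).card) := by
  classical
  set d : Fin n → ℤ := fun i => c' i1 * c i - c i1 * c' i with hd
  have hi1S : i1 ∈ supp c := hI.1 (mem_supp.2 hi1)
  have hsub : ∀ i, c i = 0 → c' i = 0 := by
    intro i hi
    by_contra hcon
    exact (mem_supp.1 (hI.1 (mem_supp.2 hcon))) hi
  have hdS : supp d ⊆ (supp c).erase i1 := by
    intro i hi
    have h1 := mem_supp.1 hi
    refine Finset.mem_erase.2 ⟨?_, mem_supp.2 fun h2 => h1 ?_⟩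
    · rintro rfl
      exact h1 (by simp only [hd]; ring)
    · simp only [hd]
      rw [h2, hsub i h2]
      ring
  have hunion : supp c' ∪ supp d = supp c := by
    refine Finset.Subset.antisymm (Finset.union_subset hI.1
      (hdS.trans (Finset.erase_subset _ _))) fun i hi => ?_
    by_cases h1 : c' i = 0
    · refine Finset.mem_union_right _ (mem_supp.2 ?_)
      simp only [hd]
      rw [h1, mul_zero, sub_zero]
      exact mul_ne_zero hi1 (mem_supp.1 hi)
    · exact Finset.mem_union_left _ (mem_supp.2 h1)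
  have hsum : ∑ i ∈ supp d, d i * x i = 0 := by
    rw [sum_supp]
    have h1 : ∀ i, d i * x i = c' i1 * (c i * x i) - c i1 * (c' i * x i) := fun i => by
      simp only [hd]
      ring
    rw [Finset.sum_congr rfl fun i _ => h1 i, Finset.sum_sub_distrib, ← Finset.mul_sum,
      ← Finset.mul_sum, hc, hc']
    ring
  have h := comb (d := d) (L₀ := supp d) hx hF hy hB hBd (by
    intro L' hL' _ hL'0 hL'm
    refine hL L' hL' ?_ ?_
    · rw [← sum_supp, supp_rst hL', sum_rst _ _ (Finset.Subset.refl _)]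
      exact hL'0
    · intro S hS hSL
      rw [supp_rst hL'] at hSL
      rw [sum_rst _ _ hSL.1]
      exact hL'm S hSL hS) (by
    intro L' hL' hne hL'0
    by_contra hcon
    push Not at hcon
    have h1 : ∑ i ∈ L', c i * x i = 0 := by
      have h2 : ∑ i ∈ L', d i * x i = c' i1 * ∑ i ∈ L', c i * x i := by
        rw [Finset.mul_sum]
        refine Finset.sum_congr rfl fun i hi => ?_
        have h3 : c' i = 0 := by
          by_contra h4
          exact hcon i hi (mem_supp.2 h4)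
        simp only [hd]
        rw [h3]
        ring
      rw [hL'0] at h2
      exact (mul_eq_zero.1 h2.symm).resolve_left hi1
    refine hNV L' hne ?_ h1
    refine Finset.ssubset_iff_subset_ne.2 ⟨(hL'.trans hdS).trans (Finset.erase_subset _ _), ?_⟩
    rintro rfl
    exact absurd (hdS (hL' hi1S)) (by simp)) (supp d).card (supp d) (Finset.Subset.refl _) (le_refl _) hsum
  rw [hunion] at h
  refine h.mono ?_
  have hcard : (supp d).card + 1 ≤ (supp c).card := by
    have h1 := Finset.card_le_card hdS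
    rw [Finset.card_erase_of_mem hi1S] at h1
    have h2 : 0 < (supp c).card := Finset.card_pos.2 ⟨i1, hi1S⟩
    omega
  have hn : (supp c).card ≤ n := (Finset.card_le_univ _).trans (by simp)
  exact mul_le_mul (pow_le_pow_right₀ hy (by omega)) (pow_le_pow_right₀ hB (hw _ hcard))
    (by positivity) (by positivity)

end Pool.Agent.Q183.AR
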