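import Pool.Agent.Q183.AR.Nva

/-!
Vanishing sums of products of powers of linear recurrences without vanishing subsums: main theorem.
-/

set_option autoImplicit false

namespace Pool.Agent.Q183.AR

variable {n : ℕ} {J : Type} [Fintype J]

/-- the conclusion for the relation `c` -/
def Q (e : Fin n → J → ℕ) (c : Fin n → ℤ) (x : Fin n → ℤ) (y : J → ℤ) (C : ℝ) : Prop :=
  (∀ i, x i ≠ 0) → NV c x → Bd (supp c) x (C * BB e y ^ FF (supp c).card)

theorem Q_mono (e : Fin n → J → ℕ) (c : Fin n → ℤ) (x : Fin n → ℤ) (y : J → ℤ) (C C' : ℝ)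
    (hCC : C ≤ C') (h : Q e c x y C) : Q e c x y C' := fun h1 h2 =>
  (h h1 h2).mono (mul_le_mul_of_nonneg_right hCC (pow_nonneg (BB_nn e y) _))

/-- the inductive hypothesis -/
def IH (e : Fin n → J → ℕ) (c : Fin n → ℤ) : Prop :=
  ∀ (g : J → ℕ → ℤ), (∀ j, Rec (g j)) → ∀ (κ μ : Fin n → ℤ), (∀ i, μ i ≠ 0) →
    AA fun C s => ∑ i, c i * T κ μ g e i s = 0 → Q e c (fun i => T κ μ g e i s) (fun j => g j s) C

theorem card_one_false {c x : Fin n → ℤ} (h : ¬ 1 < (supp c).card) (hne : (supp c).Nonempty)
    (hx : ∀ i, x i ≠ 0) (hsum : ∑ i, c i * x i = 0) : False := by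
  classical
  have h1 : (supp c).card = 1 := by
    have := Finset.card_pos.2 hne
    omega
  obtain ⟨a, ha⟩ := Finset.card_eq_one.1 h1
  rw [← sum_supp, ha, Finset.sum_singleton] at hsum
  have h2 : c a ≠ 0 := mem_supp.1 (by rw [ha]; exact Finset.mem_singleton_self a)
  exact hx a ((mul_eq_zero.1 hsum).resolve_left h2)

theorem nv_inner (e : Fin n → J → ℕ) (c : Fin n → ℤ)
    (ihm : ∀ d : Fin n → ℤ, (supp d).card < (supp c).card → IH e d) (k : ℕ) :
    ∀ c' : Fin n → ℤ, supp c' ⊂ supp c → (supp c').Nonempty → (supp c').card ≤ k →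
    ∀ (g : J → ℕ → ℤ), (∀ j, Rec (g j)) → ∀ (κ μ : Fin n → ℤ), (∀ i, μ i ≠ 0) →
    (∀ t, ∑ i, c i * T κ μ g e i t = 0) → (∀ t, ∑ i, c' i * T κ μ g e i t = 0) →
    AA fun C s => Q e c (fun i => T κ μ g e i s) (fun j => g j s) C := by
  classical
  induction k with
  | zero =>
    intro c' _ hne hk
    have := Finset.card_pos.2 hne
    omega
  | succ k ih =>
    intro c' hsub hne hk g hg κ μ hμ hc hc'
    by_cases hcard : 1 < (supp c').card
    swap
    · exact AA.true.imp (fun C => C) 0 (fun C hC => hC) fun C s _ _ _ h1 _ =>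
        absurd (card_one_false hcard hne h1 (hc' s)) (by simp)
    obtain ⟨M, hM, h⟩ := dich2 g hg κ μ hμ e c' hc' hcard
    refine AA.ofCls hM (fun ρ => ?_) (fun C C' s hCC => Q_mono e c _ _ C C' hCC)
    rcases h ρ with ⟨c2, z, hs2, hne2, hr2⟩ | h1
    · exact aa_sub e (Q e c) g κ μ hM (ih c2 (hs2.trans hsub) hne2 (by
        have := Finset.card_lt_card hs2
        omega) (fun j t => g j (M * t + (M * z + ρ))) (fun j => (hg j).aff M _)
        (fun i => κ i * μ i ^ (M * z + ρ)) (fun i => μ i ^ M) (fun i => pow_ne_zero _ (hμ i))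
        (rel_sub hM fun t _ _ => hc t) (rel_sub hM hr2))
    · obtain ⟨i1, hi1⟩ := hne
      rw [mem_supp] at hi1
      set d : Fin n → ℤ := fun i => c' i1 * c i - c i1 * c' i with hd
      have hdS : supp d ⊆ (supp c).erase i1 := by
        intro i hi
        have h1 := mem_supp.1 hi
        refine Finset.mem_erase.2 ⟨?_, mem_supp.2 fun h2 => h1 ?_⟩
        · rintro rfl
          exact h1 (by simp only [hd]; ring)
        · simp only [hd]
          have h3 : c' i = 0 := by
            by_contra hcon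
            exact (mem_supp.1 (hsub.1 (mem_supp.2 hcon))) h2
          rw [h2, h3]
          ring
      have hi1S : i1 ∈ supp c := hsub.1 (mem_supp.2 hi1)
      have hcd : (supp d).card < (supp c).card :=
        lt_of_le_of_lt (Finset.card_le_card hdS) (Finset.card_erase_lt_of_mem hi1S)
      have hL : ∀ L : Finset (Fin n), AA fun C s => ∑ i, rst d L i * T κ μ g e i s = 0 →
          Q e (rst d L) (fun i => T κ μ g e i s) (fun j => g j s) C := by
        intro L
        refine ihm (rst d L) (lt_of_le_of_lt (Finset.card_le_card fun i hi => ?_) hcd) g hg κ μ hμ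
        rw [mem_supp] at hi ⊢
        intro h2
        apply hi
        unfold rst
        split_ifs
        · exact h2
        · rfl
      have hall := AA.all hL (fun L C C' s hCC h2 h3 => Q_mono e _ _ _ C C' hCC (h2 h3))
      have hboth := h1.and hall (fun C C' s hCC h2 h3 h4 => (h2 h3 h4).mono
        (mul_le_mul_of_nonneg_right hCC (pow_nonneg (BB_nn e _) _)))
        (fun C C' s hCC h2 L h3 => Q_mono e _ _ _ C C' hCC (h2 L h3))
      refine hboth.imp (fun C => (C + 1) ^ (n + 1)) 0 (fun C hC => by positivity)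
        fun C s hC _ h2 hs hx hNV => ?_
      obtain ⟨hA, hB⟩ := h2
      have hBB : 1 ≤ BB e fun j => g j s := BB_ge hx
      have hcardc : (supp c').card < (supp c).card := Finset.card_lt_card hsub
      refine local_comb (c := c) (c' := c') (F := FF) (w := ((supp c').card - 1).choose 2)
        (y := C + 1) hx (hc s) (hc' s) hsub hi1 hNV FF_add (by linarith) hBB ?_ ?_ ?_
      · intro m hm
        have e1 : ((supp c').card - 1).choose 2 ≤ aF ((supp c).card - 1) :=
          (Nat.choose_le_choose 2 (by omega : (supp c').card - 1 ≤ (supp c).card - 1 - 1)).trans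
            (choose_le_aF _)
        have e2 : FF m ≤ FF ((supp c).card - 1) := FF_mono (by omega)
        have e3 := FF_succ ((supp c).card - 1)
        rw [Nat.sub_add_cancel (by omega)] at e3
        omega
      · exact (hA hs hx).mono (mul_le_mul_of_nonneg_right (by linarith)
          (pow_nonneg (BB_nn e _) _))
      · intro L hLd hL0 hLN
        have h3 := hB L hL0 hx hLN
        have h4 : supp (rst d L) = L := supp_rst hLd
        unfold Bd at h3 ⊢
        rw [h4] at h3
        intro i hi
        exact (h3 i hi).trans (mul_le_mul_of_nonneg_right (mul_le_mul_of_nonneg_right (by linarith)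
          (pow_nonneg (BB_nn e _) _)) (Int.cast_nonneg (gcd_nn _ _)))

theorem nv_main (e : Fin n → J → ℕ) (m : ℕ) : ∀ c : Fin n → ℤ, (supp c).card ≤ m → IH e c := by
  classical
  induction m with
  | zero =>
    intro c hc g _ κ μ _
    refine AA.true.imp (fun C => C) 0 (fun C hC => hC) fun C s _ _ _ _ _ _ i hi => ?_
    rw [Finset.card_eq_zero.1 (Nat.le_zero.1 hc)] at hi
    exact absurd hi (Finset.notMem_empty i)
  | succ m ih =>
    intro c hcm
    refine aa_family' e c (Q e c) (Q_mono e c) fun g hg κ μ hμ hrel => ?_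
    rcases (supp c).eq_empty_or_nonempty with h0 | hne
    · refine AA.true.imp (fun C => C) 0 (fun C hC => hC) fun C s _ _ _ _ _ i hi => ?_
      rw [h0] at hi
      exact absurd hi (Finset.notMem_empty i)
    by_cases hcard : 1 < (supp c).card
    swap
    · exact AA.true.imp (fun C => C) 0 (fun C hC => hC) fun C s _ _ _ h1 _ =>
        absurd (card_one_false hcard hne h1 (hrel s)) (by simp)
    obtain ⟨M, hM, h⟩ := dich2 g hg κ μ hμ e c hrel hcard
    refine AA.ofCls hM (fun ρ => ?_) (fun C C' s hCC => Q_mono e c _ _ C C' hCC)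
    rcases h ρ with ⟨c', z, hs', hne', hr'⟩ | h1
    · exact aa_sub e (Q e c) g κ μ hM (nv_inner e c (fun d hd => ih d (by omega)) _ c' hs' hne'
        (le_refl _) (fun j t => g j (M * t + (M * z + ρ))) (fun j => (hg j).aff M _)
        (fun i => κ i * μ i ^ (M * z + ρ)) (fun i => μ i ^ M) (fun i => pow_ne_zero _ (hμ i))
        (rel_sub hM fun t _ _ => hrel t) (rel_sub hM hr'))
    · refine h1.imp (fun C => C) 0 (fun C hC => hC) fun C s hC _ h2 hs hx _ =>
        (h2 hs hx).mono (mul_le_mul_of_nonneg_left ?_ hC.le)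
      exact pow_le_pow_right₀ (BB_ge hx) (choose_le_FF _)

/-- the exponent in closed form -/
theorem FF_eq (m : ℕ) (hm : 5 ≤ m) : FF m = (m - 1).choose 3 + 2 := by
  induction m, hm using Nat.le_induction with
  | base => decide
  | succ m hm ih =>
    rw [FF_succ, ih, Nat.add_sub_cancel]
    obtain ⟨k, rfl⟩ : ∃ k, m = k + 1 := ⟨m - 1, by omega⟩
    have h1 : aF (k + 1) = k.choose 2 := by
      unfold aF
      rw [if_neg (by omega), if_neg (by omega), Nat.add_sub_cancel]
    rw [h1, Nat.add_sub_cancel, Nat.choose_succ_succ' k 2]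
    ring

/-- **Vanishing sums without vanishing subsums.** -/
theorem nv (g : J → ℕ → ℤ) (hg : ∀ j, Rec (g j)) (κ μ : Fin n → ℤ) (hμ : ∀ i, μ i ≠ 0)
    (e : Fin n → J → ℕ) :
    AA fun C s => ∑ i, T κ μ g e i s = 0 → (∀ i, T κ μ g e i s ≠ 0) →
      (∀ S : Finset (Fin n), S.Nonempty → S ≠ Finset.univ → ∑ i ∈ S, T κ μ g e i s ≠ 0) →
      ∀ i, |(T κ μ g e i s : ℝ)| ≤ C * (∏ j ∈ occ e, |(g j s : ℝ)|) ^ FF n *
        ((Finset.univ.gcd fun i => T κ μ g e i s : ℤ) : ℝ) := by
  classical
  have hs : supp (fun _ : Fin n => (1 : ℤ)) = Finset.univ := by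
    ext i
    simp [mem_supp]
  refine (nv_main e _ (fun _ => 1) (le_refl _) g hg κ μ hμ).imp (fun C => C) 0 (fun C hC => hC)
    fun C s _ _ h h1 h2 h3 i => ?_
  have h4 := h (by simpa using h1) h2 (by
    intro S hS hSu
    rw [hs] at hSu
    have := h3 S hS hSu.ne
    simpa using this) i (by rw [hs]; exact Finset.mem_univ i)
  rw [hs, Finset.card_univ, Fintype.card_fin] at h4
  exact h4

end Pool.Agent.Q183.AR
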