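import Pool.Agent.Q183.AR.Nv

/-!
Vanishing sums of products of powers of linear recurrences without vanishing subsums.
-/

set_option autoImplicit false

namespace Pool.Agent.Q183.AR

variable {n : ℕ} {J : Type} [Fintype J]

/-- increments of the exponent -/
def aF (k : ℕ) : ℕ := if k ≤ 1 then 0 else if k ≤ 3 then k - 1 else (k - 1).choose 2

/-- the exponent: `0, 0, 0, 1, 3, 6, 12, 22, ...` -/
def FF (m : ℕ) : ℕ := ∑ k ∈ Finset.range m, aF k

theorem choose_ge (k : ℕ) (hk : 3 ≤ k) : k ≤ k.choose 2 := by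
  rw [Nat.choose_two_right, Nat.le_div_iff_mul_le (by norm_num)]
  exact Nat.mul_le_mul_left _ (by omega)

theorem aF_ge (k : ℕ) : k - 1 ≤ aF k := by
  unfold aF
  split_ifs with h1 h2
  · omega
  · exact le_refl _
  · exact choose_ge _ (by omega)

theorem choose_le_aF (k : ℕ) : (k - 1).choose 2 ≤ aF k := by
  unfold aF
  split_ifs with h1 h2
  · interval_cases k <;> decide
  · interval_cases k <;> decide
  · exact le_refl _

theorem aF_succ (k : ℕ) : aF k ≤ aF (k + 1) := by
  rcases Nat.lt_or_ge k 4 with h | h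
  · interval_cases k <;> decide
  · unfold aF
    rw [if_neg (by omega), if_neg (by omega), if_neg (by omega), if_neg (by omega)]
    exact Nat.choose_le_choose 2 (by omega)

theorem aF_mono : Monotone aF := monotone_nat_of_le_succ aF_succ

theorem FF_succ (m : ℕ) : FF (m + 1) = FF m + aF m := Finset.sum_range_succ _ _

theorem FF_mono : Monotone FF := monotone_nat_of_le_succ fun m => by
  rw [FF_succ]
  exact Nat.le_add_right _ _

theorem FF_add (a b : ℕ) : FF a + FF b ≤ FF (a + b) := by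
  unfold FF
  rw [Finset.sum_range_add]
  exact Nat.add_le_add_left (Finset.sum_le_sum fun k _ => aF_mono (by omega)) _

theorem choose_le_FF (m : ℕ) : (m - 1).choose 2 ≤ FF m := by
  induction m with
  | zero => decide
  | succ m ih =>
    rw [FF_succ, Nat.add_sub_cancel]
    rcases Nat.eq_zero_or_pos m with rfl | hm
    · decide
    · obtain ⟨k, rfl⟩ : ∃ k, m = k + 1 := ⟨m - 1, by omega⟩
      rw [Nat.add_sub_cancel] at ih
      have h1 := aF_ge (k + 1)
      rw [Nat.add_sub_cancel] at h1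
      have h2 : (k + 1).choose 2 = k.choose 2 + k := by
        rw [Nat.choose_succ_succ' k 1, Nat.choose_one_right]
        ring
      omega

/-- the bases which occur -/
def occ (e : Fin n → J → ℕ) : Finset J := Finset.univ.filter fun j => E e j ≠ 0

/-- their product -/
def BB (e : Fin n → J → ℕ) (y : J → ℤ) : ℝ := ∏ j ∈ occ e, |(y j : ℝ)|

theorem BB_nn (e : Fin n → J → ℕ) (y : J → ℤ) : 0 ≤ BB e y :=
  Finset.prod_nonneg fun _ _ => abs_nonneg _

theorem BB_ge {κ μ : Fin n → ℤ} {g : J → ℕ → ℤ} {e : Fin n → J → ℕ} {s : ℕ}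
    (h : ∀ i, T κ μ g e i s ≠ 0) : 1 ≤ BB e fun j => g j s := by
  unfold BB
  rw [← Finset.prod_const_one (s := occ e) (M := ℝ)]
  refine Finset.prod_le_prod (fun _ _ => zero_le_one) fun j hj => ?_
  exact_mod_cast Int.one_le_abs (g_ne h j (Finset.mem_filter.1 hj).2)

/-- passing to a progression -/
theorem aa_sub (e : Fin n → J → ℕ) (P : (Fin n → ℤ) → (J → ℤ) → ℝ → Prop) (g : J → ℕ → ℤ)
    (κ μ : Fin n → ℤ) {M z ρ : ℕ} (hM : 0 < M)
    (h : AA fun C s => P (fun i => T (fun i => κ i * μ i ^ (M * z + ρ)) (fun i => μ i ^ M)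
      (fun j t => g j (M * t + (M * z + ρ))) e i s) (fun j => g j (M * s + (M * z + ρ))) C) :
    AA fun C s => s ≡ ρ [MOD M] → P (fun i => T κ μ g e i s) (fun j => g j s) C := by
  refine AA.cls (z := z) hM h (fun C => C) (fun C hC => hC) fun C s hC h3 => ?_
  simp only [T_aff] at h3
  have h4 : M * (s + z) + ρ = M * s + (M * z + ρ) := by ring
  rw [h4]
  exact h3

theorem rel_sub {e : Fin n → J → ℕ} {g : J → ℕ → ℤ} {κ μ : Fin n → ℤ} {M z ρ : ℕ} (hM : 0 < M)
    {c : Fin n → ℤ} (h : ∀ t, z ≤ t → t ≡ ρ [MOD M] → ∑ i, c i * T κ μ g e i t = 0) (t : ℕ) :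
    ∑ i, c i * T (fun i => κ i * μ i ^ (M * z + ρ)) (fun i => μ i ^ M)
      (fun j t => g j (M * t + (M * z + ρ))) e i t = 0 := by
  simp only [T_aff]
  refine h _ ?_ ?_
  · calc z ≤ M * z := Nat.le_mul_of_pos_left _ hM
      _ ≤ M * t + (M * z + ρ) := by omega
  · unfold Nat.ModEq
    rw [show M * t + (M * z + ρ) = ρ + M * (t + z) by ring, Nat.add_mul_mod_self_left]

/-- a property which has to be shown only for the families with a linear relation -/
theorem aa_family' (e : Fin n → J → ℕ) (c : Fin n → ℤ) (P : (Fin n → ℤ) → (J → ℤ) → ℝ → Prop)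
    (hP : ∀ x y C C', C ≤ C' → P x y C → P x y C')
    (h : ∀ (g : J → ℕ → ℤ), (∀ j, Rec (g j)) → ∀ (κ μ : Fin n → ℤ), (∀ i, μ i ≠ 0) →
      (∀ t, ∑ i, c i * T κ μ g e i t = 0) →
      AA fun C s => P (fun i => T κ μ g e i s) (fun j => g j s) C)
    (g : J → ℕ → ℤ) (hg : ∀ j, Rec (g j)) (κ μ : Fin n → ℤ) (hμ : ∀ i, μ i ≠ 0) :
    AA fun C s => ∑ i, c i * T κ μ g e i s = 0 →
      P (fun i => T κ μ g e i s) (fun j => g j s) C := by
  classical
  obtain ⟨M, hM, h0⟩ := zero_or (f := fun t => ∑ i, c i * T κ μ g e i t)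
    (Rec.sum Finset.univ fun i _ => (Rec.const (c i)).mul (rec_T hg κ μ e i))
  refine AA.ofCls hM (fun ρ => ?_) (fun C C' s hCC h1 h2 => hP _ _ _ _ hCC (h1 h2))
  rcases h0 ρ with ⟨z, hz⟩ | h1
  · have h2 := h (fun j t => g j (M * t + (M * z + ρ))) (fun j => (hg j).aff M _)
      (fun i => κ i * μ i ^ (M * z + ρ)) (fun i => μ i ^ M) (fun i => pow_ne_zero _ (hμ i))
      (rel_sub hM hz)
    exact (aa_sub e P g κ μ hM h2).imp (fun C => C) 0 (fun C hC => hC) fun C s _ _ h3 h4 _ => h3 h4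
  · exact h1.imp (fun C => C) 0 (fun C hC => hC) fun C s _ _ h2 h3 h4 => absurd h4 (h2 h3)

/-- the dichotomy with the bound by the greatest common divisor -/
theorem dich2 (g : J → ℕ → ℤ) (hg : ∀ j, Rec (g j)) (κ μ : Fin n → ℤ) (hμ : ∀ i, μ i ≠ 0)
    (e : Fin n → J → ℕ) (c : Fin n → ℤ) (hrel : ∀ t, ∑ i, c i * T κ μ g e i t = 0)
    (hcard : 1 < (supp c).card) :
    ∃ M : ℕ, 0 < M ∧ ∀ ρ : ℕ,
      (∃ (c' : Fin n → ℤ) (z : ℕ), supp c' ⊂ supp c ∧ (supp c').Nonempty ∧
        ∀ t, z ≤ t → t ≡ ρ [MOD M] → ∑ i, c' i * T κ μ g e i t = 0) ∨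
      AA fun C s => s ≡ ρ [MOD M] → (∀ i, T κ μ g e i s ≠ 0) →
        Bd (supp c) (fun i => T κ μ g e i s)
          (C * (BB e fun j => g j s) ^ ((supp c).card - 1).choose 2) := by
  classical
  obtain ⟨i0, hi0, il, hil, hne⟩ := Finset.one_lt_card.1 hcard
  rw [mem_supp] at hi0 hil
  let x : J → ℕ := fun j => if ∃ i, c i ≠ 0 ∧ e i j ≠ 0 then ((supp c).card - 1).choose 2 else 0
  obtain ⟨M, hM, h⟩ := dich g hg κ μ hμ e c hrel il i0 hil hi0 hne x (by
      intro N f _ hcf hN j
      have hN' : N ≤ (supp c).card - 1 := by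
        have : N < (supp c).card := hN
        omega
      simp only [x]
      split_ifs with h1
      · calc ∑ k : Fin N, min (e (f k) j) k ≤ ∑ k : Fin N, (k : ℕ) :=
              Finset.sum_le_sum fun k _ => min_le_right _ _
          _ = N.choose 2 := by
            rw [Finset.sum_fin_eq_sum_range, Finset.sum_congr rfl fun i hi => dif_pos
              (Finset.mem_range.1 hi), Finset.sum_range_id, Nat.choose_two_right]
          _ ≤ _ := Nat.choose_le_choose 2 hN'
      · push Not at h1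
        refine le_of_eq (Finset.sum_eq_zero fun k _ => ?_)
        rw [h1 _ (hcf k), Nat.zero_min]) (by
      intro j hj
      simp only [x] at hj
      by_contra hcon
      rw [if_neg hcon] at hj
      exact hj rfl)
  refine ⟨M, hM, fun ρ => ?_⟩
  rcases h ρ with ⟨c', z, hl, hs, hne', hr⟩ | h1
  · left
    refine ⟨c', z, Finset.ssubset_iff_subset_ne.2 ⟨fun i hi => ?_, fun heq => ?_⟩, ?_, hr⟩
    · exact mem_supp.2 fun h2 => mem_supp.1 hi (hs i h2)
    · have h2 : il ∈ supp c := mem_supp.2 hil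
      rw [← heq, mem_supp] at h2
      exact h2 hl
    · obtain ⟨i, hi⟩ := Function.ne_iff.1 hne'
      exact ⟨i, mem_supp.2 hi⟩
  · right
    set p : ℤ := ∏ i ∈ supp c, c i with hp
    have hp0 : p ≠ 0 := Finset.prod_ne_zero_iff.2 fun i hi => mem_supp.1 hi
    refine h1.imp (fun C => C * |(p : ℝ)|) 0 (fun C hC => mul_pos hC
      (abs_pos.2 (by exact_mod_cast hp0))) fun C s hC _ h2 hs hne0 i hi => ?_
    obtain ⟨-, h4⟩ := h2 hs
    obtain ⟨w, hw⟩ := Finset.gcd_eq_sum_mul (supp c) (fun i => T κ μ g e i s)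
    have hG := gcd_pos' (S := supp c) (x := fun i => T κ μ g e i s) hi (hne0 i)
    have hv : ∑ i, (w i * ∏ k ∈ (supp c).erase i, c k) * (c i * T κ μ g e i s) =
        p * (supp c).gcd (fun i => T κ μ g e i s) := by
      rw [hw, Finset.mul_sum]
      symm
      rw [← Finset.sum_subset (Finset.subset_univ (supp c))]
      · refine Finset.sum_congr rfl fun i hi => ?_
        rw [hp, ← Finset.mul_prod_erase _ _ hi]
        ring
      · intro i _ hi
        have : c i = 0 := by
          by_contra hcon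
          exact hi (mem_supp.2 hcon)
        rw [this]
        ring
    have h5 := h4 (fun i => w i * ∏ k ∈ (supp c).erase i, c k)
      (by rw [hv]; exact mul_ne_zero hp0 hG.ne') i (mem_supp.1 hi)
    rw [hv, Int.cast_mul, abs_mul, abs_of_pos (Int.cast_pos.2 hG)] at h5
    have h6 : ∏ j, |(g j s : ℝ)| ^ x j ≤ (BB e fun j => g j s) ^ ((supp c).card - 1).choose 2 := by
      unfold BB occ
      rw [← Finset.prod_pow, Finset.prod_filter]
      refine Finset.prod_le_prod (fun j _ => pow_nonneg (abs_nonneg _) _) fun j _ => ?_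
      by_cases hj : E e j = 0
      · have h7 : x j = 0 := by
          simp only [x]
          rw [if_neg]
          rintro ⟨i, -, hi⟩
          exact hi (Nat.le_zero.1 (hj ▸ le_E e i j))
        rw [h7, pow_zero, if_neg (not_not.2 hj)]
      · rw [if_pos hj]
        have h8 : (1 : ℝ) ≤ |(g j s : ℝ)| := by exact_mod_cast Int.one_le_abs (g_ne hne0 j hj)
        refine pow_le_pow_right₀ h8 ?_
        simp only [x]
        split_ifs
        · exact le_refl _
        · exact Nat.zero_le _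
    calc |((T κ μ g e i s : ℤ) : ℝ)| ≤
        C * (|(p : ℝ)| * (((supp c).gcd (fun i => T κ μ g e i s) : ℤ) : ℝ)) *
          ∏ j, |(g j s : ℝ)| ^ x j := h5
      _ ≤ C * (|(p : ℝ)| * (((supp c).gcd (fun i => T κ μ g e i s) : ℤ) : ℝ)) *
          (BB e fun j => g j s) ^ ((supp c).card - 1).choose 2 :=
        mul_le_mul_of_nonneg_left h6 (mul_nonneg hC.le (mul_nonneg (abs_nonneg _)
          (Int.cast_nonneg (gcd_nn _ _))))
      _ = _ := by ring

end Pool.Agent.Q183.AR
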