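import Pool.Agent.Q183.AR.Core
import Pool.Agent.Q183.UE.Exp

/-!
Linear recurrence sequences are given by exponential polynomials on arithmetic progressions.
-/

set_option autoImplicit false

namespace Pool.Agent.Q183.AR

open Polynomial
open Pool.Agent.Q183.UE (sh aeval_sh solve sh_pow)

/-- **Solutions of linear recurrences** over a field where the characteristic polynomial splits. -/
theorem exp_split {K : Type} [Field K] [CharZero K] (Q : K → Prop) : ∀ (q : ℕ) (p : K[X])
    (f : ℕ → K), p.natDegree = q → p.coeff 0 ≠ 0 → p.Splits → (∀ x, p.IsRoot x → Q x) →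
    aeval ((sh K).toLinearMap : Module.End K (ℕ → K)) p f = 0 →
    ∃ (lam : Fin q → K) (P : Fin q → K[X]), (∀ i, lam i ≠ 0 ∧ Q (lam i)) ∧
      (∀ i m, q ≤ m → (P i).coeff m = 0) ∧
      ∀ t : ℕ, f t = ∑ i, (P i).eval (t : K) * lam i ^ t := by
  intro q
  induction q with
  | zero =>
    intro p f hp h0 _ _ hf
    refine ⟨fun i => i.elim0, fun i => i.elim0, fun i => i.elim0, fun i => i.elim0, fun t => ?_⟩
    have h1 := congrFun hf t
    rw [aeval_sh, hp] at h1
    simp only [zero_add, Finset.sum_range_one, Nat.add_zero, Pi.zero_apply] at h1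
    rw [Finset.univ_eq_empty, Finset.sum_empty]
    exact (mul_eq_zero.1 h1).resolve_left h0
  | succ q ih =>
    intro p f hp h0 hs hQr hf
    have hp0 : p ≠ 0 := fun h => h0 (by rw [h, coeff_zero])
    obtain ⟨lam0, hroot⟩ := hs.exists_eval_eq_zero (by
      rw [degree_eq_natDegree hp0, hp]
      exact_mod_cast Nat.succ_ne_zero q)
    obtain ⟨g, hg⟩ := dvd_iff_isRoot.2 hroot
    have hlam0 : lam0 ≠ 0 := by
      intro h
      apply h0
      rw [h, ← coeff_zero_eq_eval_zero] at hroot
      exact hroot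
    have hg0 : g ≠ 0 := by
      intro h
      rw [h, mul_zero] at hg
      exact hp0 hg
    have hgd : g.natDegree = q := by
      have h1 := congrArg natDegree hg
      rw [natDegree_mul (X_sub_C_ne_zero lam0) hg0, natDegree_X_sub_C, hp] at h1
      omega
    have hgc : g.coeff 0 ≠ 0 := by
      intro h
      apply h0
      rw [hg, mul_coeff_zero, h, mul_zero]
    set f' : ℕ → K := fun t => f (t + 1) - lam0 * f t with hf'
    have hf1 : aeval ((sh K).toLinearMap : Module.End K (ℕ → K)) (X - C lam0) f = f' := by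
      funext t
      rw [map_sub, aeval_X, aeval_C, LinearMap.sub_apply, Pi.sub_apply]
      rfl
    obtain ⟨lam, P, hl, hPd, hP⟩ := ih g f' hgd hgc (hs.of_dvd hp0 ⟨X - C lam0, by rw [mul_comm]; exact hg⟩)
      (fun x hx => hQr x (by rw [hg, IsRoot.def, eval_mul, hx.eq_zero, mul_zero])) (by
      rw [← hf1, ← Module.End.mul_apply, ← map_mul, mul_comm g, ← hg, hf])
    choose R hRd hR using fun i => solve lam0 (hl i).1 q (P i) (hPd i)
    set u : ℕ → K := fun t => f t - ∑ i, (R i).eval (t : K) * lam i ^ t with hu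
    have hstep : ∀ t, u (t + 1) = lam0 * u t := by
      intro t
      have h1 : f (t + 1) = lam0 * f t + f' t := by
        simp only [f']
        ring
      have h2 : ∀ i, (R i).eval ((t + 1 : ℕ) : K) * lam i ^ (t + 1) =
          lam0 * ((R i).eval (t : K) * lam i ^ t) + (P i).eval (t : K) * lam i ^ t := by
        intro i
        have h3 := congrArg (eval (t : K)) (hR i)
        simp only [eval_sub, eval_mul, eval_C, eval_comp, eval_add, eval_X, eval_one] at h3
        rw [← h3]
        push_cast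
        ring
      simp only [u]
      rw [h1, Finset.sum_congr rfl fun i _ => h2 i, Finset.sum_add_distrib, ← Finset.mul_sum, ← hP]
      ring
    have hu0 : ∀ t, u t = u 0 * lam0 ^ t := by
      intro t
      induction t with
      | zero => rw [pow_zero, mul_one]
      | succ t iht => rw [hstep, iht, pow_succ]; ring
    refine ⟨Fin.cons lam0 lam, Fin.cons (C (u 0)) R, fun i => ?_, fun i m hm => ?_, fun t => ?_⟩
    · refine Fin.cases ?_ (fun i => ?_) i
      · rw [Fin.cons_zero]
        exact ⟨hlam0, hQr _ hroot⟩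
      · rw [Fin.cons_succ]
        exact hl i
    · refine Fin.cases ?_ (fun i => ?_) i
      · rw [Fin.cons_zero, coeff_C, if_neg (by omega)]
      · rw [Fin.cons_succ]
        exact hRd i m hm
    · rw [Fin.sum_univ_succ]
      simp only [Fin.cons_zero, Fin.cons_succ, eval_C]
      have h1 : f t = u t + ∑ i, (R i).eval (t : K) * lam i ^ t := by
        simp only [u]
        ring
      rw [h1, hu0]

/-- removing the root zero -/
theorem exp_shift {K : Type} [Field K] [CharZero K] (Q : K → Prop) {p : K[X]} (hp0 : p ≠ 0)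
    (hs : p.Splits) (hQ : ∀ x, p.IsRoot x → Q x) {f : ℕ → K}
    (hf : aeval ((sh K).toLinearMap : Module.End K (ℕ → K)) p f = 0) {z : ℕ}
    (hz : p.natDegree ≤ z) :
    ∃ (q : ℕ) (lam : Fin q → K) (P : Fin q → K[X]), (∀ i, lam i ≠ 0 ∧ Q (lam i)) ∧
      ∀ t : ℕ, f (t + z) = ∑ i, (P i).eval (t : K) * lam i ^ t := by
  obtain ⟨g, hg, hnd⟩ := exists_eq_pow_rootMultiplicity_mul_and_not_dvd p hp0 0
  set m := p.rootMultiplicity 0 with hm
  have hg0 : g ≠ 0 := by
    rintro rfl
    exact hnd (dvd_zero _)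
  have hgc : g.coeff 0 ≠ 0 := by
    intro h
    apply hnd
    rw [dvd_iff_isRoot, IsRoot.def, ← coeff_zero_eq_eval_zero]
    exact h
  have hdvd : g ∣ p := ⟨(X - C 0) ^ m, by rw [mul_comm]; exact hg⟩
  have hmz : m ≤ z := by
    have h1 := congrArg natDegree hg
    rw [natDegree_mul (pow_ne_zero _ (X_sub_C_ne_zero 0)) hg0, natDegree_pow, natDegree_X_sub_C] at h1
    omega
  have hkill : aeval ((sh K).toLinearMap : Module.End K (ℕ → K)) g (fun t => f (t + z)) = 0 := by
    have h1 : (fun t => f (t + z)) =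
        (((sh K).toLinearMap : Module.End K (ℕ → K)) ^ z) f := by
      funext t
      rw [sh_pow]
    have h2 : g * X ^ z = X ^ (z - m) * p := by
      rw [hg, C_0, sub_zero, show X ^ z = (X ^ (z - m) * X ^ m : K[X]) by
        rw [← pow_add]; congr 1; omega]
      ring
    rw [h1]
    have h3 : (((sh K).toLinearMap : Module.End K (ℕ → K)) ^ z) =
        aeval ((sh K).toLinearMap : Module.End K (ℕ → K)) (X ^ z : K[X]) := by
      rw [map_pow, aeval_X]
    rw [h3, ← Module.End.mul_apply, ← map_mul, h2, map_mul, Module.End.mul_apply, hf, map_zero]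
  obtain ⟨lam, P, h1, _, h2⟩ := exp_split Q g.natDegree g _ rfl hgc (hs.of_dvd hp0 hdvd)
    (fun x hx => hQ x (hx.dvd hdvd)) hkill
  exact ⟨g.natDegree, lam, P, h1, h2⟩

/-- multiplicatively independent bases for the powers of finitely many elements -/
theorem mult_basis {L : Type} [Field L] {ι : Type} [Fintype ι] (lam : ι → Lˣ) :
    ∃ (M r : ℕ) (γ : Fin r → Lˣ) (n : ι → Fin r → ℤ), 0 < M ∧ Ind γ ∧
      ∀ i, pg γ (n i) = lam i ^ M := by
  classical
  let A := Submodule.span ℤ (Set.range fun i => Additive.ofMul (lam i))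
  have hAfin : Module.Finite ℤ A := Module.Finite.iff_fg.2 (Submodule.fg_span (Set.finite_range _))
  let T := Submodule.torsion ℤ A
  let B := A ⧸ T
  have hBf : Module.Free ℤ B := inferInstance
  let b := Module.finBasis ℤ B
  set r := Module.finrank ℤ B with hr
  choose c hc using fun k => Submodule.Quotient.mk_surjective T (b k)
  let a : ι → A := fun i => ⟨Additive.ofMul (lam i), Submodule.subset_span ⟨i, rfl⟩⟩
  let n : ι → Fin r → ℤ := fun i k => b.repr (Submodule.Quotient.mk (a i)) k
  have htor : ∀ i, a i - ∑ k, n i k • c k ∈ T := by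
    intro i
    rw [← Submodule.Quotient.mk_eq_zero, Submodule.Quotient.mk_sub, sub_eq_zero]
    have h1 : (Submodule.Quotient.mk (∑ k, n i k • c k) : B) = ∑ k, n i k • b k := by
      rw [← Submodule.mkQ_apply, map_sum]
      refine Finset.sum_congr rfl fun k _ => ?_
      rw [map_smul, Submodule.mkQ_apply, hc]
    rw [h1]
    exact (b.sum_repr _).symm
  have htor' : ∀ i, ∃ m : ℕ, 0 < m ∧ m • (a i - ∑ k, n i k • c k) = 0 := by
    intro i
    obtain ⟨m, hm⟩ := (Submodule.mem_torsion_iff _).1 (htor i)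
    have hm0 : (m : ℤ) ≠ 0 := nonZeroDivisors.coe_ne_zero m
    have hm' : (m : ℤ) • (a i - ∑ k, n i k • c k) = 0 := hm
    refine ⟨(m : ℤ).natAbs, Int.natAbs_pos.2 hm0, ?_⟩
    rcases Int.natAbs_eq (m : ℤ) with h | h
    · rw [← natCast_zsmul, ← h]
      exact hm'
    · have h2 : (((m : ℤ).natAbs : ℕ) : ℤ) = -(m : ℤ) := by omega
      rw [← natCast_zsmul, h2, neg_smul, hm', neg_zero]
  choose m hm0 hm using htor'
  set M := ∏ i, m i with hM
  have hM0 : 0 < M := Finset.prod_pos fun i _ => hm0 i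
  have hMt : ∀ i, M • (a i - ∑ k, n i k • c k) = 0 := by
    intro i
    rw [hM, ← Finset.prod_erase_mul _ _ (Finset.mem_univ i), mul_smul, hm, smul_zero]
  let γ : Fin r → Lˣ := fun k => (Additive.toMul (c k : Additive Lˣ)) ^ M
  have hγ : ∀ v : Fin r → ℤ, Additive.ofMul (pg γ v) = M • ((∑ k, v k • c k : A) : Additive Lˣ) := by
    intro v
    unfold pg
    rw [ofMul_prod, Submodule.coe_sum, ← Finset.sum_nsmul]
    refine Finset.sum_congr rfl fun k _ => ?_
    simp only [γ, ofMul_zpow, ofMul_pow, ofMul_toMul, Submodule.coe_smul]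
    rw [← natCast_zsmul, ← natCast_zsmul, smul_comm]
  refine ⟨M, r, γ, n, hM0, ?_, ?_⟩
  · intro v hv
    have h1 : M • (∑ k, v k • c k : A) = 0 := by
      apply Subtype.ext
      have h2 := hγ v
      rw [hv, ofMul_one] at h2
      exact h2.symm
    have h2 : (Submodule.Quotient.mk (M • (∑ k, v k • c k : A)) : B) = M • ∑ k, v k • b k := by
      rw [← Submodule.mkQ_apply, map_nsmul, map_sum]
      congr 1
      refine Finset.sum_congr rfl fun k _ => ?_
      rw [map_smul, Submodule.mkQ_apply, hc]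
    rw [h1, Submodule.Quotient.mk_zero] at h2
    have h3 : ∑ k, v k • b k = 0 := by
      have h4 : (M : ℤ) • ∑ k, v k • b k = 0 := by
        rw [natCast_zsmul]
        exact h2.symm
      rcases smul_eq_zero.1 h4 with h | h
      · omega
      · exact h
    exact funext fun k => Fintype.linearIndependent_iff.1 b.linearIndependent v h3 k
  · intro i
    apply Additive.ofMul.injective
    rw [hγ, ofMul_pow]
    have h1 := congrArg (fun x : A => (x : Additive Lˣ)) (hMt i)
    simp only [smul_sub, Submodule.coe_sub, Submodule.coe_zero] at h1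
    exact (sub_eq_zero.1 h1).symm

theorem single_mem_Bi {L : Type} [Field L] {r : ℕ} {γ : Fin r → Lˣ} {m : Ex r} (c : L)
    (h : IsIntegral ℤ ((pg γ m.1 : Lˣ) : L)) :
    (AddMonoidAlgebra.single m c : EP L r) ∈ Bi γ := by
  classical
  intro a ha
  rw [AddMonoidAlgebra.coeff_single] at ha
  have h1 := Finsupp.support_single_subset ha
  rw [Finset.mem_singleton] at h1
  rw [h1]
  exact h

/-- **Representation** of linear recurrences by exponential polynomials on progressions. -/
theorem rep {L : Type} [Field L] [CharZero L] {ι κ : Type} [Fintype ι] [Fintype κ]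
    (f : ι → ℕ → L) (p : ι → L[X]) (hp0 : ∀ i, p i ≠ 0) (hs : ∀ i, (p i).Splits)
    (hint : ∀ i x, (p i).IsRoot x → IsIntegral ℤ x)
    (hf : ∀ i, aeval ((sh L).toLinearMap : Module.End L (ℕ → L)) (p i) (f i) = 0)
    (μ : κ → L) (hμ : ∀ k, μ k ≠ 0) :
    ∃ (z M r : ℕ) (γ : Fin r → Lˣ) (n : κ → Fin r → ℤ), 0 < M ∧ Ind γ ∧
      (∀ k, ((pg γ (n k) : Lˣ) : L) = μ k ^ M) ∧
      ∀ ρ : ℕ, ∃ F : ι → EP L r, (∀ i, F i ∈ Bi γ) ∧
        ∀ i t, ev γ (F i) t = f i (M * t + (ρ + z)) := by
  classical
  set z := ∑ i, (p i).natDegree with hz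
  have h1 := fun i => exp_shift (fun x => IsIntegral ℤ x) (hp0 i) (hs i) (hint i) (hf i)
    (z := z) (Finset.single_le_sum (f := fun i => (p i).natDegree) (fun _ _ => Nat.zero_le _)
      (Finset.mem_univ i))
  choose q lam P hlam hP using h1
  let lam' : ((i : ι) × Fin (q i)) ⊕ κ → Lˣ :=
    Sum.elim (fun x => Units.mk0 (lam x.1 x.2) (hlam x.1 x.2).1) fun k => Units.mk0 (μ k) (hμ k)
  obtain ⟨M, r, γ, n, hM, hγ, hn⟩ := mult_basis lam'
  have hn1 : ∀ i (a : Fin (q i)), ((pg γ (n (Sum.inl ⟨i, a⟩)) : Lˣ) : L) = lam i a ^ M := by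
    intro i a
    rw [hn, Units.val_pow_eq_pow_val]
    rfl
  refine ⟨z, M, r, γ, fun k => n (Sum.inr k), hM, hγ, fun k => ?_, fun ρ => ?_⟩
  · rw [hn, Units.val_pow_eq_pow_val]
    rfl
  let P' : (i : ι) → Fin (q i) → L[X] := fun i a => (P i a).comp (C (M : L) * X + C (ρ : L))
  refine ⟨fun i => ∑ a : Fin (q i), ∑ k ∈ Finset.range ((P' i a).natDegree + 1),
    AddMonoidAlgebra.single (n (Sum.inl ⟨i, a⟩), k) ((P' i a).coeff k * lam i a ^ ρ),
    fun i => sum_mem fun a _ => sum_mem fun k _ => single_mem_Bi _ ?_, fun i t => ?_⟩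
  · change IsIntegral ℤ ((pg γ (n (Sum.inl ⟨i, a⟩)) : Lˣ) : L)
    rw [hn1]
    exact (hlam i a).2.pow M
  · rw [map_sum, Finset.sum_apply]
    have h2 : ∀ a : Fin (q i), (ev γ (∑ k ∈ Finset.range ((P' i a).natDegree + 1),
        AddMonoidAlgebra.single (n (Sum.inl ⟨i, a⟩), k) ((P' i a).coeff k * lam i a ^ ρ))) t =
        (P i a).eval ((M * t + ρ : ℕ) : L) * lam i a ^ (M * t + ρ) := by
      intro a
      rw [map_sum, Finset.sum_apply]
      have h3 : ∀ k, ev γ (AddMonoidAlgebra.single (n (Sum.inl ⟨i, a⟩), k)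
          ((P' i a).coeff k * lam i a ^ ρ)) t =
          ((P' i a).coeff k * (t : L) ^ k) * lam i a ^ (M * t + ρ) := by
        intro k
        rw [ev_single, hn1, ← pow_mul, pow_add]
        ring
      simp only [h3]
      rw [← Finset.sum_mul, ← eval_eq_sum_range]
      congr 1
      simp only [P', eval_comp, eval_add, eval_mul, eval_C, eval_X]
      push_cast
      rfl
    simp only [h2]
    rw [show M * t + (ρ + z) = (M * t + ρ) + z by ring, hP]

end Pool.Agent.Q183.AR
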