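import Pool.Agent.Q183.AR.Circ
import Pool.Agent.Q183.AR.GMain

/-!
Integer linear recurrences: `n` pairwise coprime terms.
-/

set_option autoImplicit false

namespace Pool.Agent.Q183.AR

variable {n : ℕ} {J : Type} [Fintype J]

/-- nonzero pairwise coprime numbers -/
def Cop (x : Fin n → ℤ) : Prop := (∀ i, x i ≠ 0) ∧ ∀ i j, i ≠ j → IsCoprime (x i) (x j)

/-- the largest exponent -/
def E (e : Fin n → J → ℕ) (j : J) : ℕ := Finset.univ.sup fun i => e i j

theorem le_E (e : Fin n → J → ℕ) (i : Fin n) (j : J) : e i j ≤ E e j :=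
  Finset.le_sup (f := fun i => e i j) (Finset.mem_univ i)

theorem g_ne {κ μ : Fin n → ℤ} {g : J → ℕ → ℤ} {e : Fin n → J → ℕ} {s : ℕ}
    (h : ∀ i, T κ μ g e i s ≠ 0) (j : J) (hj : E e j ≠ 0) : g j s ≠ 0 := by
  intro h0
  obtain ⟨i, hi⟩ : ∃ i, e i j ≠ 0 := by
    by_contra hcon
    push Not at hcon
    apply hj
    unfold E
    exact (Finset.sup_eq_bot_iff _ _).2 fun i _ => hcon i
  apply h i
  unfold T
  rw [Finset.prod_eq_zero (Finset.mem_univ j) (by rw [h0, zero_pow hi]), mul_zero]

theorem dvd_T (κ μ : Fin n → ℤ) (g : J → ℕ → ℤ) {e : Fin n → J → ℕ} {s : ℕ} {i : Fin n} {j : J}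
    (hij : e i j ≠ 0) : g j s ∣ T κ μ g e i s := by
  unfold T
  exact Dvd.dvd.mul_left ((dvd_pow_self _ hij).trans
    (Finset.dvd_prod_of_mem (fun j => g j s ^ e i j) (Finset.mem_univ j))) _

/-- the bound for the terms -/
def bd (g : J → ℕ → ℤ) (e : Fin n → J → ℕ) (s : ℕ) : ℝ := ∏ j, |(g j s : ℝ)| ^ min (E e j) (n - 2)

theorem bd_nonneg (g : J → ℕ → ℤ) (e : Fin n → J → ℕ) (s : ℕ) : 0 ≤ bd g e s :=
  Finset.prod_nonneg fun _ _ => pow_nonneg (abs_nonneg _) _

theorem snc_mono (κ μ : Fin n → ℤ) (g : J → ℕ → ℤ) (e : Fin n → J → ℕ) (i0 : Fin n) :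
    MonoC fun C s => Cop (fun i => T κ μ g e i s) →
      |(T κ μ g e i0 s : ℝ)| ≤ C * bd g e s := fun _ _ s hCC h1 h2 =>
  (h1 h2).trans (mul_le_mul_of_nonneg_right hCC (bd_nonneg g e s))

/-- the exponents in the dichotomy -/
def xx (c : Fin n → ℤ) (e : Fin n → J → ℕ) (j : J) : ℕ :=
  if (Finset.univ.filter fun i => c i ≠ 0 ∧ e i j ≠ 0).card = 0 then 0 else
    if (Finset.univ.filter fun i => c i ≠ 0 ∧ e i j ≠ 0).card = 1 then min (E e j) (n - 2) else n * n

theorem xx_bound (c : Fin n → ℤ) (e : Fin n → J → ℕ) (N : ℕ) (f : Fin N → Fin n)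
    (hf : Function.Injective f) (hc : ∀ k, c (f k) ≠ 0)
    (hN : N < (Finset.univ.filter fun i => c i ≠ 0).card) (j : J) :
    ∑ k : Fin N, min (e (f k) j) k ≤ xx c e j := by
  classical
  have hn : N < n := lt_of_lt_of_le hN ((Finset.card_le_univ _).trans (by simp))
  unfold xx
  split_ifs with h1 h2
  · refine le_of_eq (Finset.sum_eq_zero fun k _ => ?_)
    have h3 : e (f k) j = 0 := by
      by_contra hcon
      have : f k ∈ Finset.univ.filter fun i => c i ≠ 0 ∧ e i j ≠ 0 :=
        Finset.mem_filter.2 ⟨Finset.mem_univ _, hc k, hcon⟩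
      rw [Finset.card_eq_zero.1 h1] at this
      exact absurd this (Finset.notMem_empty _)
    rw [h3, Nat.zero_min]
  · obtain ⟨i, hi⟩ := Finset.card_eq_one.1 h2
    by_cases h3 : ∃ k, e (f k) j ≠ 0
    · obtain ⟨k, hk⟩ := h3
      rw [Finset.sum_eq_single k]
      · refine min_le_min (le_E e _ _) ?_
        have := k.2
        omega
      · intro k' _ hk'
        have h4 : e (f k') j = 0 := by
          by_contra hcon
          have h5 : f k ∈ Finset.univ.filter fun i => c i ≠ 0 ∧ e i j ≠ 0 :=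
            Finset.mem_filter.2 ⟨Finset.mem_univ _, hc k, hk⟩
          have h6 : f k' ∈ Finset.univ.filter fun i => c i ≠ 0 ∧ e i j ≠ 0 :=
            Finset.mem_filter.2 ⟨Finset.mem_univ _, hc k', hcon⟩
          rw [hi, Finset.mem_singleton] at h5 h6
          exact hk' (hf (h6.trans h5.symm))
        rw [h4, Nat.zero_min]
      · intro h
        exact absurd (Finset.mem_univ _) h
    · push Not at h3
      refine le_trans (le_of_eq (Finset.sum_eq_zero fun k _ => ?_)) (Nat.zero_le _)
      rw [h3 k, Nat.zero_min]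
  · calc ∑ k : Fin N, min (e (f k) j) k ≤ ∑ _k : Fin N, n :=
          Finset.sum_le_sum fun k _ => (min_le_right _ _).trans (by have := k.2; omega)
      _ = N * n := by simp
      _ ≤ n * n := Nat.mul_le_mul_right _ hn.le

theorem snc_aux (e : Fin n → J → ℕ) (i0 : Fin n) (m : ℕ) :
    ∀ (g : J → ℕ → ℤ), (∀ j, Rec (g j)) → ∀ (κ μ : Fin n → ℤ), (∀ i, μ i ≠ 0) →
    ∀ c : Fin n → ℤ, (Finset.univ.filter fun i => c i ≠ 0).card ≤ m → c i0 ≠ 0 →
    (∀ t, ∑ i, c i * T κ μ g e i t = 0) →
    AA fun C s => Cop (fun i => T κ μ g e i s) → |(T κ μ g e i0 s : ℝ)| ≤ C * bd g e s := by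
  classical
  induction m with
  | zero =>
    intro g hg κ μ hμ c hc hi0
    exfalso
    have : i0 ∈ Finset.univ.filter fun i => c i ≠ 0 := Finset.mem_filter.2 ⟨Finset.mem_univ _, hi0⟩
    exact absurd (Finset.card_pos.2 ⟨i0, this⟩) (by omega)
  | succ m ih =>
    intro g hg κ μ hμ c hc hi0 hrel
    by_cases hil : ∃ il, c il ≠ 0 ∧ i0 ≠ il
    swap
    · push Not at hil
      refine AA.true.imp (fun C => C) 0 (fun C hC => hC) fun C s _ _ _ h1 => ?_
      exfalso
      have h2 := hrel s
      rw [Finset.sum_eq_single i0] at h2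
      · exact h1.1 i0 ((mul_eq_zero.1 h2).resolve_left hi0)
      · intro i _ hi
        have : c i = 0 := by
          by_contra hcon
          exact hi (hil i hcon).symm
        rw [this, zero_mul]
      · intro h
        exact absurd (Finset.mem_univ _) h
    obtain ⟨il, hil, hne⟩ := hil
    obtain ⟨M, hM, h⟩ := dich g hg κ μ hμ e c hrel il i0 hil hi0 hne (xx c e) (xx_bound c e) (by
      intro j hj
      unfold xx at hj
      split_ifs at hj with h1 h2
      · exact absurd rfl hj
      all_goals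
        obtain ⟨i, hi⟩ := Finset.card_pos.1 (Nat.pos_of_ne_zero h1)
        exact ⟨i, (Finset.mem_filter.1 hi).2⟩)
    refine AA.ofCls hM (fun ρ => ?_) (snc_mono κ μ g e i0)
    rcases h ρ with ⟨c', z, hc'l, hc'0, hc'1, hc'2⟩ | h1
    · obtain ⟨c'', hc''i, hc''s, hc''r⟩ : ∃ c'' : Fin n → ℤ, c'' i0 ≠ 0 ∧
          (∃ i1, c i1 ≠ 0 ∧ c'' i1 = 0 ∧ ∀ i, c i = 0 → c'' i = 0) ∧
          ∀ t, z ≤ t → t ≡ ρ [MOD M] → ∑ i, c'' i * T κ μ g e i t = 0 := by
        by_cases h2 : c' i0 = 0
        · obtain ⟨i1, hi1⟩ := Function.ne_iff.1 hc'1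
          simp only [Pi.zero_apply] at hi1
          have hci1 : c i1 ≠ 0 := fun h3 => hi1 (hc'0 i1 h3)
          refine ⟨fun i => c' i1 * c i - c i1 * c' i, ?_, ⟨i1, hci1, by ring, fun i hi => ?_⟩,
            fun t ht htm => ?_⟩
          · change c' i1 * c i0 - c i1 * c' i0 ≠ 0
            rw [h2, mul_zero, sub_zero]
            exact mul_ne_zero hi1 hi0
          · change c' i1 * c i - c i1 * c' i = 0
            rw [hi, hc'0 i hi]
            ring
          · have h3 : ∀ i, (c' i1 * c i - c i1 * c' i) * T κ μ g e i t =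
                c' i1 * (c i * T κ μ g e i t) - c i1 * (c' i * T κ μ g e i t) := fun i => by ring
            rw [Finset.sum_congr rfl fun i _ => h3 i, Finset.sum_sub_distrib, ← Finset.mul_sum,
              ← Finset.mul_sum, hrel t, hc'2 t ht htm]
            ring
        · exact ⟨c', h2, ⟨il, hil, hc'l, hc'0⟩, hc'2⟩
      obtain ⟨i1, hi1, hi1', hsub⟩ := hc''s
      have hcard : (Finset.univ.filter fun i => c'' i ≠ 0).card ≤ m := by
        have h2 : (Finset.univ.filter fun i => c'' i ≠ 0) ⊂ Finset.univ.filter fun i => c i ≠ 0 := by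
          refine Finset.ssubset_iff_subset_ne.2 ⟨fun i hi => ?_, fun h3 => ?_⟩
          · refine Finset.mem_filter.2 ⟨Finset.mem_univ _, fun h4 => ?_⟩
            exact (Finset.mem_filter.1 hi).2 (hsub i h4)
          · have h4 : i1 ∈ Finset.univ.filter fun i => c i ≠ 0 :=
              Finset.mem_filter.2 ⟨Finset.mem_univ _, hi1⟩
            rw [← h3] at h4
            exact (Finset.mem_filter.1 h4).2 hi1'
        have := Finset.card_lt_card h2
        omega
      have h2 := ih (fun j t => g j (M * t + (M * z + ρ))) (fun j => (hg j).aff M _)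
        (fun i => κ i * μ i ^ (M * z + ρ)) (fun i => μ i ^ M) (fun i => pow_ne_zero _ (hμ i)) c'' hcard
        hc''i (fun t => by
          simp only [T_aff]
          refine hc''r _ ?_ ?_
          · calc z ≤ M * z := Nat.le_mul_of_pos_left _ hM
              _ ≤ M * t + (M * z + ρ) := by omega
          · unfold Nat.ModEq
            rw [show M * t + (M * z + ρ) = ρ + M * (t + z) by ring, Nat.add_mul_mod_self_left])
      refine AA.cls (z := z) hM h2 (fun C => C) (fun C hC => hC) fun C s hC h3 => ?_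
      simp only [T_aff] at h3
      have h4 : M * (s + z) + ρ = M * s + (M * z + ρ) := by ring
      rw [h4]
      exact h3
    · refine h1.imp (fun C => C * |((c i0 * c il : ℤ) : ℝ)|) 0 (fun C hC => mul_pos hC
        (abs_pos.2 (by exact_mod_cast mul_ne_zero hi0 hil))) fun C s hC _ h2 hs hcop => ?_
      obtain ⟨h3, h4⟩ := h2 hs
      obtain ⟨p, q, hpq⟩ := hcop.2 i0 il hne
      let v : Fin n → ℤ := fun i => if i = i0 then p * c il else if i = il then q * c i0 else 0
      have hv : ∑ i, v i * (c i * T κ μ g e i s) = c i0 * c il := by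
        rw [Finset.sum_eq_add_of_mem i0 il (Finset.mem_univ _) (Finset.mem_univ _) hne]
        · simp only [v, if_true, if_neg hne.symm]
          linear_combination (c i0 * c il) * hpq
        · intro i _ hi
          simp only [v, if_neg hi.1, if_neg hi.2, zero_mul]
      have h5 := h4 v (by rw [hv]; exact mul_ne_zero hi0 hil) i0 hi0
      rw [hv] at h5
      refine h5.trans (mul_le_mul_of_nonneg_left ?_ (by positivity))
      unfold bd
      refine Finset.prod_le_prod (fun j _ => pow_nonneg (abs_nonneg _) _) fun j _ => ?_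
      have hg1 : E e j ≠ 0 → (1 : ℝ) ≤ |(g j s : ℝ)| := fun hj => by
        exact_mod_cast Int.one_le_abs (g_ne hcop.1 j hj)
      unfold xx
      split_ifs with h6 h7
      · rw [pow_zero]
        rcases Nat.eq_zero_or_pos (E e j) with h8 | h8
        · rw [h8, Nat.zero_min, pow_zero]
        · exact one_le_pow₀ (hg1 (by omega))
      · exact le_refl _
      · obtain ⟨a, ha, b, hb, hab⟩ := Finset.one_lt_card.1 (by omega :
          1 < (Finset.univ.filter fun i => c i ≠ 0 ∧ e i j ≠ 0).card)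
        have ha' := (Finset.mem_filter.1 ha).2.2
        have hb' := (Finset.mem_filter.1 hb).2.2
        have h8 : IsUnit (g j s) := (hcop.2 a b hab).isUnit_of_dvd' (dvd_T κ μ g ha') (dvd_T κ μ g hb')
        have h9 : |(g j s : ℝ)| = 1 := by
          rcases Int.isUnit_iff.1 h8 with h8 | h8 <;> rw [h8] <;> norm_num
        rw [h9, one_pow, one_pow]

/-- **Pairwise coprime terms.** -/
theorem snc (g : J → ℕ → ℤ) (hg : ∀ j, Rec (g j)) (κ μ : Fin n → ℤ) (hμ : ∀ i, μ i ≠ 0)
    (e : Fin n → J → ℕ) (hsum : ∀ t, ∑ i, T κ μ g e i t = 0) :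
    AA fun C s => Cop (fun i => T κ μ g e i s) → ∀ i, |(T κ μ g e i s : ℝ)| ≤ C * bd g e s := by
  classical
  refine (AA.all (fun i => snc_aux e i _ g hg κ μ hμ (fun _ => 1) (le_refl _) one_ne_zero
    (fun t => by simpa using hsum t)) (fun i => snc_mono κ μ g e i)).imp (fun C => C) 0
    (fun C hC => hC) fun C s _ _ h1 h2 i => h1 i h2

end Pool.Agent.Q183.AR
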