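import Pool.Agent.Q183.AR.Snc

/-!
Integer linear recurrences: `n` pairwise coprime terms, sum zero at the argument only.
-/

set_option autoImplicit false

namespace Pool.Agent.Q183.AR

variable {n : ℕ} {J : Type} [Fintype J]

theorem rec_T {g : J → ℕ → ℤ} (hg : ∀ j, Rec (g j)) (κ μ : Fin n → ℤ) (e : Fin n → J → ℕ)
    (i : Fin n) : Rec (T κ μ g e i) :=
  ((Rec.const (κ i)).mul (Rec.geom (μ i))).mul (Rec.prod Finset.univ fun j _ => (hg j).pow (e i j))

/-- a property of the terms which has to be shown only for the families with sum zero -/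
theorem aa_family (e : Fin n → J → ℕ) (P : (Fin n → ℤ) → (J → ℤ) → ℝ → Prop)
    (hP : ∀ x y C C', C ≤ C' → P x y C → P x y C')
    (h : ∀ (g : J → ℕ → ℤ), (∀ j, Rec (g j)) → ∀ (κ μ : Fin n → ℤ), (∀ i, μ i ≠ 0) →
      (∀ t, ∑ i, T κ μ g e i t = 0) →
      AA fun C s => P (fun i => T κ μ g e i s) (fun j => g j s) C)
    (g : J → ℕ → ℤ) (hg : ∀ j, Rec (g j)) (κ μ : Fin n → ℤ) (hμ : ∀ i, μ i ≠ 0) :
    AA fun C s => ∑ i, T κ μ g e i s = 0 → P (fun i => T κ μ g e i s) (fun j => g j s) C := by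
  classical
  obtain ⟨M, hM, h0⟩ := zero_or (f := fun t => ∑ i, T κ μ g e i t)
    (Rec.sum Finset.univ fun i _ => rec_T hg κ μ e i)
  refine AA.ofCls hM (fun ρ => ?_) (fun C C' s hCC h1 h2 => hP _ _ _ _ hCC (h1 h2))
  rcases h0 ρ with ⟨z, hz⟩ | h1
  · have h2 := h (fun j t => g j (M * t + (M * z + ρ))) (fun j => (hg j).aff M _)
      (fun i => κ i * μ i ^ (M * z + ρ)) (fun i => μ i ^ M) (fun i => pow_ne_zero _ (hμ i))
      (fun t => by
        simp only [T_aff]
        refine hz _ ?_ ?_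
        · calc z ≤ M * z := Nat.le_mul_of_pos_left _ hM
            _ ≤ M * t + (M * z + ρ) := by omega
        · unfold Nat.ModEq
          rw [show M * t + (M * z + ρ) = ρ + M * (t + z) by ring, Nat.add_mul_mod_self_left])
    refine AA.cls (z := z) hM h2 (fun C => C) (fun C hC => hC) fun C s hC h3 _ => ?_
    simp only [T_aff] at h3
    have h4 : M * (s + z) + ρ = M * s + (M * z + ρ) := by ring
    rw [h4]
    exact h3
  · exact h1.imp (fun C => C) 0 (fun C hC => hC) fun C s _ _ h2 h3 h4 => absurd h4 (h2 h3)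

/-- **Pairwise coprime terms with sum zero.** -/
theorem sncB (g : J → ℕ → ℤ) (hg : ∀ j, Rec (g j)) (κ μ : Fin n → ℤ) (hμ : ∀ i, μ i ≠ 0)
    (e : Fin n → J → ℕ) :
    AA fun C s => ∑ i, T κ μ g e i s = 0 → Cop (fun i => T κ μ g e i s) →
      ∀ i, |(T κ μ g e i s : ℝ)| ≤ C * bd g e s :=
  aa_family e (fun x y C => Cop x → ∀ i, |(x i : ℝ)| ≤ C * ∏ j, |(y j : ℝ)| ^ min (E e j) (n - 2))
    (fun x y C C' hCC h1 h2 i => (h1 h2 i).trans (mul_le_mul_of_nonneg_right hCC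
      (Finset.prod_nonneg fun _ _ => pow_nonneg (abs_nonneg _) _)))
    (fun g hg κ μ hμ hsum => snc g hg κ μ hμ e hsum) g hg κ μ hμ

end Pool.Agent.Q183.AR
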