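import Mathlib

/-!
Growth of sums of exponentials with polynomial coefficients: lower bounds in windows.
-/

set_option autoImplicit false

namespace Pool.Agent.Q183.AR

open Filter Topology Polynomial

/-- `exp (a t) t ^ b` for `l = (a, b)` -/
noncomputable def sz (l : ℝ ×ₗ ℝ) (t : ℕ) : ℝ := Real.exp ((ofLex l).1 * t) * (t : ℝ) ^ (ofLex l).2

theorem sz_pos (l : ℝ ×ₗ ℝ) {t : ℕ} (ht : 1 ≤ t) : 0 < sz l t := by
  unfold sz
  have : (0 : ℝ) < t := by exact_mod_cast ht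
  positivity

theorem sz_nonneg (l : ℝ ×ₗ ℝ) (t : ℕ) : 0 ≤ sz l t := by
  unfold sz
  positivity

theorem sz_add (l m : ℝ ×ₗ ℝ) {t : ℕ} (ht : 1 ≤ t) : sz (l + m) t = sz l t * sz m t := by
  unfold sz
  have : (0 : ℝ) < t := by exact_mod_cast ht
  rw [ofLex_add, Prod.fst_add, Prod.snd_add, add_mul, Real.exp_add, Real.rpow_add this]
  ring

theorem sz_zero {t : ℕ} : sz 0 t = 1 := by
  unfold sz
  simp

theorem sz_sum {ι : Type} (s : Finset ι) (l : ι → ℝ ×ₗ ℝ) {t : ℕ} (ht : 1 ≤ t) :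
    sz (∑ i ∈ s, l i) t = ∏ i ∈ s, sz (l i) t := by
  classical
  induction s using Finset.induction_on with
  | empty => rw [Finset.sum_empty, Finset.prod_empty, sz_zero]
  | insert i s hi ih => rw [Finset.sum_insert hi, Finset.prod_insert hi, sz_add _ _ ht, ih]

theorem sz_ratio {l m : ℝ ×ₗ ℝ} (h : m < l) :
    Tendsto (fun t : ℕ => sz m t / sz l t) atTop (𝓝 0) := by
  have h1 : (fun t : ℕ => sz m t / sz l t) =ᶠ[atTop] fun t : ℕ =>
      (t : ℝ) ^ ((ofLex m).2 - (ofLex l).2) * Real.exp (-((ofLex l).1 - (ofLex m).1) * t) := by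
    filter_upwards [eventually_ge_atTop 1] with t ht
    have h2 : (0 : ℝ) < t := by exact_mod_cast ht
    unfold sz
    rw [Real.rpow_sub h2, show -((ofLex l).1 - (ofLex m).1) * (t : ℝ) =
      (ofLex m).1 * t - (ofLex l).1 * t by ring, Real.exp_sub]
    field_simp
  refine Tendsto.congr' h1.symm ?_
  rcases Prod.Lex.lt_iff.1 h with h2 | ⟨h2, h3⟩
  · exact (tendsto_rpow_mul_exp_neg_mul_atTop_nhds_zero _ _ (sub_pos.2 h2)).comp
      tendsto_natCast_atTop_atTop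
  · have h4 : ∀ t : ℕ, Real.exp (-((ofLex l).1 - (ofLex m).1) * t) = 1 := by
      intro t
      have : (ofLex m).1 = (ofLex l).1 := h2
      rw [this]
      simp
    simp only [h4, mul_one]
    have h5 : (ofLex m).2 - (ofLex l).2 = -((ofLex l).2 - (ofLex m).2) := by ring
    rw [h5]
    exact (tendsto_rpow_neg_atTop (sub_pos.2 h3)).comp tendsto_natCast_atTop_atTop

theorem sz_le {l m : ℝ ×ₗ ℝ} (h : m ≤ l) : ∃ C : ℝ, 0 < C ∧ ∀ t : ℕ, 1 ≤ t → sz m t ≤ C * sz l t := by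
  rcases eq_or_lt_of_le h with rfl | h
  · exact ⟨1, one_pos, fun t _ => by rw [one_mul]⟩
  · obtain ⟨B, hB⟩ := (sz_ratio h).bddAbove_range
    refine ⟨max B 1, lt_max_of_lt_right one_pos, fun t ht => ?_⟩
    have h1 : sz m t / sz l t ≤ B := hB ⟨t, rfl⟩
    rw [div_le_iff₀ (sz_pos l ht)] at h1
    exact h1.trans (mul_le_mul_of_nonneg_right (le_max_left _ _) (sz_nonneg _ _))

theorem le_of_sz {l m : ℝ ×ₗ ℝ} {c : ℝ} (hc : 0 < c)
    (h : ∃ᶠ t in atTop, c * sz m t ≤ sz l t) : m ≤ l := by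
  by_contra hcon
  rw [not_le] at hcon
  have h1 := (sz_ratio hcon).eventually (gt_mem_nhds hc)
  obtain ⟨t, ⟨h2, h3⟩, h4⟩ := ((h.and_eventually h1).and_eventually (eventually_ge_atTop 1)).exists
  rw [div_lt_iff₀ (sz_pos m h4)] at h3
  linarith

/-- the weight of an exponential monomial `t ^ k β ^ t` -/
noncomputable def wt (β : ℂ) (k : ℕ) : ℝ ×ₗ ℝ := toLex (Real.log ‖β‖, (k : ℝ))

theorem norm_mono {β : ℂ} (hβ : β ≠ 0) (k : ℕ) (t : ℕ) :
    ‖(t : ℂ) ^ k * β ^ t‖ = sz (wt β k) t := by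
  have h1 : 0 < ‖β‖ := norm_pos_iff.2 hβ
  unfold sz wt
  rw [norm_mul, norm_pow, norm_pow, Complex.norm_natCast, ofLex_toLex]
  simp only
  rw [Real.exp_mul, Real.exp_log h1, Real.rpow_natCast, Real.rpow_natCast, mul_comm]

/-- upper bound -/
theorem upper {ι : Type} (S : Finset ι) (β : ι → ℂ) (hβ : ∀ i ∈ S, β i ≠ 0) (k : ι → ℕ) (c : ι → ℂ)
    {l : ℝ ×ₗ ℝ} (hl : ∀ i ∈ S, wt (β i) (k i) ≤ l) :
    ∃ C : ℝ, 0 < C ∧ ∀ t : ℕ, 1 ≤ t → ‖∑ i ∈ S, c i * ((t : ℂ) ^ k i * β i ^ t)‖ ≤ C * sz l t := by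
  classical
  have h1 : ∀ i, ∃ C : ℝ, 0 < C ∧ (i ∈ S → ∀ t : ℕ, 1 ≤ t → sz (wt (β i) (k i)) t ≤ C * sz l t) := by
    intro i
    by_cases hi : i ∈ S
    · obtain ⟨C, hC, h⟩ := sz_le (hl i hi)
      exact ⟨C, hC, fun _ => h⟩
    · exact ⟨1, one_pos, fun h => absurd h hi⟩
  choose C hC h using h1
  refine ⟨∑ i ∈ S, ‖c i‖ * C i + 1, by
    have : 0 ≤ ∑ i ∈ S, ‖c i‖ * C i := Finset.sum_nonneg fun i _ =>
      mul_nonneg (norm_nonneg _) (hC i).le
    linarith, fun t ht => ?_⟩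
  refine (norm_sum_le _ _).trans ?_
  rw [add_mul, Finset.sum_mul]
  refine le_add_of_le_of_nonneg (Finset.sum_le_sum fun i hi => ?_) (by
    rw [one_mul]
    exact sz_nonneg _ _)
  rw [norm_mul, norm_mono (hβ i hi), mul_assoc]
  exact mul_le_mul_of_nonneg_left (h i hi t ht) (norm_nonneg _)

/-- sums of terms of smaller growth -/
theorem small {ι : Type} (S : Finset ι) (β : ι → ℂ) (hβ : ∀ i ∈ S, β i ≠ 0) (k : ι → ℕ) (c : ι → ℂ)
    {l : ℝ ×ₗ ℝ} (hl : ∀ i ∈ S, wt (β i) (k i) < l) :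
    Tendsto (fun t : ℕ => ‖∑ i ∈ S, c i * ((t : ℂ) ^ k i * β i ^ t)‖ / sz l t) atTop (𝓝 0) := by
  have h1 : Tendsto (fun t : ℕ => ∑ i ∈ S, ‖c i‖ * (sz (wt (β i) (k i)) t / sz l t)) atTop (𝓝 0) := by
    have h2 := tendsto_finset_sum S (fun i hi => (sz_ratio (hl i hi)).const_mul ‖c i‖)
    simpa using h2
  refine squeeze_zero' (Eventually.of_forall fun t => div_nonneg (norm_nonneg _) (sz_nonneg _ _)) ?_ h1
  filter_upwards [eventually_ge_atTop 1] with t ht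
  rw [div_le_iff₀ (sz_pos l ht), Finset.sum_mul]
  refine (norm_sum_le _ _).trans (Finset.sum_le_sum fun i hi => ?_)
  rw [norm_mul, norm_mono (hβ i hi)]
  have := (sz_pos l ht).ne'
  rw [mul_assoc, div_mul_cancel₀ _ this]

/-- **Lower bounds in windows.** -/
theorem window {ι : Type} (S : Finset ι) (β : ι → ℂ) (hβ : ∀ i ∈ S, β i ≠ 0) (k : ι → ℕ)
    (c : ι → ℂ) (hinj : ∀ i ∈ S, ∀ j ∈ S, β i = β j → k i = k j → i = j)
    {l : ℝ ×ₗ ℝ} (hl : ∀ i ∈ S, wt (β i) (k i) ≤ l) {i0 : ι} (hi0 : i0 ∈ S)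
    (h0 : wt (β i0) (k i0) = l) (hc : c i0 ≠ 0) :
    ∃ (e : ℝ) (T t0 : ℕ), 0 < e ∧ ∀ t, t0 ≤ t → ∃ s, t ≤ s ∧ s < t + T ∧
      e * sz l s ≤ ‖∑ i ∈ S, c i * ((s : ℂ) ^ k i * β i ^ s)‖ := by
  classical
  set S1 := S.filter fun i => wt (β i) (k i) = l with hS1
  set S2 := S.filter fun i => wt (β i) (k i) ≠ l with hS2
  have hi1 : i0 ∈ S1 := Finset.mem_filter.2 ⟨hi0, h0⟩
  have hk1 : ∀ i ∈ S1, k i = k i0 := by
    intro i hi
    have h1 : wt (β i) (k i) = wt (β i0) (k i0) := (Finset.mem_filter.1 hi).2.trans h0.symm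
    unfold wt at h1
    have h2 := congrArg (fun z : ℝ ×ₗ ℝ => (ofLex z).2) h1
    simp only [ofLex_toLex] at h2
    exact_mod_cast h2
  have hn1 : ∀ i ∈ S1, ‖β i‖ = ‖β i0‖ := by
    intro i hi
    have h1 : wt (β i) (k i) = wt (β i0) (k i0) := (Finset.mem_filter.1 hi).2.trans h0.symm
    unfold wt at h1
    have h2 := congrArg (fun z : ℝ ×ₗ ℝ => (ofLex z).1) h1
    simp only [ofLex_toLex] at h2
    exact Real.log_injOn_pos (norm_pos_iff.2 (hβ i (Finset.mem_filter.1 hi).1))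
      (norm_pos_iff.2 (hβ i0 hi0)) h2
  have hinj1 : Set.InjOn β (S1 : Set ι) := by
    intro i hi j hj hij
    exact hinj i (Finset.mem_filter.1 hi).1 j (Finset.mem_filter.1 hj).1 hij
      ((hk1 i hi).trans (hk1 j hj).symm)
  set p : ℂ[X] := Lagrange.basis S1 β i0 with hp
  have hp0 : p.eval (β i0) = 1 := Lagrange.eval_basis_self hinj1 hi1
  have hp1 : ∀ i ∈ S1, i ≠ i0 → p.eval (β i) = 0 := fun i hi hne =>
    Lagrange.eval_basis_of_ne hne.symm hi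
  set ρ := ‖β i0‖ with hρ
  have hρ0 : 0 < ρ := norm_pos_iff.2 (hβ i0 hi0)
  set T := p.natDegree + 1 with hT
  set A := ∑ s ∈ Finset.range T, ‖p.coeff s‖ with hA
  have hA0 : 0 ≤ A := Finset.sum_nonneg fun s _ => norm_nonneg _
  set g : ℕ → ℂ := fun t => ∑ i ∈ S1, c i * β i ^ t with hg
  have hkey : ∀ t, ∑ s ∈ Finset.range T, p.coeff s * g (t + s) = c i0 * β i0 ^ t := by
    intro t
    have h1 : ∀ s, p.coeff s * g (t + s) = ∑ i ∈ S1, c i * β i ^ t * (p.coeff s * β i ^ s) := by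
      intro s
      rw [hg, Finset.mul_sum]
      refine Finset.sum_congr rfl fun i _ => ?_
      rw [pow_add]
      ring
    simp only [h1]
    rw [Finset.sum_comm]
    simp only [← Finset.mul_sum]
    have h2 : ∀ i, ∑ s ∈ Finset.range T, p.coeff s * β i ^ s = p.eval (β i) := fun i => by
      rw [eval_eq_sum_range]
    simp only [h2]
    rw [Finset.sum_eq_single i0]
    · rw [hp0, mul_one]
    · intro i hi hne
      rw [hp1 i hi hne, mul_zero]
    · intro h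
      exact absurd hi1 h
  set e1 : ℝ := ‖c i0‖ / (A + 1) with he1
  have he10 : 0 < e1 := div_pos (norm_pos_iff.2 hc) (by linarith)
  have hex : ∀ t, ∃ s, s < T ∧ e1 * ρ ^ t ≤ ‖g (t + s)‖ := by
    intro t
    by_contra hcon
    push Not at hcon
    have h1 : ‖c i0 * β i0 ^ t‖ ≤ A * (e1 * ρ ^ t) := by
      rw [← hkey t, hA, Finset.sum_mul]
      refine (norm_sum_le _ _).trans (Finset.sum_le_sum fun s hs => ?_)
      rw [norm_mul]
      exact mul_le_mul_of_nonneg_left (hcon s (Finset.mem_range.1 hs)).le (norm_nonneg _)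
    rw [norm_mul, norm_pow, ← hρ] at h1
    have h2 : 0 < ρ ^ t := pow_pos hρ0 t
    have h3 : ‖c i0‖ = e1 * (A + 1) := by
      rw [he1]
      field_simp
    rw [h3] at h1
    nlinarith [mul_pos he10 h2]
  set e2 : ℝ := e1 / (max ρ 1) ^ T with he2
  have hmax : (0 : ℝ) < max ρ 1 := lt_max_of_lt_right one_pos
  have he20 : 0 < e2 := div_pos he10 (pow_pos hmax _)
  have hsm := small S2 β (fun i hi => hβ i (Finset.mem_filter.1 hi).1) k c (l := l)
    (fun i hi => lt_of_le_of_ne (hl i (Finset.mem_filter.1 hi).1) (Finset.mem_filter.1 hi).2)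
  have hev := hsm.eventually (gt_mem_nhds (show (0 : ℝ) < e2 / 2 by linarith))
  obtain ⟨t1, ht1⟩ := eventually_atTop.1 (hev.and (eventually_ge_atTop 1))
  refine ⟨e2 / 2, T, t1, by linarith, fun t ht => ?_⟩
  obtain ⟨s, hs, h1⟩ := hex t
  refine ⟨t + s, by omega, by omega, ?_⟩
  obtain ⟨h2, h3⟩ := ht1 (t + s) (by omega)
  set u := t + s with hu
  have hszl : sz l u = (u : ℝ) ^ k i0 * ρ ^ u := by
    rw [← h0, ← norm_mono (hβ i0 hi0), norm_mul, norm_pow, norm_pow, Complex.norm_natCast]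
  have h4 : ∑ i ∈ S, c i * ((u : ℂ) ^ k i * β i ^ u) =
      (u : ℂ) ^ k i0 * g u + ∑ i ∈ S2, c i * ((u : ℂ) ^ k i * β i ^ u) := by
    rw [← Finset.sum_filter_add_sum_filter_not S (fun i => wt (β i) (k i) = l)]
    congr 1
    rw [hg, Finset.mul_sum]
    refine Finset.sum_congr rfl fun i hi => ?_
    rw [hk1 i hi]
    ring
  have h5 : e2 * sz l u ≤ ‖(u : ℂ) ^ k i0 * g u‖ := by
    rw [norm_mul, norm_pow, Complex.norm_natCast, hszl]
    have h6 : e2 * ρ ^ u ≤ ‖g u‖ := by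
      refine le_trans ?_ h1
      have h7 : ρ ^ u ≤ ρ ^ t * (max ρ 1) ^ T := by
        rw [hu, pow_add]
        refine mul_le_mul_of_nonneg_left ?_ (pow_nonneg hρ0.le _)
        calc ρ ^ s ≤ (max ρ 1) ^ s := pow_le_pow_left₀ hρ0.le (le_max_left _ _) _
          _ ≤ (max ρ 1) ^ T := pow_le_pow_right₀ (le_max_right _ _) hs.le
      calc e2 * ρ ^ u ≤ e2 * (ρ ^ t * (max ρ 1) ^ T) := mul_le_mul_of_nonneg_left h7 he20.le
        _ = e1 * ρ ^ t := by
          rw [he2]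
          have := (pow_pos hmax T).ne'
          field_simp
    calc e2 * ((u : ℝ) ^ k i0 * ρ ^ u) = (u : ℝ) ^ k i0 * (e2 * ρ ^ u) := by ring
      _ ≤ (u : ℝ) ^ k i0 * ‖g u‖ := mul_le_mul_of_nonneg_left h6 (by positivity)
  have h6 : ‖∑ i ∈ S2, c i * ((u : ℂ) ^ k i * β i ^ u)‖ ≤ e2 / 2 * sz l u := by
    rw [div_lt_iff₀ (sz_pos l h3)] at h2
    exact h2.le
  rw [h4]
  have h7 := norm_sub_le ((u : ℂ) ^ k i0 * g u + ∑ i ∈ S2, c i * ((u : ℂ) ^ k i * β i ^ u))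
    (∑ i ∈ S2, c i * ((u : ℂ) ^ k i * β i ^ u))
  rw [add_sub_cancel_right] at h7
  linarith

end Pool.Agent.Q183.AR
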